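import Mathlib

/-!
Definitions for the q-analogue of the theorem of Apery (helper475).
Throughout `p : ℤ`, `2 ≤ |p|`, `q = 1/p`.
-/

namespace Pool.Agent.H475.QZ

open Finset

/-- `c_e = e^2/(p^e-1)` (rational; `c_0 = 0`). -/
def c (p : ℤ) (e : ℕ) : ℚ := (e : ℚ) ^ 2 / ((p : ℚ) ^ e - 1)

/-- `h_k = ∑_{l=1}^k p^l (p^l+1)/(p^l-1)^3`. -/
def hh (p : ℤ) (k : ℕ) : ℚ :=
  ∑ l ∈ Icc 1 k, (p : ℚ) ^ l * ((p : ℚ) ^ l + 1) / ((p : ℚ) ^ l - 1) ^ 3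

/-- The entries with a free rational variable `z` in place of `zeta p`. -/
def Az (p : ℤ) (z : ℚ) (k J : ℕ) : ℚ :=
  (p : ℚ) ^ (k * J) * (z - hh p k) - ∑ e ∈ Icc 1 J, (p : ℚ) ^ (k * (J - e)) * c p e

/-- The matrix `(Az (k, M+j))`, `0 ≤ k, j < N`. -/
def AzM (p : ℤ) (z : ℚ) (M N : ℕ) : Matrix (Fin N) (Fin N) ℚ :=
  Matrix.of fun k j => Az p z (k : ℕ) (M + (j : ℕ))

/-- `c_e` as a real number. -/
noncomputable def cR (p : ℤ) (e : ℕ) : ℝ := (e : ℝ) ^ 2 / ((p : ℝ) ^ e - 1)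

/-- `zeta p = ∑_{e ≥ 1} e^2/(p^e-1)` (the term `e = 0` is zero). -/
noncomputable def zeta (p : ℤ) : ℝ := ∑' e : ℕ, cR p e

/-- `a(k,J) = ∑_{e ≥ 1} q^{k e} c_{e+J}`. -/
noncomputable def a (p : ℤ) (k J : ℕ) : ℝ :=
  ∑' e : ℕ, ((p : ℝ) ^ (k * (e + 1)))⁻¹ * cR p (e + 1 + J)

/-- The real matrix `(a(k, M+j))`, `0 ≤ k, j < N`. -/
noncomputable def A (p : ℤ) (M N : ℕ) : Matrix (Fin N) (Fin N) ℝ :=
  Matrix.of fun k j => a p (k : ℕ) (M + (j : ℕ))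

/-- `D_k = ∏_{i=1}^k Φ_i(p)`. -/
noncomputable def D (p : ℤ) (k : ℕ) : ℤ := ∏ i ∈ Icc 1 k, (Polynomial.cyclotomic i ℤ).eval p

/-- The product of all denominators. -/
noncomputable def DD (p : ℤ) (M N : ℕ) : ℤ :=
  (∏ k ∈ range N, D p k ^ 3) * ∏ j ∈ range N, D p (M + j)

/-- The subring of the rational numbers with denominator prime to `p`:
`x` with `n x = m` for some integers `n, m`, `n` coprime to `p`. -/
def RpS (p : ℤ) : Subring ℚ where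
  carrier := {x | ∃ n m : ℤ, IsCoprime n p ∧ (n : ℚ) * x = m}
  mul_mem' := by
    rintro x y ⟨n, m, hn, h⟩ ⟨n', m', hn', h'⟩
    refine ⟨n * n', m * m', hn.mul_left hn', ?_⟩
    push_cast
    rw [← h, ← h']; ring
  one_mem' := ⟨1, 1, isCoprime_one_left, by simp⟩
  add_mem' := by
    rintro x y ⟨n, m, hn, h⟩ ⟨n', m', hn', h'⟩
    refine ⟨n * n', m * n' + m' * n, hn.mul_left hn', ?_⟩
    push_cast
    rw [← h, ← h']; ring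
  zero_mem' := ⟨1, 0, isCoprime_one_left, by simp⟩
  neg_mem' := by
    rintro x ⟨n, m, hn, h⟩
    exact ⟨n, -m, hn, by push_cast; rw [← h]; ring⟩

theorem mem_RpS {p : ℤ} {x : ℚ} :
    x ∈ RpS p ↔ ∃ n m : ℤ, IsCoprime n p ∧ (n : ℚ) * x = m := Iff.rfl

theorem int_mem_RpS (p n : ℤ) : (n : ℚ) ∈ RpS p := ⟨1, n, isCoprime_one_left, by simp⟩

theorem inv_mem_RpS {p n : ℤ} (h : IsCoprime n p) (hn : n ≠ 0) : ((n : ℚ))⁻¹ ∈ RpS p :=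
  ⟨n, 1, h, by push_cast; exact mul_inv_cancel₀ (by exact_mod_cast hn)⟩

/-- `π_k = ∏_{l < N, l ≠ k} (p^l - p^k)` in a field. -/
def pik (𝕜 : Type) [Field 𝕜] (p : ℤ) (N k : ℕ) : 𝕜 :=
  ∏ l ∈ (range N).erase k, ((p : 𝕜) ^ l - (p : 𝕜) ^ k)

/-- The Vandermonde product `V = ∏_{i < l < N} (p^l - p^i)` in a commutative ring. -/
def VV (R : Type) [CommRing R] (p : ℤ) (N : ℕ) : R :=
  ∏ l ∈ range N, ∏ i ∈ range l, ((p : R) ^ l - (p : R) ^ i)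

/-- `Σ = ∑_{i < N} i (N-1-i)`. -/
def Sg (N : ℕ) : ℕ := ∑ i ∈ range N, i * (N - 1 - i)

/-! ### analytic part -/

/-- `x_t = q^t`. -/
noncomputable def xx (p : ℤ) (t : ℕ) : ℝ := ((p : ℝ) ^ t)⁻¹

/-- `X_t = x_t e^h`, a power series in `h`. -/
noncomputable def XX (p : ℤ) (t : ℕ) : PowerSeries ℝ :=
  PowerSeries.C (xx p t) * PowerSeries.exp ℝ

/-- `Q(X_t) = ∏_{k < N} (p^k - X_t)`. -/
noncomputable def QQ (p : ℤ) (N t : ℕ) : PowerSeries ℝ :=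
  ∏ k ∈ range N, (PowerSeries.C ((p : ℝ) ^ k) - XX p t)

/-- `κ_t(F) = 2 coeff_2 [X_t^{M+1} F(X_t) / Q(X_t)]`. -/
noncomputable def kap (p : ℤ) (M N t : ℕ) (F : Polynomial ℝ) : ℝ :=
  2 * PowerSeries.coeff 2 (XX p t ^ (M + 1) * Polynomial.aeval (XX p t) F * (QQ p N t)⁻¹)

/-- The bilinear form
`L(F,G) = ∑_k ∑_j F(p^k)/π_k · a(k,M+j) · G_j`. -/
noncomputable def LL (p : ℤ) (M N : ℕ) (F G : Polynomial ℝ) : ℝ :=
  ∑ k ∈ range N, ∑ j ∈ range N, F.eval ((p : ℝ) ^ k) / pik ℝ p N k * a p k (M + j) * G.coeff j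

/-- `E_a = ∏_{s=1}^a (T - x_s)`. -/
noncomputable def EE (p : ℤ) (a : ℕ) : Polynomial ℝ :=
  ∏ s ∈ Icc 1 a, (Polynomial.X - Polynomial.C (xx p s))

/-- `F_{(a,c)} = E_a^3 (T - x_{a+1})^c`. -/
noncomputable def FF (p : ℤ) (a c : ℕ) : Polynomial ℝ :=
  EE p a ^ 3 * (Polynomial.X - Polynomial.C (xx p (a + 1))) ^ c

/-- The seminorm `|f_0| + |f_1| + |f_2|`. -/
noncomputable def nu (f : PowerSeries ℝ) : ℝ :=
  |PowerSeries.coeff 0 f| + |PowerSeries.coeff 1 f| + |PowerSeries.coeff 2 f|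

/-- `e_a = |q|^{a(a+1)/2}`. -/
noncomputable def ea (p : ℤ) (a : ℕ) : ℝ := (|(p : ℝ)| ^ (a * (a + 1) / 2))⁻¹

/-- An explicit constant. -/
noncomputable def C3 : ℝ := 2 * 13 ^ 6 * (7 / 2) ^ 4 * 3 ^ 12

/-- `w = |q|^{N(N-1)/2}`. -/
noncomputable def ww (p : ℤ) (N : ℕ) : ℝ := (|(p : ℝ)| ^ (N * (N - 1) / 2))⁻¹

end Pool.Agent.H475.QZ
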