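import Pool.Agent.H475.QZ.Stm

/-!
Bound for `Q(X_t)⁻¹`.
-/

namespace Pool.Agent.H475.QZ

open Finset

namespace P_NUQ

theorem coeff0 (f g : PowerSeries ℝ) :
    PowerSeries.coeff 0 (f * g) = PowerSeries.coeff 0 f * PowerSeries.coeff 0 g := by
  rw [PowerSeries.coeff_mul, Finset.Nat.antidiagonal_zero, Finset.sum_singleton]

theorem coeff1 (f g : PowerSeries ℝ) :
    PowerSeries.coeff 1 (f * g) = PowerSeries.coeff 0 f * PowerSeries.coeff 1 g +
      PowerSeries.coeff 1 f * PowerSeries.coeff 0 g := by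
  rw [PowerSeries.coeff_mul, Finset.Nat.sum_antidiagonal_eq_sum_range_succ_mk]
  simp [Finset.sum_range_succ]

theorem coeff2 (f g : PowerSeries ℝ) :
    PowerSeries.coeff 2 (f * g) = PowerSeries.coeff 0 f * PowerSeries.coeff 2 g +
      PowerSeries.coeff 1 f * PowerSeries.coeff 1 g +
      PowerSeries.coeff 2 f * PowerSeries.coeff 0 g := by
  rw [PowerSeries.coeff_mul, Finset.Nat.sum_antidiagonal_eq_sum_range_succ_mk]
  simp [Finset.sum_range_succ]

/-- The factor `P - x e^h`. -/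
noncomputable def fac (P x : ℝ) : PowerSeries ℝ :=
  PowerSeries.C P - PowerSeries.C x * PowerSeries.exp ℝ

theorem fac0 (P x : ℝ) : PowerSeries.coeff 0 (fac P x) = P - x := by
  unfold fac
  simp

theorem fac1 (P x : ℝ) : PowerSeries.coeff 1 (fac P x) = -x := by
  unfold fac
  rw [map_sub, PowerSeries.coeff_C_mul, PowerSeries.coeff_exp, PowerSeries.coeff_C]
  simp

theorem fac2 (P x : ℝ) : PowerSeries.coeff 2 (fac P x) = -(x / 2) := by
  unfold fac
  rw [map_sub, PowerSeries.coeff_C_mul, PowerSeries.coeff_exp, PowerSeries.coeff_C]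
  norm_num [Nat.factorial]
  ring

/-- The bound for one factor. -/
theorem nu_fac_inv (P x u : ℝ) (hP : P ≠ 0) (hu : |x| = u * |P|) (hu2 : u ≤ 1 / 2) :
    nu (fac P x)⁻¹ ≤ |P|⁻¹ * (1 + 12 * u) := by
  have hPa : 0 < |P| := abs_pos.2 hP
  have hu0 : 0 ≤ u := by
    by_contra hcon
    push Not at hcon
    have : u * |P| < 0 := mul_neg_of_neg_of_pos hcon hPa
    have := abs_nonneg x
    linarith
  have hPx : 0 < |P - x| := by
    have h1 : |P| - |x| ≤ |P - x| := abs_sub_abs_le_abs_sub P x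
    have h2 : u * |P| ≤ 1 / 2 * |P| := mul_le_mul_of_nonneg_right hu2 hPa.le
    linarith
  have hne : P - x ≠ 0 := abs_pos.1 hPx
  set g := (fac P x)⁻¹ with hg
  have hcc : PowerSeries.constantCoeff (fac P x) ≠ 0 := by
    rw [← PowerSeries.coeff_zero_eq_constantCoeff_apply, fac0]
    exact hne
  have hmul : fac P x * g = 1 := PowerSeries.mul_inv_cancel _ hcc
  have e0 : (P - x) * PowerSeries.coeff 0 g = 1 := by
    have := congrArg (PowerSeries.coeff 0) hmul
    rw [coeff0, fac0] at this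
    rw [this]
    simp
  have e1 : (P - x) * PowerSeries.coeff 1 g = x * PowerSeries.coeff 0 g := by
    have := congrArg (PowerSeries.coeff 1) hmul
    rw [coeff1, fac0, fac1, PowerSeries.coeff_one, if_neg (by norm_num)] at this
    linarith
  have e2 : (P - x) * PowerSeries.coeff 2 g =
      x * PowerSeries.coeff 1 g + x / 2 * PowerSeries.coeff 0 g := by
    have := congrArg (PowerSeries.coeff 2) hmul
    rw [coeff2, fac0, fac1, fac2, PowerSeries.coeff_one, if_neg (by norm_num)] at this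
    linarith
  -- absolute values
  set A0 := |PowerSeries.coeff 0 g| with hA0
  set A1 := |PowerSeries.coeff 1 g| with hA1
  set A2 := |PowerSeries.coeff 2 g| with hA2
  have a0 : |P - x| * A0 = 1 := by rw [hA0, ← abs_mul, e0, abs_one]
  have a1 : |P - x| * A1 = |x| * A0 := by rw [hA1, hA0, ← abs_mul, e1, abs_mul]
  have a2 : |P - x| * A2 ≤ |x| * A1 + |x| / 2 * A0 := by
    rw [hA2, hA1, hA0, ← abs_mul, e2]
    refine (abs_add_le _ _).trans ?_
    rw [abs_mul, abs_mul, abs_div, abs_two]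
  have n0 : 0 ≤ A0 := abs_nonneg _
  have n1 : 0 ≤ A1 := abs_nonneg _
  have n2 : 0 ≤ A2 := abs_nonneg _
  have hlow : (1 - u) * |P| ≤ |P - x| := by
    have h1 : |P| - |x| ≤ |P - x| := abs_sub_abs_le_abs_sub P x
    rw [hu] at h1
    linarith
  -- B_i = |P| A_i
  set B0 := |P| * A0 with hB0
  set B1 := |P| * A1 with hB1
  set B2 := |P| * A2 with hB2
  have b0 : (1 - u) * B0 ≤ 1 := by
    have := mul_le_mul_of_nonneg_right hlow n0
    rw [a0] at this
    rw [hB0]
    linarith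
  have b1 : (1 - u) * B1 ≤ u * B0 := by
    have := mul_le_mul_of_nonneg_right hlow n1
    rw [a1, hu] at this
    rw [hB1, hB0]
    linarith
  have b2 : (1 - u) * B2 ≤ u * B1 + u / 2 * B0 := by
    have := (mul_le_mul_of_nonneg_right hlow n2).trans a2
    rw [hu] at this
    rw [hB1, hB0, hB2]
    nlinarith
  have m0 : 0 ≤ B0 := mul_nonneg hPa.le n0
  have m1 : 0 ≤ B1 := mul_nonneg hPa.le n1
  have m2 : 0 ≤ B2 := mul_nonneg hPa.le n2
  have c0 : B0 ≤ 1 + 2 * u := by
    have : (1 - u) * B0 ≤ (1 - u) * (1 + 2 * u) := by nlinarith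
    exact le_of_mul_le_mul_left this (by linarith)
  have c0' : B0 ≤ 2 := by linarith
  have c1 : B1 ≤ 4 * u := by
    have h1 : u * B0 ≤ u * 2 := mul_le_mul_of_nonneg_left c0' hu0
    have : (1 - u) * B1 ≤ (1 - u) * (4 * u) := by nlinarith
    exact le_of_mul_le_mul_left this (by linarith)
  have c2 : B2 ≤ 6 * u := by
    have h1 : u / 2 * B0 ≤ u / 2 * 2 := mul_le_mul_of_nonneg_left c0' (by linarith)
    have h2 : u * B1 ≤ u * (4 * u) := mul_le_mul_of_nonneg_left c1 hu0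
    have : (1 - u) * B2 ≤ (1 - u) * (6 * u) := by nlinarith
    exact le_of_mul_le_mul_left this (by linarith)
  have hnu : nu g = A0 + A1 + A2 := rfl
  rw [hnu, inv_mul_eq_div, le_div_iff₀ hPa]
  have : (A0 + A1 + A2) * |P| = B0 + B1 + B2 := by rw [hB0, hB1, hB2]; ring
  rw [this]
  linarith

theorem prod_inv (s : Finset ℕ) (f : ℕ → PowerSeries ℝ) :
    (∏ i ∈ s, f i)⁻¹ = ∏ i ∈ s, (f i)⁻¹ := by
  induction s using Finset.induction_on with
  | empty => simp
  | insert i s hi ih =>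
    rw [Finset.prod_insert hi, Finset.prod_insert hi, PowerSeries.mul_inv_rev, ih, mul_comm]

theorem prod_one_add_le (N : ℕ) (u : ℕ → ℝ) (hu : ∀ k, 0 ≤ u k) :
    ∏ k ∈ range N, (1 + u k) ≤ Real.exp (∑ k ∈ range N, u k) := by
  rw [Real.exp_sum]
  refine Finset.prod_le_prod (fun k _ => by have := hu k; linarith) fun k _ => ?_
  have := Real.add_one_le_exp (u k)
  linarith

theorem geom_bound (N : ℕ) : ∑ k ∈ range N, (1 / 2 : ℝ) ^ (k + 1) ≤ 1 := by
  have h : ∀ n : ℕ, ∑ k ∈ range n, (1 / 2 : ℝ) ^ (k + 1) = 1 - (1 / 2) ^ n := by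
    intro n
    induction n with
    | zero => simp
    | succ n ih => rw [sum_range_succ, ih, pow_succ]; ring
  rw [h]
  have : (0 : ℝ) ≤ (1 / 2) ^ N := by positivity
  linarith

end P_NUQ

theorem t_NUQ (hNU : S_NU) : S_NUQ := by
  intro p hp N t ht
  obtain ⟨hnn, -, -, -, hprod, -, -⟩ := hNU
  have hpR : (2 : ℝ) ≤ |(p : ℝ)| := by exact_mod_cast hp
  have hpos : (0 : ℝ) < |(p : ℝ)| := by linarith
  have hp0 : (p : ℝ) ≠ 0 := abs_pos.1 hpos
  have hQ : (QQ p N t)⁻¹ = ∏ k ∈ range N, (P_NUQ.fac ((p : ℝ) ^ k) (xx p t))⁻¹ := by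
    unfold QQ XX
    rw [P_NUQ.prod_inv]
    rfl
  rw [hQ]
  refine (hprod _ _).trans ?_
  have hfac : ∀ k ∈ range N, nu (P_NUQ.fac ((p : ℝ) ^ k) (xx p t))⁻¹ ≤
      (|(p : ℝ)| ^ k)⁻¹ * (1 + 12 * (1 / 2) ^ (k + 1)) := by
    intro k _
    have hPk : ((p : ℝ) ^ k) ≠ 0 := pow_ne_zero _ hp0
    set u : ℝ := (|(p : ℝ)| ^ (t + k))⁻¹ with hu
    have hu1 : u ≤ (1 / 2) ^ (k + 1) := by
      rw [hu, one_div, inv_pow]
      refine inv_anti₀ (by positivity) ?_
      calc (2 : ℝ) ^ (k + 1) ≤ |(p : ℝ)| ^ (k + 1) := pow_le_pow_left₀ (by norm_num) hpR _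
        _ ≤ |(p : ℝ)| ^ (t + k) := pow_le_pow_right₀ (by linarith) (by omega)
    have hu2 : u ≤ 1 / 2 := by
      refine hu1.trans ?_
      rw [pow_succ]
      have : (1 / 2 : ℝ) ^ k ≤ 1 := pow_le_one₀ (by norm_num) (by norm_num)
      linarith
    have h := P_NUQ.nu_fac_inv ((p : ℝ) ^ k) (xx p t) u hPk (by
      unfold xx
      rw [hu, abs_inv, abs_pow, abs_pow, pow_add, mul_inv, mul_assoc,
        inv_mul_cancel₀ (pow_ne_zero _ hpos.ne'), mul_one]) hu2
    refine h.trans ?_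
    rw [abs_pow]
    refine mul_le_mul_of_nonneg_left ?_ (by positivity)
    linarith
  refine (Finset.prod_le_prod (fun k _ => hnn _) hfac).trans ?_
  rw [Finset.prod_mul_distrib]
  have hw : ∏ k ∈ range N, (|(p : ℝ)| ^ k)⁻¹ = ww p N := by
    unfold ww
    rw [Finset.prod_inv_distrib, Finset.prod_pow_eq_pow_sum, Finset.sum_range_id]
  rw [hw, mul_comm]
  refine mul_le_mul_of_nonneg_right ?_ (by unfold ww; positivity)
  refine (P_NUQ.prod_one_add_le N (fun k => 12 * (1 / 2) ^ (k + 1)) (fun k => by positivity)).trans ?_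
  rw [← Finset.mul_sum]
  have h12 : Real.exp (12 * ∑ k ∈ range N, (1 / 2 : ℝ) ^ (k + 1)) ≤ Real.exp (12 * 1) :=
    Real.exp_le_exp.2 (mul_le_mul_of_nonneg_left (P_NUQ.geom_bound N) (by norm_num))
  refine h12.trans ?_
  have h3 : Real.exp 1 ≤ 3 := by
    have := Real.exp_one_lt_d9
    linarith
  calc Real.exp (12 * 1) = Real.exp 1 ^ 12 := by
        rw [← Real.exp_nat_mul]
        norm_num
    _ ≤ 3 ^ 12 := pow_le_pow_left₀ (Real.exp_pos _).le h3 _

end Pool.Agent.H475.QZ
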