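import Pool.Agent.H475.QZ.Stm

/-! Crude bound of a determinant (`S_DU`). -/

set_option autoImplicit false

namespace Pool.Agent.H475.QZ

open Finset

theorem t_DU : S_DU := by
  intro N T B r hB hr hT
  have h1 : ∀ σ : Equiv.Perm (Fin N), |∏ i, T (σ i) i| ≤ B ^ N * ∏ i, r i ^ 2 := by
    intro σ
    rw [Finset.abs_prod]
    have h2 : ∏ i, |T (σ i) i| ≤ ∏ i, B * r (σ i) * r i :=
      Finset.prod_le_prod (fun i _ => abs_nonneg _) fun i _ => hT (σ i) i
    refine h2.trans (le_of_eq ?_)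
    rw [Finset.prod_mul_distrib, Finset.prod_mul_distrib, Finset.prod_const, Finset.card_univ,
      Fintype.card_fin, Equiv.prod_comp σ r, mul_assoc, ← Finset.prod_mul_distrib]
    refine congrArg (B ^ N * ·) (Finset.prod_congr rfl fun i _ => ?_)
    rw [sq]
  rw [Matrix.det_apply]
  refine (Finset.abs_sum_le_sum_abs _ _).trans ?_
  have h3 : ∀ σ ∈ (univ : Finset (Equiv.Perm (Fin N))),
      |Equiv.Perm.sign σ • ∏ i, T (σ i) i| ≤ B ^ N * ∏ i, r i ^ 2 := by
    intro σ _
    have h4 : |Equiv.Perm.sign σ • ∏ i, T (σ i) i| = |∏ i, T (σ i) i| := by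
      rw [Units.smul_def, zsmul_eq_mul, abs_mul]
      rcases Int.units_eq_one_or (Equiv.Perm.sign σ) with h | h
      · rw [h, Units.val_one, Int.cast_one, abs_one, one_mul]
      · rw [h, Units.val_neg, Units.val_one, Int.cast_neg, Int.cast_one, abs_neg, abs_one, one_mul]
    rw [h4]
    exact h1 σ
  refine (Finset.sum_le_card_nsmul _ _ _ h3).trans (le_of_eq ?_)
  rw [Finset.card_univ, Fintype.card_perm, Fintype.card_fin, nsmul_eq_mul, mul_assoc]

end Pool.Agent.H475.QZ
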