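import Pool.Agent.H475.QZ.Defs

/-!
Statements (with complete paper proofs in the docstrings) for the q-analogue of the
theorem of Apery: `∑ σ_2(n)/p^n` is irrational for every integer `p`, `|p| ≥ 2`.
Notation in the docstrings: `q = 1/p`, `N` the size of the matrix.
-/

namespace Pool.Agent.H475.QZ

open Finset Polynomial

/-! ## A. series and arithmetic -/

/-- Summability.
Proof. For `n ≥ 1`, `|p^n - 1| ≥ |p|^n - 1 ≥ |p|^n/2 ≥ 2^n/2`, so `|cR p n| ≤ 2 n^2 (1/2)^n`, and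
`|(p^(k(e+1)))⁻¹| ≤ 1`. So the absolute value of the term is at most
`2 (e+1+J)^2 (1/2)^(e+1+J)`, which is summable (`summable_pow_mul_geometric_of_norm_lt_one`,
`summable_nat_add_iff`). For the second claim the term `e = 0` is `0`. -/
def S_SUM : Prop := ∀ p : ℤ, 2 ≤ |p| →
  (∀ k J : ℕ, Summable (fun e : ℕ => ((p : ℝ) ^ (k * (e + 1)))⁻¹ * cR p (e + 1 + J))) ∧
  Summable (cR p)

/-- Closed form of `a(k,J)`.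
Proof. Put `b_k = ∑_{e ≥ 1} q^(ke) c_e` (all series converge absolutely by `S_SUM`).
`b_0 = ζ` (the term `e=0` of `zeta` is `0`). Since `q^(ke)(1 - q^e) c_e = q^(ke) q^e e^2 =
e^2 y^e` with `y = q^(k+1)`, we get
`b_k - b_(k+1) = ∑_{e≥1} e^2 y^e = y(1+y)/(1-y)^3 = P(P+1)/(P-1)^3`, `P = p^(k+1)`
(`∑ e y^e = y/(1-y)^2` is `tsum_coe_mul_geometric_of_norm_lt_one`; for `e^2` write
`e^2 = 2 (e+2 choose 2) - 3 (e+1 choose 1) + 1` and use `tsum_choose_mul_geometric_of_norm_lt_one`,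
or any other way). So `b_k = ζ - h_k` by induction on `k`. Finally
`a(k,J) = ∑_{e ≥ 1} q^(ke) c_(e+J) = p^(kJ) ∑_{e ≥ 1} q^(k(e+J)) c_(e+J)
 = p^(kJ) (b_k - ∑_{e=1}^J q^(ke) c_e) = p^(kJ) (ζ - h_k) - ∑_{e=1}^J p^(k(J-e)) c_e`. -/
def S_CF : Prop := ∀ p : ℤ, 2 ≤ |p| → ∀ k J : ℕ,
  a p k J = (p : ℝ) ^ (k * J) * (zeta p - ((hh p k : ℚ) : ℝ))
    - ∑ e ∈ Icc 1 J, (p : ℝ) ^ (k * (J - e)) * ((c p e : ℚ) : ℝ)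

/-- `ζ = ∑ σ_2(n)/p^n`.
Proof. With `q = 1/p`, `|q| ≤ 1/2`: for `e ≥ 1`, `e^2/(p^e-1) = e^2 q^e/(1-q^e) =
∑_{d ≥ 1} e^2 q^(d e)`. Mathlib: `tsum_prod_pow_eq_tsum_sigma`
(`Mathlib/NumberTheory/TsumDivisorsAntidiagonal.lean`), sums over `ℕ+`; convert sums over `ℕ+`
into sums over `ℕ` (`tsum_pnat_eq_tsum_succ`, and the terms at `0` vanish: `σ_2(0) = 0`,
`cR p 0 = 0`). The double series is absolutely summable so the order of summation is free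
(see also `summable_prod_mul_pow` in that file). -/
def S_SIG : Prop := ∀ p : ℤ, 2 ≤ |p| →
  zeta p = ∑' n : ℕ, (ArithmeticFunction.sigma 2 n : ℝ) / (p : ℝ) ^ n

/-- `(p^e - 1) ∣ D_k` for `1 ≤ e ≤ k`.
Proof. `p^e - 1 = ∏_{d ∣ e} Φ_d(p)` (`Polynomial.prod_cyclotomic_eq_X_pow_sub_one`, evaluated at
`p`) and `e.divisors ⊆ Icc 1 k` (`Finset.prod_dvd_prod_of_subset`). -/
def S_B1 : Prop := ∀ (p : ℤ) (k e : ℕ), 1 ≤ e → e ≤ k → (p ^ e - 1) ∣ D p k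

/-- Integrality of the determinant.
Proof. By `S_B1`, for `l ≤ k` the number `D_k^3/(p^l-1)^3` is an integer, so `D_k^3 h_k ∈ ℤ`
(`p^l - 1 ≠ 0` for `l ≥ 1` as `|p| ≥ 2`), and for `1 ≤ e ≤ J` the number `D_J c_e` is an integer.
Hence `b D_k^3 D_J Az(k,J) ∈ ℤ` if `b z = m ∈ ℤ`. The matrix with the entries
`b D_k^3 D_(M+j) Az(k,M+j)` has determinant `b^N (∏ D_k^3)(∏ D_(M+j)) det(Az)`
(`Matrix.det_mul_row`, `Matrix.det_mul_column`, `Matrix.det_smul`), and it is the image of an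
integer matrix (`Int.cast_det` or `RingHom.map_det`). -/
def S_INT : Prop := ∀ p : ℤ, 2 ≤ |p| → ∀ (z : ℚ) (b m : ℤ), (b : ℚ) * z = m → ∀ M N : ℕ,
  ∃ X : ℤ, (X : ℚ) = (b : ℚ) ^ N * (AzM p z M N).det * (DD p M N : ℚ)

/-- The numbers `H_r = ∑_k p^(kr)/π_k` are integers.
Proof. `N = 0`: the sum is `0`. Let `N ≥ 1`, let `W = ∏_{k<N} (X - C (p^k)) ∈ ℤ[X]` (monic) and
`P = X^r %ₘ W`, of degree `< N`. Then `P(p^k) = p^(kr)` for `k < N`. By `Lagrange.coeff_eq_sum`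
(for the image of `P` in `ℚ[X]`, `v k = p^k`, injective on `range N` since `|p| ≥ 2`),
`P.coeff (N-1) = ∑_k p^(kr)/∏_{l≠k} (p^k - p^l)`, and
`π_k = ∏_{l ≠ k} (p^l - p^k) = (-1)^(N-1) ∏_{l≠k} (p^k - p^l)`. So `H_r = ± P.coeff (N-1) ∈ ℤ`. -/
def S_HR : Prop := ∀ p : ℤ, 2 ≤ |p| → ∀ N r : ℕ, ∃ n : ℤ,
  ∑ k ∈ range N, (p : ℚ) ^ (k * r) / pik ℚ p N k = n

/-- `∑_k p^(kd) h_k/π_k` has denominator prime to `p`.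
Proof. Let `F` be large (`F + 1 ≥ N^2`). For every `y`:
`(1-y)^3 ∑_{f=1}^F f^2 y^f = y(1+y) - y^(F+1) w(y)`, with
`w(y) = (F+1)^2 - (2F^2+2F-1) y + F^2 y^2` (induction on `F`). So for `y = p^l`, `l ≥ 1`:
`y(y+1)/(y-1)^3 = -∑_{f=1}^F f^2 y^f + y^(F+1) w(y)/(y-1)^3`. Summing over `1 ≤ l ≤ k` with
`∑_{l=1}^k p^(lf) = p^f (p^(kf) - 1)/(p^f-1)`:
`h_k = -∑_{f=1}^F f^2 p^f (p^(kf)-1)/(p^f-1) + ∑_{l=1}^k p^(l(F+1)) w(p^l)/(p^l-1)^3`.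
Hence `∑_k p^(kd) h_k/π_k = -∑_{f=1}^F f^2 p^f/(p^f-1) (H_(d+f) - H_d)
 + ∑_k p^(kd) (p^(F+1)/π_k) ∑_{l=1}^k p^((l-1)(F+1)) w(p^l)/(p^l-1)^3`.
The first sum is in `RpS p` by `S_HR` and because `p^f - 1` is coprime to `p`
(`inv_mem_RpS`). In the second, `1/(p^l-1)^3 ∈ RpS p` for `l ≥ 1`, and `p^(F+1)/π_k ∈ RpS p`
because for `k < N`: `π_k = ∏_{l<k} p^l (1 - p^(k-l)) ∏_{k<l<N} p^k (p^(l-k) - 1)`, so that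
`p^N/(p^l-p^k) ∈ RpS p` for each of the `N-1` factors, so `p^(N(N-1))/π_k ∈ RpS p`, and
`F + 1 ≥ N^2`. -/
def S_HS : Prop := ∀ p : ℤ, 2 ≤ |p| → ∀ N d : ℕ,
  ∑ k ∈ range N, (p : ℚ) ^ (k * d) * hh p k / pik ℚ p N k ∈ RpS p

/-- The determinant identity (used over `ℚ` and over `ℝ`).
Proof. The matrix on the right is `B₁ * B * C₁` with `B₁ i k = F_i(p^k)/π_k`,
`C₁ l j = coeff_l G_j`. `det C₁ = 1` (upper triangular with `1` on the diagonal, see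
`Matrix.det_matrixOfPolynomials`). `det B₁ = (∏_k π_k)⁻¹ det (F_i(p^k))` and
`det (F_i(p^k)) = det vandermonde (p^k) = ∏_{i<j} (p^j - p^i) = V` up to transposition
(`Matrix.det_eval_matrixOfPolynomials_eq_det_vandermonde`, `Matrix.det_vandermonde`). Finally
`|∏_k π_k| = ∏_k ∏_{l ≠ k} |p^l - p^k| = ∏_{i<l} |p^l - p^i|^2 = |V|^2` and `V ≠ 0` because
`|p| ≥ 2`. So `|det (B₁ B C₁)| = |V|⁻¹ |det B|`. -/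
def S_DET : Prop := ∀ (𝕜 : Type) [Field 𝕜] [LinearOrder 𝕜] [IsStrictOrderedRing 𝕜] (p : ℤ),
  2 ≤ |p| → ∀ (N : ℕ) (B : Matrix (Fin N) (Fin N) 𝕜) (F G : Fin N → Polynomial 𝕜),
  (∀ i, (F i).Monic ∧ (F i).natDegree = i) → (∀ i, (G i).Monic ∧ (G i).natDegree = i) →
  |B.det| = |VV 𝕜 p N| *
    |(Matrix.of fun i j : Fin N => ∑ k : Fin N, ∑ l : Fin N,
      (F i).eval ((p : 𝕜) ^ (k : ℕ)) / pik 𝕜 p N k * B k l * (G j).coeff l).det|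

/-- The `p`-adic gain.
Proof. Apply `S_DET` over `ℚ` with `F_i = G_i = X^i`, `B = AzM p z M N`:
`|det AzM| = |V| |det S|`, `S_ij = ∑_k p^(ki)/π_k · Az(k,M+j)`. By the definition of `Az`, with
`d = i+M+j`: `b S_ij = m H_d - b ∑_k p^(kd) h_k/π_k - b ∑_{e=1}^{M+j} c_e H_(d-e)`, which is in
`RpS p` by `S_HR`, `S_HS`, and `c_e = e^2/(p^e-1) ∈ RpS p`. So
`b^N det S = det (b S) ∈ RpS p` (e.g. `Matrix.det_apply` and `sum_mem`, `prod_mem`). And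
`V = ∏_{i<l} p^i (p^(l-i)-1) = p^Σ U` with `U ∈ ℤ`, `Σ = ∑_{i<l<N} i = ∑_{i<N} i(N-1-i)`.
So `b^N det AzM/p^Σ = ± U b^N det S ∈ RpS p`. -/
def S_CP : Prop := ∀ p : ℤ, 2 ≤ |p| → ∀ (z : ℚ) (b m : ℤ), (b : ℚ) * z = m → ∀ M N : ℕ,
  (b : ℚ) ^ N * (AzM p z M N).det / (p : ℚ) ^ Sg N ∈ RpS p

/-! ## D. size of the denominators -/

/-- `|Φ_n(p)| ≤ 4 |p|^φ(n)`.
Proof. Work in `ℝ`, `q = 1/p`. Put `f(n) = Φ_n(p)/p^φ(n)`. Since `∏_{d∣n} Φ_d(p) = p^n - 1` and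
`∑_{d∣n} φ(d) = n`, `∏_{d∣n} f(d) = 1 - q^n =: g(n) ≠ 0`. Moebius inversion
(`ArithmeticFunction.prod_eq_iff_prod_pow_moebius_eq_of_nonzero`):
`f(n) = ∏_{(d,e) : de = n} g(e)^μ(d)`, so
`|f(n)| ≤ ∏_{e ∣ n} max(|g(e)|, |g(e)|⁻¹) ≤ ∏_{e∣n} (1-2^(-e))⁻¹ ≤ ∏_{e=1}^n (1-2^(-e))⁻¹ ≤ 4`,
because `1-2^(-e) ≤ |g(e)| ≤ 1+2^(-e) ≤ (1-2^(-e))⁻¹`, and
`∏_{e=1}^n (1-2^(-e)) ≥ 1/4 + 2^(-(n+1))` for `n ≥ 1` by induction. -/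
def S_PHI : Prop := ∀ (p : ℤ) (n : ℕ), 2 ≤ |p| → 1 ≤ n →
  |(Polynomial.cyclotomic n ℤ).eval p| ≤ 4 * |p| ^ (Nat.totient n)

/-- `25 ∑_{i ≤ k} φ(i) ≤ 8 (k+30)(k+60)`.
Proof. For `i ≥ 1` and `g = gcd(i,30)`: `φ(i) g ≤ i φ(g)` (as `φ(i)/i = ∏_{r ∣ i} (1-1/r) ≤
∏_{r ∣ g} (1-1/r) = φ(g)/g`; e.g. from `Nat.totient_mul_prod_primeFactors`, or from
`Nat.totient_gcd_mul_totient_mul`, or by counting: the integers `< i` coprime to `i` are coprime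
to `g`, and exactly `(i/g) φ(g)` integers `< i` are coprime to `g`). Multiply by `30/g`:
`30 φ(i) ≤ i W(i mod 30)`, `W(r) = 30 φ(gcd(r,30))/gcd(r,30)`, an integer, and
`∑_{r=1}^{30} W(r) = 576`. Let `K' = ⌈k/30⌉`. Then
`30 ∑_{i ≤ k} φ(i) ≤ ∑_{m<K'} ∑_{r=1}^{30} (30m+r) W(r) ≤ ∑_{m<K'} 30(m+1) 576
 = 30·576·K'(K'+1)/2`, so `∑_{i≤k} φ(i) ≤ 288 K'(K'+1)`, and `30 K' ≤ k+30`,
`30 (K'+1) ≤ k+60` gives `25 · 288 K'(K'+1) = 8 · 900 K'(K'+1) ≤ 8 (k+30)(k+60)`. -/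
def S_TOT : Prop := ∀ k : ℕ, 25 * ∑ i ∈ Icc 1 k, Nat.totient i ≤ 8 * (k + 30) * (k + 60)

/-- Bound for `D_k`.
Proof. `|D_k| ≤ ∏_{i=1}^k 4 |p|^φ(i) ≤ |p|^(2k + ∑ φ(i))` by `S_PHI` and `4 ≤ |p|^2`; take the
power `25` and use `S_TOT`. -/
def S_DK : Prop := ∀ p : ℤ, 2 ≤ |p| → ∀ k : ℕ,
  |D p k| ^ 25 ≤ |p| ^ (50 * k + 8 * (k + 30) * (k + 60))

/-- Bound for the product of all denominators, `N = 3K`.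
Proof. By `S_DK`, the exponent of `|p|` for `|DD|^25` is at most
`∑_{k<N} 3(50k + 8(k+30)(k+60)) + ∑_{j<N} (50(M+j) + 8(M+j+30)(M+j+60))`, where
`∑_{k<N} 24 k^2 ≤ 8 N^3`, `∑_{j<N} 8 j^2 ≤ 8 N^3/3`, and the rest is `≤ C_M N^2`; in total
`(32/3) N^3 + C_M N^2 = 288 K^3 + 9 C_M K^2`. (E.g. show by induction on `N` that
`3·(exponent) ≤ 32 N^3 + C N^2` for `C` large depending on `M`, `N ≥ 1`.) -/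
def S_DDB : Prop := ∀ p : ℤ, 2 ≤ |p| → ∀ M : ℕ, ∃ C : ℕ, ∀ K : ℕ, 1 ≤ K →
  |DD p M (3 * K)| ^ 25 ≤ |p| ^ (288 * K ^ 3 + C * K ^ 2)

/-! ## E. analytic part -/

/-- Properties of the seminorm `nu`.
Proof. `coeff 0 (fg) = f0 g0`, `coeff 1 (fg) = f0 g1 + f1 g0`,
`coeff 2 (fg) = f0 g2 + f1 g1 + f2 g0` (`PowerSeries.coeff_mul`, antidiagonals of 0, 1, 2). -/
def S_NU : Prop := (∀ f, 0 ≤ nu f) ∧ nu 1 = 1 ∧ (∀ f g, nu (f * g) ≤ nu f * nu g) ∧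
  (∀ f, |PowerSeries.coeff 2 f| ≤ nu f) ∧
  (∀ (s : Finset ℕ) (f : ℕ → PowerSeries ℝ), nu (∏ i ∈ s, f i) ≤ ∏ i ∈ s, nu (f i)) ∧
  (∀ f (n : ℕ), nu (f ^ n) ≤ nu f ^ n) ∧
  (∀ (b : ℝ) f, nu (PowerSeries.C b * f) = |b| * nu f)

/-- The kernel identity.
Proof. Put `E = exp`, `y = x/P`, `|y| ≤ 1/2`, `r = 1/(1-y)`, `m = J+1`.
`E^m` has the coefficients `1, m, m^2/2` (`PowerSeries.exp_pow_eq_rescale_exp`),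
`(C P - C x E)⁻¹ = C P⁻¹ (1 - C y E)⁻¹` and `(1 - C y E)⁻¹` has the coefficients
`r, y r^2, y r^2/2 + y^2 r^3` (check `(1-y) r = 1`, `(1-y) y r^2 - y r = 0`,
`(1-y)(y r^2/2 + y^2 r^3) - y·y r^2 - (y/2) r = 0`). So the left side is
`P⁻¹ x^m (m^2 r + 2 m y r^2 + y r^2 + 2 y^2 r^3) = P⁻¹ x^m (m^2 r + 2m y r^2 + y(1+y) r^3)`.
The right side is `P⁻¹ x^m ∑_{n ≥ 0} y^n (n+m)^2 = P⁻¹ x^m (∑ n^2 y^n + 2m ∑ n y^n + m^2 ∑ y^n)`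
and `∑ n^2 y^n = y(1+y) r^3`, `∑ n y^n = y r^2`, `∑ y^n = r`. -/
def S_KER : Prop := ∀ x P : ℝ, |x| ≤ 1 / 2 → 1 ≤ |P| → ∀ J : ℕ,
  2 * PowerSeries.coeff 2 ((PowerSeries.C x * PowerSeries.exp ℝ) ^ (J + 1) *
    (PowerSeries.C P - PowerSeries.C x * PowerSeries.exp ℝ)⁻¹) =
  ∑' e : ℕ, (P ^ (e + 1))⁻¹ * ((e + 1 + J : ℕ) : ℝ) ^ 2 * x ^ (e + 1 + J)

/-- Series for `a(k,J)`.
Proof. For `n ≥ 1`: `c_n = n^2/(p^n-1) = ∑_{t ≥ 0} n^2 (q^(t+1))^n`. So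
`a(k,J) = ∑_e ∑_t f(e,t)`, `f(e,t) = (p^(k(e+1)))⁻¹ (e+1+J)^2 (xx p (t+1))^(e+1+J)`. Here
`|f(e,t)| ≤ (e+1+J)^2 2^(-(t+1)(e+1+J)) ≤ (e+1+J)^2 2^(-(e+1+J)) 2^(-t)` because
`(t+1) n ≥ t + n` for `n ≥ 1`; so `f` is summable on `ℕ × ℕ`, and the sums may be exchanged:
`HasSum (fun t => ∑'_e f(e,t)) (a(k,J))` (e.g. `Summable.tsum_comm`, `HasSum.prod_fiberwise`).
By `S_KER` with `x = xx p (t+1)`, `P = p^k`, the inner sum is the stated term. -/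
def S_ASER : Prop := ∀ p : ℤ, 2 ≤ |p| → ∀ k J : ℕ,
  HasSum (fun t : ℕ => 2 * PowerSeries.coeff 2 (XX p (t + 1) ^ (J + 1) *
    (PowerSeries.C ((p : ℝ) ^ k) - XX p (t + 1))⁻¹)) (a p k J)

/-- Lagrange interpolation at the power series `X_t`.
Proof. Polynomial identity in `ℝ[T]` for `deg F < N` (`Lagrange.eq_interpolate` or the fact that
both sides have degree `< N` and agree at the `N` points `p^k`):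
`F = ∑_k C (F(p^k)/π_k) ∏_{l ≠ k} (C (p^l) - T)`. Apply `aeval (XX p t)` and multiply by
`Q⁻¹ = ∏_l (C (p^l) - X_t)⁻¹`; each factor `C (p^l) - X_t` is invertible, its constant
coefficient `p^l - x_t` being nonzero as `|x_t| < 1 ≤ |p^l|` (`PowerSeries.mul_inv_cancel`). -/
def S_LAG : Prop := ∀ p : ℤ, 2 ≤ |p| → ∀ N t : ℕ, 1 ≤ t → ∀ F : Polynomial ℝ,
  F.natDegree < N →
  ∑ k ∈ range N, PowerSeries.C (F.eval ((p : ℝ) ^ k) / pik ℝ p N k) *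
    (PowerSeries.C ((p : ℝ) ^ k) - XX p t)⁻¹ = Polynomial.aeval (XX p t) F * (QQ p N t)⁻¹

/-- Series for `L(F,G)`.
Proof. By `S_ASER` the finite linear combination `L(F,G)` is the sum over `t` of
`∑_k ∑_j F(p^k)/π_k · 2 coeff_2 [X^(M+j+1) (C p^k - X)⁻¹] · G_j
 = 2 coeff_2 [X^(M+1) (∑_j C G_j X^j) (∑_k C (F(p^k)/π_k) (C p^k - X)⁻¹)]`, `X = XX p (t+1)`;
`∑_{j<N} C G_j X^j = aeval X G` as `deg G < N`, and the last bracket is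
`aeval X F * Q⁻¹` by `S_LAG`. -/
def S_HLL : Prop := ∀ p : ℤ, 2 ≤ |p| → ∀ (M N : ℕ) (F G : Polynomial ℝ),
  F.natDegree < N → G.natDegree < N →
  HasSum (fun t : ℕ => kap p M N (t + 1) (F * G)) (LL p M N F G)

/-- Vanishing.
Proof. `aeval X_t (T - C x_t) = X_t - C x_t` has constant coefficient `0`, so it is divisible by
`PowerSeries.X`, its cube by `X^3`, and the coefficient `2` of a multiple of `X^3` is `0`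
(`PowerSeries.X_pow_dvd_iff`). -/
def S_VAN : Prop := ∀ (p : ℤ) (M N t : ℕ) (F : Polynomial ℝ),
  (Polynomial.X - Polynomial.C (xx p t)) ^ 3 ∣ F → kap p M N t F = 0

/-- Bounds for `X_t - x_s` and `X_t^m`.
Proof. `X_t - x_s` has the coefficients `x_t - x_s, x_t, x_t/2`, so
`ν ≤ |x_s| + (5/2)|x_t|` and `|x_t| = |x_s| |q|^(t-s) ≤ |x_s| (1/2)^(t-s)`. `X_t^m = x_t^m e^(mh)`
has the coefficients `x_t^m (1, m, m^2/2)` and `1+m+m^2/2 ≤ (m+1)^2`. -/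
def S_NUX : Prop := ∀ p : ℤ, 2 ≤ |p| →
  (∀ s t : ℕ, s ≤ t →
    nu (XX p t - PowerSeries.C (xx p s)) ≤ |xx p s| * (1 + 5 / 2 * (1 / 2) ^ (t - s))) ∧
  (∀ t m : ℕ, nu (XX p t ^ m) ≤ |xx p t| ^ m * ((m : ℝ) + 1) ^ 2)

/-- Bound for `Q(X_t)⁻¹`.
Proof. `(C P - C x E)⁻¹ = C P⁻¹ (1 - C y E)⁻¹`, `y = x/P`, and `(1 - C y E)⁻¹` has the coefficients
`r, y r^2, y r^2/2 + y^2 r^3` with `r = 1/(1-y)`. For `|y| ≤ 1/2` their absolute values are at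
most `1/(1-u), u/(1-u)^2, u/(2(1-u)^2)+u^2/(1-u)^3` with `u = |y| ≤ 1/2`, and the sum is
`≤ 1 + 12u` (as `1/(1-u) ≤ 1+2u`, `u/(1-u)^2 ≤ 4u`, `u/(2(1-u)^2) ≤ 2u`,
`u^2/(1-u)^3 ≤ 8u^2 ≤ 4u`). With `P = p^k`, `x = x_t`, `t ≥ 1`: `u ≤ 2^(-t-k) ≤ 1/2`, so by
submultiplicativity (`Q⁻¹` is the product of the inverses)
`ν(Q⁻¹) ≤ ∏_{k<N} |p|^(-k) (1 + 12·2^(-t-k)) ≤ w exp(12 ∑_k 2^(-t-k)) ≤ w e^12 ≤ 3^12 w`,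
`w = ∏_{k<N} |p|^(-k) = |p|^(-N(N-1)/2)`. -/
def S_NUQ : Prop := ∀ p : ℤ, 2 ≤ |p| → ∀ N t : ℕ, 1 ≤ t →
  nu ((QQ p N t)⁻¹) ≤ 3 ^ 12 * ww p N

/-- Bound for `E_a(X_t)`, `t > a`.
Proof. `aeval X_t E_a = ∏_{s=1}^a (X_t - C x_s)`, so by `S_NU`, `S_NUX`,
`ν ≤ ∏_{s=1}^a |x_s| (1 + (5/2) 2^(-(t-s))) ≤ e_a exp((5/2) ∑_{s=1}^a 2^(-(t-s))) ≤ e_a e^(5/2)`,
because `∏_{s=1}^a |x_s| = |q|^(a(a+1)/2) = e_a` and `∑_{s=1}^a 2^(s-t) ≤ 2^(a+1-t) ≤ 1`.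
And `e^(5/2) < 13` since `e^5 < 2.7183^5 < 169` (`Real.exp_one_lt_d9`). -/
def S_NUE : Prop := ∀ p : ℤ, 2 ≤ |p| → ∀ a t : ℕ, a < t →
  nu (Polynomial.aeval (XX p t) (EE p a)) ≤ 13 * ea p a

/-- Bound for `κ_t`, `t > max(a,a')`.
Proof. `aeval X_t` of `F_{(a,c)} F_{(a',c')}` is
`E_a(X_t)^3 (X_t - x_(a+1))^c E_(a')(X_t)^3 (X_t - x_(a'+1))^c'`. By `S_NU`:
`|κ_t| ≤ 2 ν(X_t^(M+1)) ν(E_a)^3 ν(X_t-x_(a+1))^c ν(E_a')^3 ν(X_t-x_(a'+1))^c' ν(Q⁻¹)`, then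
`S_NUX` (`ν(X_t^(M+1)) ≤ |x_t|^(M+1) (M+2)^2`, `ν(X_t - x_(a+1)) ≤ (7/2)|x_(a+1)|` as
`a+1 ≤ t`), `S_NUE`, `S_NUQ`; `(7/2)^c ≤ (7/2)^2`. `C3 = 2·13^6·(7/2)^4·3^12`. -/
def S_KB : Prop := ∀ p : ℤ, 2 ≤ |p| → ∀ M N t a a' c c' : ℕ, a < t → a' < t → c ≤ 2 → c' ≤ 2 →
  |kap p M N t (FF p a c * FF p a' c')| ≤
    C3 * ((M : ℝ) + 2) ^ 2 * |xx p t| ^ (M + 1) * ea p a ^ 3 * ea p a' ^ 3 *
      |xx p (a + 1)| ^ c * |xx p (a' + 1)| ^ c' * ww p N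

/-- The main term.
Proof. `F_{(a,c)} F_{(a,2-c)} = E_a^6 (T - x)^2`, `x = x_(a+1)`. At `t = a+1`,
`X_t - C x = x (h + h^2/2 + ...)`, so its square is `x^2 h^2 + ...` and
`κ_(a+1) = 2 x^2 · (constant coefficient of X^(M+1) E_a(X)^6 Q(X)⁻¹) = 2 x^(M+3) E_a(x)^6/Q(x)`,
`Q(x) = ∏_{k<N} (p^k - x)`. Now `|E_a(x)| = ∏_{s=1}^a |x_s| |1 - q^(a+1-s)| ≥
e_a ∏_{u=1}^a (1-2^(-u)) ≥ e_a/4` (`∏_{u=1}^a (1-2^(-u)) ≥ 1/4 + 2^(-(a+1))` for `a ≥ 1` by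
induction), and `|Q(x)| ≤ ∏_{k<N} |p|^k (1 + 2^(-k-1)) ≤ w⁻¹ exp(∑ 2^(-k-1)) ≤ w⁻¹ e ≤ 4/w`.
So `|κ| ≥ 2 |x|^(M+3) (e_a/4)^6 w/4 = 2^(-13) |x|^(M+3) e_a^6 w`. -/
def S_MAIN : Prop := ∀ p : ℤ, 2 ≤ |p| → ∀ M N a c : ℕ, c ≤ 2 →
  (1 / 2) ^ 13 * |xx p (a + 1)| ^ (M + 3) * ea p a ^ 6 * ww p N ≤
    |kap p M N (a + 1) (FF p a c * FF p a (2 - c))|

/-- Degrees of the `FF`: monic of degree `3a+c`.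
Proof. Product of monic linear factors: `EE p a` is monic of degree `a`. -/
def S_DEG : Prop := ∀ (p : ℤ) (a c : ℕ), (FF p a c).Monic ∧ (FF p a c).natDegree = 3 * a + c

/-- Divisibility: if `1 ≤ t ≤ a` then `(T - x_t)^3 ∣ F_{(a,c)}`.
Proof. `(T - x_t) ∣ EE p a` (`Finset.dvd_prod_of_mem`). -/
def S_DVD : Prop := ∀ (p : ℤ) (a c t : ℕ), 1 ≤ t → t ≤ a →
  (Polynomial.X - Polynomial.C (xx p t)) ^ 3 ∣ FF p a c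

/-- Crude upper bound for the entries.
Proof. `L(F,G) = ∑_{t≥1} κ_t` (`S_HLL`, degrees `3a+c, 3a'+c' < N` by `S_DEG`). If
`1 ≤ t ≤ max(a,a')`, `κ_t = 0` by `S_VAN`, `S_DVD`. If `t > max(a,a')` use `S_KB` with
`|x_(a+1)|^c ≤ 1`, `|x_(a'+1)|^c' ≤ 1`, `|x_t|^(M+1) ≤ |x_t| ≤ 2^(-t)`, and `∑_{t≥1} 2^(-t) = 1`. -/
def S_UP1 : Prop := ∀ p : ℤ, 2 ≤ |p| → ∀ M N a a' c c' : ℕ, c ≤ 2 → c' ≤ 2 →
  3 * a + c < N → 3 * a' + c' < N →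
  |LL p M N (FF p a c) (FF p a' c')| ≤
    C3 * ((M : ℝ) + 2) ^ 2 * ea p a ^ 3 * ea p a' ^ 3 * ww p N

/-- Crude bound of a determinant.
Proof. Leibniz formula (`Matrix.det_apply`), for each permutation
`∏_i |T (σ i) i| ≤ ∏_i B r_(σ i) r_i = B^N ∏_i r_i^2` (`Equiv.prod_comp`). -/
def S_DU : Prop := ∀ (N : ℕ) (T : Matrix (Fin N) (Fin N) ℝ) (B : ℝ) (r : Fin N → ℝ),
  0 ≤ B → (∀ i, 0 ≤ r i) → (∀ i j, |T i j| ≤ B * r i * r j) →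
  |T.det| ≤ (N.factorial : ℝ) * B ^ N * ∏ i, r i ^ 2

/-- Size of the Vandermonde product, and of `∏ e_{a_i}`.
Proof. For `i < l`: `|p^l - p^i| ≤ |p|^l + |p|^i ≤ 2|p|^l ≤ |p|^(l+1)`, so
`|V| ≤ |p|^(∑_{l<N} l(l+1))` and `3 ∑_{l<N} l(l+1) = (N-1)N(N+1) ≤ N^3`; for `N = 3K` the
exponent is `≤ 9K^3`. Second claim: `∏_{i<3K} e_{⌊i/3⌋}^3`, squared, is
`∏_{a<K} e_a^18 = |p|^(-9 ∑_{a<K} a(a+1)) = |p|^(-3(K^3-K))` (each `a < K` is hit by three `i`;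
`∑_{a<K} a(a+1) = (K^3-K)/3`; `a(a+1)/2` is an exact division). Written without subtraction. -/
def S_VB : Prop := ∀ p : ℤ, 2 ≤ |p| → ∀ K : ℕ,
  |VV ℝ p (3 * K)| ≤ |(p : ℝ)| ^ (9 * K ^ 3) ∧
  (∏ i : Fin (3 * K), (ea p ((i : ℕ) / 3) ^ 3) ^ 2) * |(p : ℝ)| ^ (3 * K ^ 3)
    = |(p : ℝ)| ^ (3 * K)

/-- Upper bound for the determinant.
Proof. `S_DET` over `ℝ` with `N = 3K`, `F_i = G_i = FF p (i/3) (i%3)` (`S_DEG`), `B = A p M N`: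
`|det A| = |V| |det L|`, `L_ij = L(F_i,F_j)` (the sums over `Fin N` are the sums over `range N`
in `LL`). By `S_UP1` and `S_DU` with `B = C3 (M+2)^2 w`, `r_i = e_{i/3}^3`:
`|det L| ≤ N! (C3 (M+2)^2 w)^N ∏ r_i^2`. With `S_VB` and `w = |p|^(-N(N-1)/2)`,
`w^(2N) = |p|^(-N^2(N-1)) = |p|^(-27K^3+9K^2)`:
`|det A|^2 ≤ |p|^(18K^3) (N!)^2 (C3 (M+2)^2)^(2N) |p|^(-27K^3+9K^2) |p|^(-6K^3+6K)
 = |p|^(-15K^3+9K^2+6K) (N!)^2 (C3 (M+2)^2)^(2N)`, and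
`N! ≤ N^N ≤ 2^(N^2) ≤ |p|^(9K^2)`, `C3 (M+2)^2 ≤ 2^(C') ≤ |p|^(C')` for some `C'`. So
`C = 9 + 6 + 18 + 6C'` works for `K ≥ 1`. -/
def S_UP : Prop := ∀ p : ℤ, 2 ≤ |p| → ∀ M : ℕ, ∃ C : ℕ, ∀ K : ℕ, 1 ≤ K →
  |(A p M (3 * K)).det| ^ 2 * |(p : ℝ)| ^ (15 * K ^ 3) ≤ |(p : ℝ)| ^ (C * K ^ 2)

/-- Fine bounds for the entries (column partner `2 - c'`).
Proof. As for `S_UP1`: `L = ∑_{t ≥ 1} κ_t`, `κ_t = 0` for `t ≤ max(a,a')`, and for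
`t > max(a,a')` the bound `S_KB`; `∑_{t ≥ t_0} |x_t|^(M+1) ≤ 2 |x_(t_0)|^(M+1)` (geometric,
ratio `|q|^(M+1) ≤ 1/2`). This gives (i) with `t_0 = max(a,a')+1`.
(ii) if `a = a'` and `c' < c` then `c + 2 - c' ≥ 3`, so `(T-x_(a+1))^3 ∣ F_{(a,c)} F_{(a,2-c')}`
and also `κ_(a+1) = 0` by `S_VAN`; so the sum starts at `t_0 = a+2`.
(iii) `|L| ≥ |κ_(a+1)| - ∑_{t ≥ a+2} |κ_t|` and `S_MAIN`. -/
def S_NZ1 : Prop := ∀ p : ℤ, 2 ≤ |p| → ∀ M N : ℕ,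
  (∀ a a' c c' : ℕ, c ≤ 2 → c' ≤ 2 → 3 * a + c < N → 3 * a' + 2 < N →
    |LL p M N (FF p a c) (FF p a' (2 - c'))| ≤
      2 * C3 * ((M : ℝ) + 2) ^ 2 * |xx p (max a a' + 1)| ^ (M + 1) * ea p a ^ 3 * ea p a' ^ 3 *
      |xx p (a + 1)| ^ c * |xx p (a' + 1)| ^ (2 - c') * ww p N) ∧
  (∀ a c c' : ℕ, c ≤ 2 → c' < c → 3 * a + 2 < N →
    |LL p M N (FF p a c) (FF p a (2 - c'))| ≤
      2 * C3 * ((M : ℝ) + 2) ^ 2 * |xx p (a + 2)| ^ (M + 1) * ea p a ^ 6 *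
      |xx p (a + 1)| ^ (c + (2 - c')) * ww p N) ∧
  (∀ a c : ℕ, c ≤ 2 → 3 * a + 2 < N →
    (1 / 2) ^ 13 * |xx p (a + 1)| ^ (M + 3) * ea p a ^ 6 * ww p N
      - 2 * C3 * ((M : ℝ) + 2) ^ 2 * |xx p (a + 2)| ^ (M + 1) * ea p a ^ 6 *
        |xx p (a + 1)| ^ 2 * ww p N ≤
    |LL p M N (FF p a c) (FF p a (2 - c))|)

/-- Abstract nonvanishing lemma.
Proof. Put `ρ_i = R_(i/3)(i%3) Λ^(-(i%3))`, `ρ'_j = R'_(j/3)(j%3) Λ^(j%3)` and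
`T'_ij = T_ij/(ρ_i ρ'_j)`; `det T' = det T/∏ ρ_i ρ'_i`. Row sums of `|T'|` off the diagonal:
for `j/3 ≠ i/3`: `|T'_ij| ≤ B r^|a-a'| Λ^(c-c') ≤ B Λ^2 r^|a-a'|`, three columns for each `a'`,
`∑_{a'≠a} r^|a-a'| ≤ 2 ∑_{d≥1} r^d ≤ 4r`, total `≤ 12 B Λ^2 r`; for `j/3 = i/3`, `c' > c`:
`|T'_ij| ≤ B Λ^(-1)`, at most two such `j`; for `j/3 = i/3`, `c' < c`:
`|T'_ij| ≤ B r^2 Λ^2`, at most two. So the sum is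
`≤ B (12 Λ^2 r + 2/Λ + 2 Λ^2 r^2) < δ - B r^2 ≤ |T'_ii|`, and `det T' ≠ 0` by
`det_ne_zero_of_sum_row_lt_diag` (Gershgorin). -/
def S_NZ2 : Prop := ∀ (K : ℕ) (T : Matrix (Fin (3 * K)) (Fin (3 * K)) ℝ)
  (R R' : ℕ → ℕ → ℝ) (B r δ Λ : ℝ), (∀ a c, 0 < R a c) → (∀ a c, 0 < R' a c) → 0 ≤ B →
  0 < r → r ≤ 1 / 2 → 1 ≤ Λ →
  (∀ i j : Fin (3 * K), |T i j| ≤
    B * r ^ (((((i : ℕ) / 3 : ℕ) : ℤ) - (((j : ℕ) / 3 : ℕ) : ℤ)).natAbs) *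
      R ((i : ℕ) / 3) ((i : ℕ) % 3) * R' ((j : ℕ) / 3) ((j : ℕ) % 3)) →
  (∀ i j : Fin (3 * K), (i : ℕ) / 3 = (j : ℕ) / 3 → (j : ℕ) % 3 < (i : ℕ) % 3 →
    |T i j| ≤ B * r ^ 2 * R ((i : ℕ) / 3) ((i : ℕ) % 3) * R' ((j : ℕ) / 3) ((j : ℕ) % 3)) →
  (∀ i : Fin (3 * K),
    (δ - B * r ^ 2) * R ((i : ℕ) / 3) ((i : ℕ) % 3) * R' ((i : ℕ) / 3) ((i : ℕ) % 3) ≤
      |T i i|) →
  B * (12 * Λ ^ 2 * r + 2 / Λ + 2 * Λ ^ 2 * r ^ 2) + B * r ^ 2 < δ → T.det ≠ 0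

/-- Existence of the parameters.
Proof. Take `Λ = L₀ (2m+1)^2` with `L₀ = max 1 (16 C/δ)`: then `2B/Λ = 4C/L₀ ≤ δ/4`, and the
other terms are polynomials in `m` times `2^(-m)` (as `0 < r ≤ 2^(-m)`), which tend to `0`. -/
def S_PAR : Prop := ∀ C δ : ℝ, 0 < C → 0 < δ → ∃ (m : ℕ) (Λ : ℝ), 1 ≤ m ∧ 1 ≤ Λ ∧
  ∀ r : ℝ, 0 < r → r ≤ (1 / 2) ^ m →
    (2 * C * (2 * (m : ℝ) + 1) ^ 2) * (12 * Λ ^ 2 * r + 2 / Λ + 2 * Λ ^ 2 * r ^ 2)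
      + (2 * C * (2 * (m : ℝ) + 1) ^ 2) * r ^ 2 < δ

/-- Nonvanishing.
Proof. `S_PAR` with `C = C3`, `δ = (1/2)^13` gives `m, Λ`; put `M = 2m-1`, `r = |q|^m`,
`N = 3K`, `B = 2 C3 (M+2)^2`,
`R a c = |x_(a+1)|^m e_a^3 |x_(a+1)|^c`, `R' a c = w |x_(a+1)|^m e_a^3 |x_(a+1)|^(2-c)`,
`T_ij = L(F_{(i/3,i%3)}, F_{(j/3, 2-j%3)})`. As `M+1 = 2m`,
`|x_(max(a,a')+1)|^(2m) = |q|^(2m (max+1)) = r^|a-a'| |x_(a+1)|^m |x_(a'+1)|^m`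
(`2 max(a,a') + 2 = |a-a'| + (a+1) + (a'+1)`), `|x_(a+2)|^(2m) = r^2 |x_(a+1)|^(2m)`,
`|x_(a+1)|^(M+3) = |x_(a+1)|^(2m) |x_(a+1)|^2`, so `S_NZ1` gives the hypotheses of `S_NZ2`;
hence `det T ≠ 0`. `T` is obtained from `L_ij = L(F_i, F_j)`, `F_i = FF p (i/3) (i%3)`, by the
permutation `j = 3a'+c' ↦ 3a'+2-c'` of the columns (`Matrix.det_permute'`), so `det L ≠ 0`, and
`|det A| = |V| |det L|` by `S_DET` with `V ≠ 0`. -/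
def S_NZ : Prop := ∀ p : ℤ, 2 ≤ |p| → ∃ M : ℕ, ∀ K : ℕ, (A p M (3 * K)).det ≠ 0

/-! ## F. conclusion -/

/-- Final theorem.
Proof. Suppose `ζ = z = m/b`, `b ≥ 1`. Take `M` from `S_NZ`, `N = 3K`. By `S_CF`,
`A p M N` is the image of `AzM p z M N` in `ℝ`. By `S_INT`
`X = b^N det(AzM) DD ∈ ℤ`, `X ≠ 0` (`D_k ≠ 0` as `Φ_n(p) ≠ 0`), and by `S_CP`, `p^Σ ∣ X`:
`n X/p^Σ ∈ ℤ` with `n` coprime to `p`. `Σ = N(N-1)(N-2)/6 ≥ (9/2)(K^3-K^2)`. So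
`|p|^(50 Σ) ≤ |X|^50 = b^(50N) (|det A|^2)^25 (|DD|^25)^2 ≤
|p|^(150 b K + 25 C K^2 - 375 K^3 + 2(288 K^3 + C' K^2))`, i.e.
`225 K^3 - 225 K^2 ≤ 201 K^3 + C'' K^2`, false for large `K`. -/
def S_FIN : Prop := ∀ p : ℤ, 2 ≤ |p| → Irrational (zeta p)

end Pool.Agent.H475.QZ
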