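import Pool.Agent.H475.QZ.Stm

namespace Pool.Agent.H475.QZ

open Finset Polynomial

theorem P_LAG.pow_inj {p : ℤ} (hp : 2 ≤ |p|) {k l : ℕ} (h : (p : ℝ) ^ k = (p : ℝ) ^ l) : k = l := by
  have h1 : (2 : ℝ) ≤ |(p : ℝ)| := by
    have : ((2 : ℤ) : ℝ) ≤ ((|p| : ℤ) : ℝ) := by exact_mod_cast hp
    rwa [Int.cast_abs, Int.cast_ofNat] at this
  have h2 : |(p : ℝ)| ^ k = |(p : ℝ)| ^ l := by
    rw [← abs_pow, ← abs_pow, h]
  exact pow_right_injective₀ (by linarith) (by linarith) h2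

/-- Lagrange interpolation as an identity of polynomials. -/
theorem P_LAG.lag {p : ℤ} (hp : 2 ≤ |p|) (N : ℕ) (F : Polynomial ℝ) (hF : F.natDegree < N) :
    F = ∑ k ∈ range N, C (F.eval ((p : ℝ) ^ k) / pik ℝ p N k) *
      ∏ l ∈ (range N).erase k, (C ((p : ℝ) ^ l) - X) := by
  have hinj : Set.InjOn (fun k : ℕ => (p : ℝ) ^ k) (range N : Set ℕ) :=
    fun k _ l _ h => P_LAG.pow_inj hp h
  have hdeg : F.degree < (range N).card := by
    rw [card_range]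
    exact (degree_le_natDegree).trans_lt (by exact_mod_cast hF)
  have h1 := Lagrange.eq_interpolate (s := range N) (v := fun k : ℕ => (p : ℝ) ^ k) hinj hdeg
  refine h1.trans ?_
  rw [Lagrange.interpolate_apply]
  refine Finset.sum_congr rfl fun k hk => ?_
  have hne : ∀ l ∈ (range N).erase k, (p : ℝ) ^ l - (p : ℝ) ^ k ≠ 0 := by
    intro l hl h
    exact (Finset.mem_erase.1 hl).1 (P_LAG.pow_inj hp (sub_eq_zero.1 h))
  have hpik : pik ℝ p N k ≠ 0 := Finset.prod_ne_zero_iff.2 hne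
  have h2 : Lagrange.basis (range N) (fun k : ℕ => (p : ℝ) ^ k) k =
      C ((pik ℝ p N k)⁻¹) * ∏ l ∈ (range N).erase k, (C ((p : ℝ) ^ l) - X) := by
    unfold Lagrange.basis Lagrange.basisDivisor pik
    rw [Finset.prod_mul_distrib, ← Finset.prod_inv_distrib, map_prod]
    have e1 : ∏ l ∈ (range N).erase k, C ((p : ℝ) ^ k - (p : ℝ) ^ l)⁻¹ =
        (∏ l ∈ (range N).erase k, C ((p : ℝ) ^ l - (p : ℝ) ^ k)⁻¹) *
          ∏ l ∈ (range N).erase k, (-1 : Polynomial ℝ) := by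
      rw [← Finset.prod_mul_distrib]
      refine Finset.prod_congr rfl fun l _ => ?_
      rw [← neg_sub ((p : ℝ) ^ l) ((p : ℝ) ^ k), inv_neg, C_neg, mul_neg_one]
    rw [e1, mul_assoc, ← Finset.prod_mul_distrib]
    congr 1
    refine Finset.prod_congr rfl fun l _ => ?_
    ring
  rw [h2, ← mul_assoc, ← C_mul, div_eq_mul_inv]

theorem P_LAG.unit {p : ℤ} (hp : 2 ≤ |p|) {t : ℕ} (ht : 1 ≤ t) (k : ℕ) :
    PowerSeries.constantCoeff (PowerSeries.C ((p : ℝ) ^ k) - XX p t) ≠ 0 := by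
  have h1 : (2 : ℝ) ≤ |(p : ℝ)| := by
    have : ((2 : ℤ) : ℝ) ≤ ((|p| : ℤ) : ℝ) := by exact_mod_cast hp
    rwa [Int.cast_abs, Int.cast_ofNat] at this
  have e : PowerSeries.constantCoeff (PowerSeries.C ((p : ℝ) ^ k) - XX p t) =
      (p : ℝ) ^ k - xx p t := by
    unfold XX
    simp
  rw [e]
  intro h
  have h2 : (p : ℝ) ^ k = ((p : ℝ) ^ t)⁻¹ := sub_eq_zero.1 h
  have h3 : |(p : ℝ)| ^ k = (|(p : ℝ)| ^ t)⁻¹ := by
    rw [← abs_pow, ← abs_pow, h2, abs_inv]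
  have h4 : 1 ≤ |(p : ℝ)| ^ k := one_le_pow₀ (by linarith)
  have h5 : 1 < |(p : ℝ)| ^ t := one_lt_pow₀ (by linarith) (by omega)
  rw [h3] at h4
  have h6 := inv_lt_one_of_one_lt₀ h5
  linarith

theorem t_LAG : S_LAG := by
  intro p hp N t ht F hF
  have hu : ∀ k, (PowerSeries.C ((p : ℝ) ^ k) - XX p t) *
      (PowerSeries.C ((p : ℝ) ^ k) - XX p t)⁻¹ = 1 := fun k =>
    PowerSeries.mul_inv_cancel _ (P_LAG.unit hp ht k)
  have hQc : PowerSeries.constantCoeff (QQ p N t) ≠ 0 := by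
    unfold QQ
    rw [map_prod]
    exact Finset.prod_ne_zero_iff.2 fun k _ => P_LAG.unit hp ht k
  have hQ : QQ p N t * (QQ p N t)⁻¹ = 1 := PowerSeries.mul_inv_cancel _ hQc
  have h1 : aeval (XX p t) F = ∑ k ∈ range N, PowerSeries.C (F.eval ((p : ℝ) ^ k) / pik ℝ p N k) *
      ∏ l ∈ (range N).erase k, (PowerSeries.C ((p : ℝ) ^ l) - XX p t) := by
    conv_lhs => rw [P_LAG.lag hp N F hF]
    rw [map_sum]
    refine Finset.sum_congr rfl fun k _ => ?_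
    have e : ∀ r : ℝ, algebraMap ℝ (PowerSeries ℝ) r = PowerSeries.C r := fun r => by
      rw [PowerSeries.algebraMap_apply]
      rfl
    rw [map_mul, map_prod, aeval_C, e]
    congr 1
    refine Finset.prod_congr rfl fun l _ => ?_
    rw [map_sub, aeval_C, aeval_X, e]
  rw [h1, Finset.sum_mul]
  refine Finset.sum_congr rfl fun k hk => ?_
  have h2 : QQ p N t = (PowerSeries.C ((p : ℝ) ^ k) - XX p t) *
      ∏ l ∈ (range N).erase k, (PowerSeries.C ((p : ℝ) ^ l) - XX p t) := by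
    unfold QQ
    rw [Finset.mul_prod_erase _ (fun l => PowerSeries.C ((p : ℝ) ^ l) - XX p t) hk]
  have h3 : (PowerSeries.C ((p : ℝ) ^ k) - XX p t)⁻¹ =
      (∏ l ∈ (range N).erase k, (PowerSeries.C ((p : ℝ) ^ l) - XX p t)) * (QQ p N t)⁻¹ := by
    have h4 := hu k
    set A := PowerSeries.C ((p : ℝ) ^ k) - XX p t with hA
    set B := ∏ l ∈ (range N).erase k, (PowerSeries.C ((p : ℝ) ^ l) - XX p t) with hB
    calc A⁻¹ = A⁻¹ * (QQ p N t * (QQ p N t)⁻¹) := by rw [hQ, mul_one]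
      _ = (A * A⁻¹) * (B * (QQ p N t)⁻¹) := by rw [h2]; ring
      _ = B * (QQ p N t)⁻¹ := by rw [h4, one_mul]
  rw [h3, mul_assoc]

end Pool.Agent.H475.QZ
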