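import Pool.Agent.H475.QZ.Stm

/-!
The number `p^e - 1` divides `D_k` for `1 ≤ e ≤ k`.
-/

namespace Pool.Agent.H475.QZ

open Finset

theorem t_B1 : S_B1 := by
  intro p k e he hek
  have h1 := Polynomial.prod_cyclotomic_eq_X_pow_sub_one (R := ℤ) (n := e) (by omega)
  have h2 := congrArg (Polynomial.eval p) h1
  rw [Polynomial.eval_prod] at h2
  have h3 : Polynomial.eval p (Polynomial.X ^ e - 1 : Polynomial ℤ) = p ^ e - 1 := by
    simp
  rw [h3] at h2
  rw [← h2]
  unfold D
  refine Finset.prod_dvd_prod_of_subset _ _ _ fun d hd => ?_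
  have hd1 := Nat.pos_of_mem_divisors hd
  have hd2 := Nat.divisor_le hd
  rw [Finset.mem_Icc]
  omega

end Pool.Agent.H475.QZ
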