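import Pool.Agent.H475.QZ.Stm

/-!
Project QZ (helper475), part DET: the determinant identity (helper588).
-/

set_option autoImplicit false

namespace Pool.Agent.H475.QZ

namespace P_DET

open Finset Polynomial

variable {𝕜 : Type} [Field 𝕜]

/-- The double product over `Fin N` as a double product over ranges. -/
lemma prod_Ioi_eq (N : ℕ) (f : ℕ → ℕ → 𝕜) :
    ∏ i : Fin N, ∏ j ∈ Ioi i, f (j : ℕ) (i : ℕ) = ∏ l ∈ range N, ∏ i ∈ range l, f l i := by
  have h1 : ∀ i : Fin N, ∏ j ∈ Ioi i, f (j : ℕ) (i : ℕ) =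
      ∏ j : Fin N, if (i : ℕ) < (j : ℕ) then f (j : ℕ) (i : ℕ) else 1 := by
    intro i
    rw [← Finset.prod_filter]
    refine Finset.prod_congr ?_ fun _ _ => rfl
    ext j
    simp
  rw [Finset.prod_congr rfl fun i _ => h1 i, Finset.prod_comm,
    Fin.prod_univ_eq_prod_range (fun l => ∏ i : Fin N, if (i : ℕ) < l then f l (i : ℕ) else 1) N]
  refine Finset.prod_congr rfl fun l hl => ?_
  rw [Fin.prod_univ_eq_prod_range (fun i => if i < l then f l i else 1) N, ← Finset.prod_filter]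
  refine Finset.prod_congr ?_ fun _ _ => rfl
  ext i
  have hl' : l < N := Finset.mem_range.1 hl
  simp only [Finset.mem_filter, Finset.mem_range]
  omega

/-- The Vandermonde determinant. -/
lemma det_vdm (p : ℤ) (N : ℕ) :
    (Matrix.vandermonde (fun i : Fin N => (p : 𝕜) ^ (i : ℕ))).det = VV 𝕜 p N := by
  rw [Matrix.det_vandermonde]
  exact prod_Ioi_eq N (fun l i => (p : 𝕜) ^ l - (p : 𝕜) ^ i)

lemma VV_succ (p : ℤ) (N : ℕ) :
    VV 𝕜 p (N + 1) = VV 𝕜 p N * ∏ i ∈ range N, ((p : 𝕜) ^ N - (p : 𝕜) ^ i) := by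
  unfold VV
  rw [Finset.prod_range_succ]

lemma pik_succ (p : ℤ) (N k : ℕ) (hk : k < N) :
    pik 𝕜 p (N + 1) k = pik 𝕜 p N k * ((p : 𝕜) ^ N - (p : 𝕜) ^ k) := by
  unfold pik
  have h : (range (N + 1)).erase k = insert N ((range N).erase k) := by
    rw [Finset.range_add_one, Finset.erase_insert_of_ne hk.ne']
  rw [h, Finset.prod_insert (by simp), mul_comm]

lemma pik_last (p : ℤ) (N : ℕ) :
    pik 𝕜 p (N + 1) N = ∏ l ∈ range N, ((p : 𝕜) ^ l - (p : 𝕜) ^ N) := by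
  unfold pik
  rw [Finset.range_add_one, Finset.erase_insert (by simp)]

variable [LinearOrder 𝕜] [IsStrictOrderedRing 𝕜]

/-- The product of all `π_k` is the square of the Vandermonde product, up to the sign. -/
lemma abs_prod_pik (p : ℤ) (N : ℕ) :
    |∏ k ∈ range N, pik 𝕜 p N k| = |VV 𝕜 p N| ^ 2 := by
  induction N with
  | zero => simp [VV]
  | succ N ih =>
    rw [Finset.prod_range_succ, pik_last,
      Finset.prod_congr rfl fun k hk => pik_succ (𝕜 := 𝕜) p N k (Finset.mem_range.1 hk),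
      Finset.prod_mul_distrib, VV_succ, abs_mul, abs_mul, abs_mul, ih]
    have h : |∏ l ∈ range N, ((p : 𝕜) ^ l - (p : 𝕜) ^ N)| =
        |∏ i ∈ range N, ((p : 𝕜) ^ N - (p : 𝕜) ^ i)| := by
      rw [Finset.abs_prod, Finset.abs_prod]
      exact Finset.prod_congr rfl fun i _ => abs_sub_comm _ _
    rw [h]
    ring

lemma pow_ne {p : ℤ} (hp : 2 ≤ |p|) {i l : ℕ} (h : i < l) : (p : 𝕜) ^ l - (p : 𝕜) ^ i ≠ 0 := by
  intro h0
  have h1 : (p : 𝕜) ^ l = (p : 𝕜) ^ i := sub_eq_zero.1 h0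
  have h2 : p ^ l = p ^ i := by exact_mod_cast h1
  have h3 : |p| ^ l = |p| ^ i := by rw [← abs_pow, ← abs_pow, h2]
  have h4 : |p| ^ i < |p| ^ l := pow_lt_pow_right₀ (by linarith) h
  rw [h3] at h4
  exact lt_irrefl _ h4

lemma VV_ne {p : ℤ} (hp : 2 ≤ |p|) (N : ℕ) : VV 𝕜 p N ≠ 0 := by
  unfold VV
  rw [Finset.prod_ne_zero_iff]
  intro l _
  rw [Finset.prod_ne_zero_iff]
  intro i hi
  exact pow_ne hp (Finset.mem_range.1 hi)

omit [LinearOrder 𝕜] [IsStrictOrderedRing 𝕜] in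
/-- The determinant of the left factor. -/
lemma det_left (p : ℤ) (N : ℕ) (F : Fin N → Polynomial 𝕜)
    (hF : ∀ i, (F i).Monic ∧ (F i).natDegree = i) :
    (Matrix.of fun i k : Fin N => (F i).eval ((p : 𝕜) ^ (k : ℕ)) / pik 𝕜 p N k).det =
      (∏ k ∈ range N, pik 𝕜 p N k)⁻¹ * VV 𝕜 p N := by
  have h1 : (Matrix.of fun i k : Fin N => (F i).eval ((p : 𝕜) ^ (k : ℕ)) / pik 𝕜 p N k) =
      Matrix.of fun i k : Fin N => (pik 𝕜 p N k)⁻¹ *
        (Matrix.of fun k i : Fin N => (F i).eval ((p : 𝕜) ^ (k : ℕ))).transpose i k := by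
    ext i k
    rw [Matrix.of_apply, Matrix.of_apply, Matrix.transpose_apply, Matrix.of_apply, div_eq_inv_mul]
  rw [h1, Matrix.det_mul_row (fun k : Fin N => (pik 𝕜 p N k)⁻¹), Matrix.det_transpose,
    ← Matrix.det_eval_matrixOfPolynomials_eq_det_vandermonde (fun k : Fin N => (p : 𝕜) ^ (k : ℕ)) F
      (fun i => (hF i).2) (fun i => (hF i).1), det_vdm, Finset.prod_inv_distrib,
    Fin.prod_univ_eq_prod_range (fun k => pik 𝕜 p N k) N]

end P_DET

open P_DET in
theorem t_DET : S_DET := by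
  intro 𝕜 _ _ _ p hp N B F G hF hG
  have hmul : (Matrix.of fun i j : Fin N => ∑ k : Fin N, ∑ l : Fin N,
      (F i).eval ((p : 𝕜) ^ (k : ℕ)) / pik 𝕜 p N k * B k l * (G j).coeff l) =
      (Matrix.of fun i k : Fin N => (F i).eval ((p : 𝕜) ^ (k : ℕ)) / pik 𝕜 p N k) * B *
        (Matrix.of fun l j : Fin N => (G j).coeff l) := by
    ext i j
    rw [Matrix.of_apply, Matrix.mul_apply, Finset.sum_comm]
    refine Finset.sum_congr rfl fun l _ => ?_
    rw [Matrix.mul_apply, Finset.sum_mul]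
    refine Finset.sum_congr rfl fun k _ => ?_
    rw [Matrix.of_apply, Matrix.of_apply]
  have hV : |VV 𝕜 p N| ≠ 0 := abs_ne_zero.2 (VV_ne hp N)
  rw [hmul, Matrix.det_mul, Matrix.det_mul,
    Matrix.det_matrixOfPolynomials G (fun i => (hG i).2) (fun i => (hG i).1), mul_one,
    det_left p N F hF, abs_mul, abs_mul, abs_inv, abs_prod_pik]
  field_simp

end Pool.Agent.H475.QZ
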