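import Pool.Agent.H475.QZ.Stm

/-! PHI (helper721): `|Φ_n(p)| ≤ 4 |p|^φ(n)`. -/

set_option autoImplicit false

namespace Pool.Agent.H475.QZ

open Finset Polynomial

namespace P_PHI

open ArithmeticFunction in
open scoped ArithmeticFunction.Moebius in
/-- the factors -/
theorem fac_le {x y : ℝ} (hy0 : 0 ≤ y) (hy1 : y < 1) (hxy : |x| ≤ y) (m : ℕ) :
    |(1 - x) ^ (μ m)| ≤ (1 - y)⁻¹ := by
  have h1 : 0 < 1 - y := by linarith
  obtain ⟨hx1, hx2⟩ := abs_le.1 hxy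
  have h2 : 1 ≤ (1 - y)⁻¹ := one_le_inv₀ h1 |>.2 (by linarith)
  have hpos : 0 < 1 - x := by linarith
  rcases moebius_eq_or m with h | h | h
  · rw [h, zpow_zero, abs_one]
    exact h2
  · rw [h, zpow_one, abs_of_pos hpos, le_inv_comm₀ hpos h1]
    rw [← one_div, le_div_iff₀ hpos]
    nlinarith
  · rw [h, zpow_neg_one, abs_of_pos (inv_pos.2 hpos)]
    exact inv_anti₀ h1 (by linarith)

/-- the product of the factors -/
theorem prod_ge (n : ℕ) : (1 / 4 : ℝ) ≤ ∏ e ∈ Icc 1 n, (1 - (1 / 2 : ℝ) ^ e) := by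
  have h : ∀ n : ℕ, 1 ≤ n → (1 / 4 : ℝ) + (1 / 2) ^ (n + 1) ≤
      ∏ e ∈ Icc 1 n, (1 - (1 / 2 : ℝ) ^ e) := by
    intro n hn
    induction n, hn using Nat.le_induction with
    | base => norm_num
    | succ n hn ih =>
      rw [prod_Icc_succ_top (by omega)]
      have h1 : (0 : ℝ) < (1 / 2) ^ (n + 1) := by positivity
      have h2 : (1 / 2 : ℝ) ^ (n + 1) ≤ (1 / 2) ^ 2 :=
        pow_le_pow_of_le_one (by norm_num) (by norm_num) (by omega)
      have h3 : (1 / 2 : ℝ) ^ (n + 1 + 1) = (1 / 2) * (1 / 2) ^ (n + 1) := by ring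
      rw [h3]
      have h4 : (0 : ℝ) ≤ 1 - (1 / 2) ^ (n + 1) := by
        norm_num at h2 ⊢
        linarith
      refine le_trans ?_ (mul_le_mul_of_nonneg_right ih h4)
      nlinarith
  rcases Nat.eq_zero_or_pos n with h0 | h0
  · rw [h0]
    norm_num
  · have := h n h0
    have h1 : (0 : ℝ) < (1 / 2) ^ (n + 1) := by positivity
    linarith

open ArithmeticFunction in
open scoped ArithmeticFunction.Moebius in
/-- the real form -/
theorem real_bound {p : ℤ} (hp : 2 ≤ |p|) {n : ℕ} (hn : 1 ≤ n) :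
    |(((cyclotomic n ℤ).eval p : ℤ) : ℝ) / (p : ℝ) ^ Nat.totient n| ≤ 4 := by
  have hpR : (2 : ℝ) ≤ |(p : ℝ)| := by exact_mod_cast hp
  have hp0 : (p : ℝ) ≠ 0 := by
    intro h
    rw [h, abs_zero] at hpR
    linarith
  have hq : ∀ m : ℕ, |((p : ℝ) ^ m)⁻¹| ≤ (1 / 2 : ℝ) ^ m := by
    intro m
    rw [abs_inv, abs_pow, ← inv_pow]
    refine pow_le_pow_left₀ (by positivity) ?_ m
    rw [one_div]
    exact inv_anti₀ (by norm_num) hpR
  have hlt : ∀ m : ℕ, 0 < m → (1 / 2 : ℝ) ^ m < 1 := fun m hm =>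
    pow_lt_one₀ (by norm_num) (by norm_num) hm.ne'
  have hg0 : ∀ m : ℕ, 0 < m → 1 - ((p : ℝ) ^ m)⁻¹ ≠ 0 := by
    intro m hm h
    have h1 := (abs_le.1 (hq m)).2
    have h2 := hlt m hm
    linarith
  have hprod : ∀ m : ℕ, 0 < m → ∏ d ∈ m.divisors, (((cyclotomic d ℤ).eval p : ℤ) : ℝ) =
      (p : ℝ) ^ m - 1 := by
    intro m hm
    have h1 := congrArg (fun P : ℤ[X] => P.eval p) (prod_cyclotomic_eq_X_pow_sub_one hm ℤ)
    simp only [eval_prod, eval_sub, eval_pow, eval_X, eval_one] at h1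
    exact_mod_cast h1
  have hfg : ∀ m : ℕ, 0 < m → ∏ d ∈ m.divisors, ((((cyclotomic d ℤ).eval p : ℤ) : ℝ) /
      (p : ℝ) ^ Nat.totient d) = 1 - ((p : ℝ) ^ m)⁻¹ := by
    intro m hm
    rw [prod_div_distrib, hprod m hm, prod_pow_eq_pow_sum, Nat.sum_totient, sub_div,
      div_self (pow_ne_zero _ hp0), one_div]
  have hf0 : ∀ m : ℕ, 0 < m → (((cyclotomic m ℤ).eval p : ℤ) : ℝ) / (p : ℝ) ^ Nat.totient m ≠ 0 := by
    intro m hm h
    apply hg0 m hm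
    rw [← hfg m hm]
    exact prod_eq_zero (Nat.mem_divisors_self m hm.ne') h
  have hinv := (prod_eq_iff_prod_pow_moebius_eq_of_nonzero hf0 hg0).1 hfg n hn
  rw [← hinv, abs_prod]
  have h1 : ∏ x ∈ n.divisorsAntidiagonal, |(1 - ((p : ℝ) ^ x.2)⁻¹) ^ μ x.1| ≤
      ∏ x ∈ n.divisorsAntidiagonal, (1 - (1 / 2 : ℝ) ^ x.2)⁻¹ := by
    refine prod_le_prod (fun _ _ => abs_nonneg _) fun x hx => ?_
    have hx2 : 0 < x.2 := by
      have := Nat.mem_divisorsAntidiagonal.1 hx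
      rcases Nat.eq_zero_or_pos x.2 with h | h
      · rw [h, mul_zero] at this
        omega
      · exact h
    exact fac_le (by positivity) (hlt _ hx2) (hq _) _
  refine h1.trans ?_
  have h2 : ∏ x ∈ n.divisorsAntidiagonal, (1 - (1 / 2 : ℝ) ^ x.2)⁻¹ =
      ∏ e ∈ n.divisors, (1 - (1 / 2 : ℝ) ^ e)⁻¹ :=
    Nat.prod_divisorsAntidiagonal' (fun _ e => (1 - (1 / 2 : ℝ) ^ e)⁻¹)
  rw [h2]
  have h3 : ∏ e ∈ n.divisors, (1 - (1 / 2 : ℝ) ^ e)⁻¹ ≤ ∏ e ∈ Icc 1 n, (1 - (1 / 2 : ℝ) ^ e)⁻¹ := by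
    have hone : ∀ e : ℕ, 0 < e → 1 ≤ (1 - (1 / 2 : ℝ) ^ e)⁻¹ := by
      intro e he
      have h4 := hlt e he
      have h5 : (0 : ℝ) < (1 / 2) ^ e := by positivity
      exact (one_le_inv₀ (by linarith)).2 (by linarith)
    refine prod_le_prod_of_subset_of_one_le ?_ ?_ ?_
    · intro e he
      rw [Nat.mem_divisors] at he
      exact mem_Icc.2 ⟨Nat.pos_of_dvd_of_pos he.1 hn, Nat.le_of_dvd hn he.1⟩
    · intro e he
      exact zero_le_one.trans (hone e (Nat.pos_of_mem_divisors he))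
    · intro e he _
      exact hone e (mem_Icc.1 he).1
  refine h3.trans ?_
  rw [prod_inv_distrib]
  have h4 := prod_ge n
  calc (∏ e ∈ Icc 1 n, (1 - (1 / 2 : ℝ) ^ e))⁻¹ ≤ (1 / 4 : ℝ)⁻¹ := inv_anti₀ (by norm_num) h4
    _ = 4 := by norm_num

end P_PHI

theorem t_PHI : S_PHI := by
  intro p n hp hn
  have h := P_PHI.real_bound hp hn
  have hpR : (2 : ℝ) ≤ |(p : ℝ)| := by exact_mod_cast hp
  rw [abs_div, abs_pow, div_le_iff₀ (by positivity)] at h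
  exact_mod_cast h

end Pool.Agent.H475.QZ
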