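import Pool.Agent.H475.QZ.Stm

/-!
Degrees of the polynomials `FF`.
-/

set_option autoImplicit false

namespace Pool.Agent.H475.QZ

open Finset Polynomial

namespace P_DEG

theorem EE_monic (p : ℤ) (a : ℕ) : (EE p a).Monic :=
  monic_prod_of_monic _ _ fun s _ => monic_X_sub_C _

theorem EE_natDegree (p : ℤ) (a : ℕ) : (EE p a).natDegree = a := by
  unfold EE
  rw [natDegree_prod_of_monic _ _ fun _ _ => monic_X_sub_C _]
  simp only [natDegree_X_sub_C, sum_const, Nat.card_Icc, smul_eq_mul, mul_one]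
  omega

end P_DEG

theorem t_DEG : S_DEG := by
  intro p a c
  have h1 : (EE p a ^ 3).Monic := (P_DEG.EE_monic p a).pow 3
  have h2 : ((Polynomial.X - Polynomial.C (xx p (a + 1))) ^ c).Monic := (monic_X_sub_C _).pow c
  refine ⟨h1.mul h2, ?_⟩
  unfold FF
  rw [h1.natDegree_mul h2, (P_DEG.EE_monic p a).natDegree_pow, P_DEG.EE_natDegree,
    (monic_X_sub_C _).natDegree_pow, natDegree_X_sub_C, mul_one]

end Pool.Agent.H475.QZ
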