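import Pool.Agent.H475.QZ.Stm

/-!
Properties of the seminorm `nu`.
-/

namespace Pool.Agent.H475.QZ

namespace P_NU

theorem coeff0 (f g : PowerSeries ℝ) :
    PowerSeries.coeff 0 (f * g) = PowerSeries.coeff 0 f * PowerSeries.coeff 0 g := by
  rw [PowerSeries.coeff_mul, Finset.Nat.antidiagonal_zero, Finset.sum_singleton]

theorem coeff1 (f g : PowerSeries ℝ) :
    PowerSeries.coeff 1 (f * g) = PowerSeries.coeff 0 f * PowerSeries.coeff 1 g +
      PowerSeries.coeff 1 f * PowerSeries.coeff 0 g := by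
  rw [PowerSeries.coeff_mul, Finset.Nat.sum_antidiagonal_eq_sum_range_succ_mk]
  simp [Finset.sum_range_succ]

theorem coeff2 (f g : PowerSeries ℝ) :
    PowerSeries.coeff 2 (f * g) = PowerSeries.coeff 0 f * PowerSeries.coeff 2 g +
      PowerSeries.coeff 1 f * PowerSeries.coeff 1 g +
      PowerSeries.coeff 2 f * PowerSeries.coeff 0 g := by
  rw [PowerSeries.coeff_mul, Finset.Nat.sum_antidiagonal_eq_sum_range_succ_mk]
  simp [Finset.sum_range_succ]

theorem nonneg (f : PowerSeries ℝ) : 0 ≤ nu f := by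
  unfold nu
  positivity

theorem one : nu 1 = 1 := by
  unfold nu
  simp [PowerSeries.coeff_one]

theorem mul_le (f g : PowerSeries ℝ) : nu (f * g) ≤ nu f * nu g := by
  unfold nu
  rw [coeff0, coeff1, coeff2]
  have h1 : |PowerSeries.coeff 0 f * PowerSeries.coeff 1 g +
      PowerSeries.coeff 1 f * PowerSeries.coeff 0 g| ≤
      |PowerSeries.coeff 0 f| * |PowerSeries.coeff 1 g| +
      |PowerSeries.coeff 1 f| * |PowerSeries.coeff 0 g| := by
    rw [← abs_mul, ← abs_mul]
    exact abs_add_le _ _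
  have h2 : |PowerSeries.coeff 0 f * PowerSeries.coeff 2 g +
      PowerSeries.coeff 1 f * PowerSeries.coeff 1 g +
      PowerSeries.coeff 2 f * PowerSeries.coeff 0 g| ≤
      |PowerSeries.coeff 0 f| * |PowerSeries.coeff 2 g| +
      |PowerSeries.coeff 1 f| * |PowerSeries.coeff 1 g| +
      |PowerSeries.coeff 2 f| * |PowerSeries.coeff 0 g| := by
    rw [← abs_mul, ← abs_mul, ← abs_mul]
    exact (abs_add_le _ _).trans (add_le_add_left (abs_add_le _ _) _)
  rw [abs_mul]
  have p0 := abs_nonneg (PowerSeries.coeff 0 f)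
  have p1 := abs_nonneg (PowerSeries.coeff 1 f)
  have p2 := abs_nonneg (PowerSeries.coeff 2 f)
  have q0 := abs_nonneg (PowerSeries.coeff 0 g)
  have q1 := abs_nonneg (PowerSeries.coeff 1 g)
  have q2 := abs_nonneg (PowerSeries.coeff 2 g)
  nlinarith [mul_nonneg p1 q2, mul_nonneg p2 q1, mul_nonneg p2 q2]

theorem coeff_two_le (f : PowerSeries ℝ) : |PowerSeries.coeff 2 f| ≤ nu f := by
  unfold nu
  have p0 := abs_nonneg (PowerSeries.coeff 0 f)
  have p1 := abs_nonneg (PowerSeries.coeff 1 f)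
  linarith

theorem prod_le (s : Finset ℕ) (f : ℕ → PowerSeries ℝ) :
    nu (∏ i ∈ s, f i) ≤ ∏ i ∈ s, nu (f i) := by
  induction s using Finset.induction_on with
  | empty => simp [one]
  | insert i s hi ih =>
    rw [Finset.prod_insert hi, Finset.prod_insert hi]
    exact (mul_le _ _).trans (mul_le_mul_of_nonneg_left ih (nonneg _))

theorem pow_le (f : PowerSeries ℝ) (n : ℕ) : nu (f ^ n) ≤ nu f ^ n := by
  induction n with
  | zero => simp [one]
  | succ n ih =>
    rw [pow_succ, pow_succ]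
    exact (mul_le _ _).trans (mul_le_mul_of_nonneg_right ih (nonneg _))

theorem C_mul (b : ℝ) (f : PowerSeries ℝ) : nu (PowerSeries.C b * f) = |b| * nu f := by
  unfold nu
  rw [PowerSeries.coeff_C_mul, PowerSeries.coeff_C_mul, PowerSeries.coeff_C_mul, abs_mul,
    abs_mul, abs_mul]
  ring

end P_NU

theorem t_NU : S_NU :=
  ⟨P_NU.nonneg, P_NU.one, P_NU.mul_le, P_NU.coeff_two_le, P_NU.prod_le, P_NU.pow_le, P_NU.C_mul⟩

end Pool.Agent.H475.QZ
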