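import Pool.Agent.H475.QZ.Stm

/-!
Bound for `E_a(X_t)`, `t > a`.
-/

namespace Pool.Agent.H475.QZ

open Finset

namespace P_NUE

theorem prod_xx (p : ℤ) (a : ℕ) : ∏ s ∈ Icc 1 a, |xx p s| = ea p a := by
  unfold ea
  induction a with
  | zero => simp
  | succ a ih =>
    rw [Finset.prod_Icc_succ_top (by omega), ih]
    have h1 : (a + 1) * (a + 1 + 1) / 2 = a * (a + 1) / 2 + (a + 1) := by
      have e1 : (a + 1) * (a + 1 + 1) = a * (a + 1) + (a + 1) * 2 := by ring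
      rw [e1, Nat.add_mul_div_right _ _ (by norm_num)]
    rw [h1, pow_add, mul_inv]
    unfold xx
    rw [abs_inv, abs_pow]

theorem sum_half (a t : ℕ) (h : a < t) :
    ∑ s ∈ Icc 1 a, ((1:ℝ) / 2) ^ (t - s) ≤ 2 * (1 / 2) ^ (t - a) := by
  induction a with
  | zero => simp
  | succ a ih =>
    rw [Finset.sum_Icc_succ_top (by omega)]
    have h1 := ih (by omega)
    have h2 : t - a = (t - (a + 1)) + 1 := by omega
    rw [h2, pow_succ] at h1
    linarith

theorem exp_lt : Real.exp (5 / 2) < 13 := by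
  have h1 : Real.exp (5 / 2) ^ 2 = Real.exp 1 ^ 5 := by
    rw [← Real.exp_nat_mul, ← Real.exp_nat_mul]
    norm_num
  have h2 : Real.exp 1 ^ 5 < 13 ^ 2 := by
    calc Real.exp 1 ^ 5 < (2.7182818286 : ℝ) ^ 5 :=
          pow_lt_pow_left₀ Real.exp_one_lt_d9 (Real.exp_pos 1).le (by norm_num)
      _ < 13 ^ 2 := by norm_num
  rw [← h1] at h2
  exact lt_of_pow_lt_pow_left₀ 2 (by norm_num) h2

theorem prod_le (a t : ℕ) (h : a < t) :
    ∏ s ∈ Icc 1 a, (1 + 5 / 2 * ((1:ℝ) / 2) ^ (t - s)) ≤ 13 := by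
  have h1 : ∏ s ∈ Icc 1 a, (1 + 5 / 2 * ((1:ℝ) / 2) ^ (t - s)) ≤
      ∏ s ∈ Icc 1 a, Real.exp (5 / 2 * ((1:ℝ) / 2) ^ (t - s)) := by
    refine Finset.prod_le_prod (fun s _ => by positivity) fun s _ => ?_
    have := Real.add_one_le_exp (5 / 2 * ((1:ℝ) / 2) ^ (t - s))
    linarith
  refine h1.trans ?_
  rw [← Real.exp_sum, ← Finset.mul_sum]
  refine le_trans ?_ exp_lt.le
  rw [Real.exp_le_exp]
  have h2 := sum_half a t h
  have h3 : ((1:ℝ) / 2) ^ (t - a) ≤ (1 / 2) ^ 1 :=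
    pow_le_pow_of_le_one (by norm_num) (by norm_num) (by omega)
  linarith

end P_NUE

open P_NUE in
/-- **Bound for `E_a(X_t)`.** -/
theorem t_NUE (hNU : S_NU) (hNUX : S_NUX) : S_NUE := by
  intro p hp a t hat
  have h1 : Polynomial.aeval (XX p t) (EE p a) =
      ∏ s ∈ Icc 1 a, (XX p t - PowerSeries.C (xx p s)) := by
    unfold EE
    rw [map_prod]
    refine Finset.prod_congr rfl fun s _ => ?_
    rw [map_sub, Polynomial.aeval_X, Polynomial.aeval_C]
    rfl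
  rw [h1]
  refine (hNU.2.2.2.2.1 (Icc 1 a) _).trans ?_
  have h2 : ∏ s ∈ Icc 1 a, nu (XX p t - PowerSeries.C (xx p s)) ≤
      ∏ s ∈ Icc 1 a, (|xx p s| * (1 + 5 / 2 * (1 / 2) ^ (t - s))) := by
    refine Finset.prod_le_prod (fun s _ => hNU.1 _) fun s hs => ?_
    rw [Finset.mem_Icc] at hs
    exact (hNUX p hp).1 s t (by omega)
  refine h2.trans ?_
  rw [Finset.prod_mul_distrib, prod_xx, mul_comm]
  refine mul_le_mul_of_nonneg_right (prod_le a t hat) ?_
  unfold ea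
  positivity

end Pool.Agent.H475.QZ
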