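import Pool.Agent.H475.QZ.Stm

/-! Project QZ: bounds for `X_t - x_s` and `X_t^m`. -/

set_option autoImplicit false

namespace Pool.Agent.H475.QZ

namespace P_NUX

theorem coeff_exp (n : ℕ) : PowerSeries.coeff n (PowerSeries.exp ℝ) = 1 / (Nat.factorial n : ℝ) := by
  rw [PowerSeries.coeff_exp]
  simp

theorem coeff_XX (p : ℤ) (t n : ℕ) :
    PowerSeries.coeff n (XX p t) = xx p t * (1 / (Nat.factorial n : ℝ)) := by
  unfold XX
  rw [PowerSeries.coeff_C_mul, coeff_exp]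

theorem coeff_XX_pow (p : ℤ) (t m n : ℕ) :
    PowerSeries.coeff n (XX p t ^ m) =
      xx p t ^ m * ((m : ℝ) ^ n * (1 / (Nat.factorial n : ℝ))) := by
  unfold XX
  rw [mul_pow, ← map_pow, PowerSeries.coeff_C_mul, PowerSeries.exp_pow_eq_rescale_exp,
    PowerSeries.coeff_rescale, coeff_exp]

theorem xx_le {p : ℤ} (hp : 2 ≤ |p|) {s t : ℕ} (h : s ≤ t) :
    |xx p t| ≤ |xx p s| * (1 / 2) ^ (t - s) := by
  obtain ⟨d, rfl⟩ := Nat.exists_eq_add_of_le h
  have hp' : (2 : ℝ) ≤ |(p : ℝ)| := by exact_mod_cast hp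
  have hp0 : (0 : ℝ) < |(p : ℝ)| := by linarith
  have e1 : s + d - s = d := by omega
  unfold xx
  rw [e1, pow_add, mul_inv, abs_mul]
  refine mul_le_mul_of_nonneg_left ?_ (abs_nonneg _)
  rw [abs_inv, abs_pow, one_div, ← inv_pow]
  exact pow_le_pow_left₀ (by positivity) (inv_anti₀ (by norm_num) hp') d

end P_NUX

open P_NUX

theorem t_NUX (hNU : S_NU) : S_NUX := by
  intro p hp
  refine ⟨fun s t h => ?_, fun t m => ?_⟩
  · unfold nu
    rw [map_sub, map_sub, map_sub, coeff_XX, coeff_XX, coeff_XX, PowerSeries.coeff_C,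
      PowerSeries.coeff_C, PowerSeries.coeff_C, if_pos rfl, if_neg one_ne_zero,
      if_neg two_ne_zero, sub_zero, sub_zero]
    have h1 := xx_le hp h
    have h2 : |xx p t * (1 / (Nat.factorial 0 : ℝ)) - xx p s| ≤ |xx p t| + |xx p s| := by
      rw [Nat.factorial_zero, Nat.cast_one, div_one, mul_one]
      exact abs_sub _ _
    have h3 : |xx p t * (1 / (Nat.factorial 1 : ℝ))| = |xx p t| := by
      rw [Nat.factorial_one, Nat.cast_one, div_one, mul_one]
    have h4 : |xx p t * (1 / (Nat.factorial 2 : ℝ))| = |xx p t| / 2 := by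
      rw [Nat.factorial_two, abs_mul]
      norm_num
      ring
    rw [h3, h4]
    nlinarith
  · unfold nu
    have ha : ∀ z : ℝ, |xx p t ^ m * z| = |xx p t| ^ m * |z| := fun z => by
      rw [abs_mul, abs_pow]
    rw [coeff_XX_pow, coeff_XX_pow, coeff_XX_pow, ha, ha, ha]
    have hm : (0 : ℝ) ≤ m := Nat.cast_nonneg m
    have h0 : |(m : ℝ) ^ 0 * (1 / (Nat.factorial 0 : ℝ))| = 1 := by
      simp
    have h1 : |(m : ℝ) ^ 1 * (1 / (Nat.factorial 1 : ℝ))| = (m : ℝ) := by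
      rw [abs_of_nonneg (by positivity), Nat.factorial_one, pow_one, Nat.cast_one, div_one, mul_one]
    have h2 : |(m : ℝ) ^ 2 * (1 / (Nat.factorial 2 : ℝ))| = (m : ℝ) ^ 2 / 2 := by
      rw [abs_of_nonneg (by positivity), Nat.factorial_two]
      norm_num
      ring
    rw [h0, h1, h2]
    have h3 : (0 : ℝ) ≤ |xx p t| ^ m := by positivity
    have h4 : (1 : ℝ) + m + (m : ℝ) ^ 2 / 2 ≤ ((m : ℝ) + 1) ^ 2 := by nlinarith
    calc |xx p t| ^ m * 1 + |xx p t| ^ m * (m : ℝ) + |xx p t| ^ m * ((m : ℝ) ^ 2 / 2)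
        = |xx p t| ^ m * (1 + m + (m : ℝ) ^ 2 / 2) := by ring
      _ ≤ |xx p t| ^ m * ((m : ℝ) + 1) ^ 2 := mul_le_mul_of_nonneg_left h4 h3

end Pool.Agent.H475.QZ
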