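import Pool.Agent.H475.QZ.Stm

/-! Task CP: the `p`-adic gain. -/

set_option autoImplicit false

namespace Pool.Agent.H475.QZ

open Finset Polynomial

namespace P_CP

theorem pow_sub_ne {p : ℤ} (hp : 2 ≤ |p|) {e : ℕ} (he : 1 ≤ e) : p ^ e - 1 ≠ 0 := by
  intro h
  have h1 : p ^ (e - 1) * p = 1 := by
    rw [← pow_succ, Nat.sub_add_cancel he]
    linarith
  have h2 : IsUnit p := IsUnit.of_mul_eq_one _ (by rw [mul_comm]; exact h1)
  rcases Int.isUnit_iff.1 h2 with h3 | h3 <;> rw [h3] at hp <;> norm_num at hp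

theorem pow_sub_coprime {p : ℤ} {e : ℕ} (he : 1 ≤ e) : IsCoprime (p ^ e - 1) p := by
  refine ⟨-1, p ^ (e - 1), ?_⟩
  rw [← pow_succ, Nat.sub_add_cancel he]
  ring

theorem c_mem {p : ℤ} (hp : 2 ≤ |p|) {e : ℕ} (he : 1 ≤ e) : c p e ∈ RpS p := by
  have h1 := inv_mem_RpS (pow_sub_coprime (p := p) he) (pow_sub_ne hp he)
  have h2 := int_mem_RpS p ((e : ℤ) ^ 2)
  have h3 : c p e = (((e : ℤ) ^ 2 : ℤ) : ℚ) * (((p ^ e - 1 : ℤ) : ℚ))⁻¹ := by
    unfold c
    push_cast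
    rw [div_eq_mul_inv]
  rw [h3]
  exact mul_mem h2 h1

/-- the Vandermonde product is divisible by `p ^ Σ` -/
theorem VV_eq (p : ℤ) (N : ℕ) : ∃ U : ℤ, VV ℚ p N = (p : ℚ) ^ Sg N * (U : ℚ) := by
  induction N with
  | zero => exact ⟨1, by simp [VV, Sg]⟩
  | succ N ih =>
    obtain ⟨U, hU⟩ := ih
    refine ⟨U * ∏ i ∈ range N, (p ^ (N - i) - 1), ?_⟩
    have h1 : VV ℚ p (N + 1) = VV ℚ p N * ∏ i ∈ range N, ((p : ℚ) ^ N - (p : ℚ) ^ i) := by
      unfold VV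
      rw [prod_range_succ]
    have h2 : Sg (N + 1) = Sg N + ∑ i ∈ range N, i := by
      unfold Sg
      rw [sum_range_succ, Nat.add_sub_cancel, Nat.sub_self, mul_zero, add_zero,
        ← sum_add_distrib]
      refine sum_congr rfl fun i hi => ?_
      have h3 : N - i = (N - 1 - i) + 1 := by
        have := mem_range.1 hi
        omega
      rw [h3, mul_add, mul_one]
    have h4 : ∏ i ∈ range N, ((p : ℚ) ^ N - (p : ℚ) ^ i) =
        (p : ℚ) ^ (∑ i ∈ range N, i) * ∏ i ∈ range N, ((p : ℚ) ^ (N - i) - 1) := by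
      rw [← prod_pow_eq_pow_sum, ← prod_mul_distrib]
      refine prod_congr rfl fun i hi => ?_
      have h3 : N = i + (N - i) := by
        have := mem_range.1 hi
        omega
      rw [mul_sub, mul_one, ← pow_add, ← h3]
    rw [h1, h2, h4, hU, pow_add]
    push_cast
    ring

/-- determinants of matrices with entries in the ring -/
theorem det_mem {p : ℤ} {N : ℕ} (T : Matrix (Fin N) (Fin N) ℚ) (hT : ∀ i j, T i j ∈ RpS p) :
    T.det ∈ RpS p := by
  rw [Matrix.det_apply']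
  exact sum_mem fun σ _ => mul_mem (int_mem_RpS p _) (prod_mem fun i _ => hT _ _)

/-- the entries -/
theorem entry_mem (hHR : S_HR) (hHS : S_HS) {p : ℤ} (hp : 2 ≤ |p|) {z : ℚ} {b m : ℤ}
    (hz : (b : ℚ) * z = m) (N i J : ℕ) :
    (b : ℚ) * ∑ k ∈ range N, ((p : ℚ) ^ k) ^ i / pik ℚ p N k * Az p z k J ∈ RpS p := by
  have key : (b : ℚ) * ∑ k ∈ range N, ((p : ℚ) ^ k) ^ i / pik ℚ p N k * Az p z k J =
      (m : ℚ) * ∑ k ∈ range N, (p : ℚ) ^ (k * (i + J)) / pik ℚ p N k -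
      (b : ℚ) * ∑ k ∈ range N, (p : ℚ) ^ (k * (i + J)) * hh p k / pik ℚ p N k -
      (b : ℚ) * ∑ e ∈ Icc 1 J, c p e * ∑ k ∈ range N, (p : ℚ) ^ (k * (i + J - e)) / pik ℚ p N k := by
    have h1 : ∑ e ∈ Icc 1 J, c p e * ∑ k ∈ range N, (p : ℚ) ^ (k * (i + J - e)) / pik ℚ p N k =
        ∑ k ∈ range N, ∑ e ∈ Icc 1 J, c p e * ((p : ℚ) ^ (k * (i + J - e)) / pik ℚ p N k) := by
      rw [sum_comm]
      exact sum_congr rfl fun e _ => mul_sum _ _ _
    rw [h1, mul_sum, mul_sum, mul_sum, mul_sum, ← sum_sub_distrib, ← sum_sub_distrib]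
    refine sum_congr rfl fun k _ => ?_
    have h2 : ∑ e ∈ Icc 1 J, c p e * ((p : ℚ) ^ (k * (i + J - e)) / pik ℚ p N k) =
        (p : ℚ) ^ (k * i) / pik ℚ p N k * ∑ e ∈ Icc 1 J, (p : ℚ) ^ (k * (J - e)) * c p e := by
      rw [mul_sum]
      refine sum_congr rfl fun e he => ?_
      have h3 : k * (i + J - e) = k * i + k * (J - e) := by
        have h4 := (mem_Icc.1 he).2
        rw [Nat.add_sub_assoc h4, mul_add]
      rw [h3, pow_add]
      ring
    rw [h2, ← hz, mul_add k i J, pow_add, ← pow_mul]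
    unfold Az
    ring
  rw [key]
  obtain ⟨n, hn⟩ := hHR p hp N (i + J)
  refine sub_mem (sub_mem (mul_mem (int_mem_RpS p m) ?_) (mul_mem (int_mem_RpS p b) ?_))
    (mul_mem (int_mem_RpS p b) (sum_mem fun e he => mul_mem (c_mem hp (mem_Icc.1 he).1) ?_))
  · rw [hn]
    exact int_mem_RpS p n
  · exact hHS p hp N (i + J)
  · obtain ⟨n', hn'⟩ := hHR p hp N (i + J - e)
    rw [hn']
    exact int_mem_RpS p n'

theorem mem_of_abs {p : ℤ} {x y : ℚ} (h : |x| = |y|) (hy : y ∈ RpS p) : x ∈ RpS p := by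
  rcases abs_eq_abs.1 h with h1 | h1
  · rw [h1]
    exact hy
  · rw [h1]
    exact neg_mem hy

end P_CP

open P_CP in
theorem t_CP (hDET : S_DET) (hHR : S_HR) (hHS : S_HS) : S_CP := by
  intro p hp z b m hz M N
  set S : Matrix (Fin N) (Fin N) ℚ := Matrix.of fun i j : Fin N => ∑ k : Fin N, ∑ l : Fin N,
      ((X : ℚ[X]) ^ (i : ℕ)).eval ((p : ℚ) ^ (k : ℕ)) / pik ℚ p N k * AzM p z M N k l *
        ((X : ℚ[X]) ^ (j : ℕ)).coeff l with hS
  have hdet : |(AzM p z M N).det| = |VV ℚ p N| * |S.det| :=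
    hDET ℚ p hp N (AzM p z M N) (fun i => X ^ (i : ℕ)) (fun i => X ^ (i : ℕ))
      (fun i => ⟨monic_X_pow _, natDegree_X_pow _⟩) (fun i => ⟨monic_X_pow _, natDegree_X_pow _⟩)
  have hSe : ∀ i j, S i j = ∑ k ∈ range N, ((p : ℚ) ^ k) ^ (i : ℕ) / pik ℚ p N k *
      Az p z k (M + (j : ℕ)) := by
    intro i j
    rw [hS, sum_range]
    simp only [Matrix.of_apply]
    refine sum_congr rfl fun k _ => ?_
    rw [sum_eq_single j]
    · rw [coeff_X_pow, if_pos rfl, mul_one, eval_pow, eval_X]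
      rfl
    · intro l _ hl
      rw [coeff_X_pow, if_neg (fun h => hl (Fin.ext h)), mul_zero]
    · intro h
      exact absurd (mem_univ j) h
  have hbS : (b : ℚ) ^ N * S.det ∈ RpS p := by
    have h1 : (b : ℚ) ^ N * S.det = ((b : ℚ) • S).det := by
      rw [Matrix.det_smul, Fintype.card_fin]
    rw [h1]
    refine det_mem _ fun i j => ?_
    rw [Matrix.smul_apply, smul_eq_mul, hSe]
    exact entry_mem hHR hHS hp hz N i (M + (j : ℕ))
  obtain ⟨U, hU⟩ := VV_eq p N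
  have hp0 : (p : ℚ) ≠ 0 := by
    intro h
    have h1 : p = 0 := by exact_mod_cast h
    rw [h1] at hp
    norm_num at hp
  refine mem_of_abs (y := (U : ℚ) * ((b : ℚ) ^ N * S.det)) ?_ (mul_mem (int_mem_RpS p U) hbS)
  have hpS : |(p : ℚ) ^ Sg N| ≠ 0 := abs_ne_zero.2 (pow_ne_zero _ hp0)
  rw [abs_div, abs_mul, hdet, hU, abs_mul, abs_mul, abs_mul]
  field_simp

end Pool.Agent.H475.QZ
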