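import Pool.Agent.H475.QZ.Stm

/-!
The numbers `H_r` are integers (helper997).
-/

set_option autoImplicit false

namespace Pool.Agent.H475.QZ

open Finset

namespace P_HR

/-- the powers of `p` are distinct -/
theorem inj {p : ℤ} (hp : 2 ≤ |p|) : Function.Injective (fun k : ℕ => p ^ k) := by
  intro a b h
  have h1 : |p| ^ a = |p| ^ b := by
    rw [← abs_pow, ← abs_pow]
    exact congrArg _ h
  exact Int.pow_right_injective (by
    have : (|p|.natAbs : ℤ) = |p| := Int.natAbs_of_nonneg (abs_nonneg p)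
    omega) h1

/-- the sign -/
theorem pik_eq (p : ℤ) {N k : ℕ} (hk : k ∈ range N) :
    pik ℚ p N k = (-1) ^ (N - 1) *
      ∏ l ∈ (range N).erase k, ((p : ℚ) ^ k - (p : ℚ) ^ l) := by
  unfold pik
  have h1 : ∀ l ∈ (range N).erase k, ((p : ℚ) ^ l - (p : ℚ) ^ k) =
      (-1) * ((p : ℚ) ^ k - (p : ℚ) ^ l) := by
    intro l _
    ring
  rw [Finset.prod_congr rfl h1, Finset.prod_mul_distrib, Finset.prod_const,
    Finset.card_erase_of_mem hk, Finset.card_range]

end P_HR

theorem t_HR : S_HR := by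
  intro p hp N r
  rcases Nat.eq_zero_or_pos N with rfl | hN
  · exact ⟨0, by simp⟩
  -- the monic polynomial
  let W : Polynomial ℤ := ∏ k ∈ range N, (Polynomial.X - Polynomial.C (p ^ k))
  have hW : W.Monic := Polynomial.monic_prod_of_monic _ _ fun k _ => Polynomial.monic_X_sub_C _
  have hWdeg : W.natDegree = N := by
    show (∏ k ∈ range N, (Polynomial.X - Polynomial.C (p ^ k))).natDegree = N
    rw [Polynomial.natDegree_prod_of_monic _ _ fun k _ => Polynomial.monic_X_sub_C _]
    simp only [Polynomial.natDegree_X_sub_C, sum_const, card_range, smul_eq_mul, mul_one]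
  let P : Polynomial ℤ := (Polynomial.X ^ r) %ₘ W
  have hPdeg : P.degree < (N : WithBot ℕ) := by
    have h1 : P.degree < W.degree := Polynomial.degree_modByMonic_lt _ hW
    rwa [Polynomial.degree_eq_natDegree hW.ne_zero, hWdeg] at h1
  have hPev : ∀ k ∈ range N, P.eval (p ^ k) = p ^ (k * r) := by
    intro k hk
    have h1 : P + W * ((Polynomial.X ^ r) /ₘ W) = Polynomial.X ^ r :=
      Polynomial.modByMonic_add_div _ _
    have h2 := congrArg (Polynomial.eval (p ^ k)) h1
    have h3 : W.eval (p ^ k) = 0 := by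
      show (∏ k ∈ range N, (Polynomial.X - Polynomial.C (p ^ k))).eval (p ^ k) = 0
      rw [Polynomial.eval_prod]
      refine Finset.prod_eq_zero hk ?_
      simp
    rw [Polynomial.eval_add, Polynomial.eval_mul, h3, zero_mul, add_zero, Polynomial.eval_pow,
      Polynomial.eval_X, ← pow_mul] at h2
    exact h2
  let PQ : Polynomial ℚ := P.map (Int.castRingHom ℚ)
  have hPQdeg : PQ.degree < ((range N).card : WithBot ℕ) := by
    rw [card_range]
    exact lt_of_le_of_lt Polynomial.degree_map_le hPdeg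
  have hinj : Set.InjOn (fun k : ℕ => (p : ℚ) ^ k) (range N : Set ℕ) := by
    intro a _ b _ h
    apply P_HR.inj hp
    have h1 : (p : ℚ) ^ a = (p : ℚ) ^ b := h
    exact_mod_cast h1
  have hco := Lagrange.coeff_eq_sum (v := fun k : ℕ => (p : ℚ) ^ k) hinj hPQdeg
  rw [card_range] at hco
  have hPQev : ∀ k ∈ range N, PQ.eval ((p : ℚ) ^ k) = (p : ℚ) ^ (k * r) := by
    intro k hk
    have h1 := hPev k hk
    have h2 : PQ.eval ((p : ℚ) ^ k) = ((P.eval (p ^ k) : ℤ) : ℚ) := by
      show (P.map (Int.castRingHom ℚ)).eval ((p : ℚ) ^ k) = _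
      have h3 : ((p : ℚ) ^ k) = (Int.castRingHom ℚ) (p ^ k) := by
        simp
      rw [h3, Polynomial.eval_map_apply]
      rfl
    rw [h2, h1]
    push_cast
    rfl
  refine ⟨(-1) ^ (N - 1) * P.coeff (N - 1), ?_⟩
  have hc : PQ.coeff (N - 1) = ((P.coeff (N - 1) : ℤ) : ℚ) := by
    show (P.map (Int.castRingHom ℚ)).coeff (N - 1) = _
    rw [Polynomial.coeff_map]
    rfl
  rw [hc] at hco
  push_cast
  rw [hco, Finset.mul_sum]
  refine Finset.sum_congr rfl fun k hk => ?_
  rw [P_HR.pik_eq p hk, hPQev k hk]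
  have hs : ((-1 : ℚ) ^ (N - 1)) * ((-1 : ℚ) ^ (N - 1)) = 1 := by
    rw [← mul_pow]; simp
  generalize ((-1 : ℚ) ^ (N - 1)) = s at hs
  generalize (∏ l ∈ (range N).erase k, ((p : ℚ) ^ k - (p : ℚ) ^ l)) = t
  have hs0 : s ≠ 0 := by
    rintro rfl
    simp at hs
  have hinv : s⁻¹ = s := by
    calc s⁻¹ = s⁻¹ * (s * s) := by rw [hs, mul_one]
      _ = s := by rw [← mul_assoc, inv_mul_cancel₀ hs0, one_mul]
  rw [div_eq_mul_inv, mul_inv, hinv, div_eq_mul_inv]
  ring

end Pool.Agent.H475.QZ
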