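import Pool.Agent.H475.QZ.Stm

/-!
Bound for `D_k` (helper627)
-/

namespace Pool.Agent.H475.QZ

open Finset Polynomial

theorem t_DK (hPHI : S_PHI) (hTOT : S_TOT) : S_DK := by
  intro p hp k
  have hp1 : 1 ≤ |p| := by linarith
  have h1 : |D p k| ≤ |p| ^ (2 * k + ∑ i ∈ Icc 1 k, Nat.totient i) := by
    unfold D
    rw [Finset.abs_prod]
    calc ∏ i ∈ Icc 1 k, |(Polynomial.cyclotomic i ℤ).eval p|
        ≤ ∏ i ∈ Icc 1 k, (|p| ^ 2 * |p| ^ Nat.totient i) := by
          refine Finset.prod_le_prod (fun i _ => abs_nonneg _) fun i hi => ?_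
          refine (hPHI p i hp (Finset.mem_Icc.1 hi).1).trans ?_
          refine mul_le_mul_of_nonneg_right ?_ (by positivity)
          nlinarith
      _ = |p| ^ (2 * k + ∑ i ∈ Icc 1 k, Nat.totient i) := by
          rw [Finset.prod_mul_distrib, Finset.prod_const, Nat.card_Icc, Nat.add_sub_cancel,
            ← pow_mul, Finset.prod_pow_eq_pow_sum, pow_add]
  have h2 := hTOT k
  calc |D p k| ^ 25 ≤ (|p| ^ (2 * k + ∑ i ∈ Icc 1 k, Nat.totient i)) ^ 25 :=
        pow_le_pow_left₀ (abs_nonneg _) h1 25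
    _ = |p| ^ ((2 * k + ∑ i ∈ Icc 1 k, Nat.totient i) * 25) := by rw [← pow_mul]
    _ ≤ |p| ^ (50 * k + 8 * (k + 30) * (k + 60)) := pow_le_pow_right₀ hp1 (by omega)

end Pool.Agent.H475.QZ
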