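import Pool.Agent.H475.QZ.Stm

namespace Pool.Agent.H475.QZ

open Finset Polynomial

namespace P_FIN

theorem cyc_ne_zero (p : ℤ) (hp : 2 ≤ |p|) (n : ℕ) (hn : 1 ≤ n) :
    (Polynomial.cyclotomic n ℤ).eval p ≠ 0 := by
  intro h
  have h1 : (Polynomial.cyclotomic n ℤ).eval p ∣ (Polynomial.X ^ n - 1 : Polynomial ℤ).eval p :=
    Polynomial.eval_dvd (Polynomial.cyclotomic.dvd_X_pow_sub_one n ℤ)
  rw [h] at h1
  simp only [Polynomial.eval_sub, Polynomial.eval_pow, Polynomial.eval_X, Polynomial.eval_one,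
    zero_dvd_iff] at h1
  have h2 : |p| ^ n = 1 := by
    rw [← abs_pow, sub_eq_zero.mp h1, abs_one]
  have h3 : (2 : ℤ) ≤ |p| ^ n :=
    le_trans hp (le_self_pow₀ (by omega) (by omega))
  omega

theorem D_ne_zero (p : ℤ) (hp : 2 ≤ |p|) (k : ℕ) : D p k ≠ 0 := by
  unfold D
  rw [Finset.prod_ne_zero_iff]
  intro i hi
  exact cyc_ne_zero p hp i (Finset.mem_Icc.mp hi).1

theorem DD_ne_zero (p : ℤ) (hp : 2 ≤ |p|) (M N : ℕ) : DD p M N ≠ 0 := by
  unfold DD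
  refine mul_ne_zero ?_ ?_
  · rw [Finset.prod_ne_zero_iff]
    intro i _
    exact pow_ne_zero _ (D_ne_zero p hp i)
  · rw [Finset.prod_ne_zero_iff]
    intro i _
    exact D_ne_zero p hp _

theorem sum_aux (n : ℤ) (N : ℕ) :
    6 * ∑ i ∈ range N, (i : ℤ) * (n - i) = 3 * n * N * (N - 1) - (N - 1) * N * (2 * N - 1) := by
  induction N with
  | zero => simp
  | succ N ih =>
    rw [Finset.sum_range_succ, mul_add, ih]
    push_cast
    ring

theorem Sg_eq (N : ℕ) : (6 * (Sg N : ℤ)) = N * (N - 1) * (N - 2) := by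
  have h : ((Sg N : ℕ) : ℤ) = ∑ i ∈ range N, (i : ℤ) * (((N : ℤ) - 1) - i) := by
    unfold Sg
    push_cast
    refine Finset.sum_congr rfl fun i hi => ?_
    have hi' := Finset.mem_range.mp hi
    have : ((N - 1 - i : ℕ) : ℤ) = (N : ℤ) - 1 - i := by omega
    rw [this]
  rw [h, sum_aux]
  ring

end P_FIN

open P_FIN in
theorem t_FIN (hCF : S_CF) (hINT : S_INT) (hCP : S_CP) (hDDB : S_DDB) (hUP : S_UP)
    (hNZ : S_NZ) : S_FIN := by
  intro p hp hrat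
  obtain ⟨z, hz⟩ := hrat
  obtain ⟨M, hM⟩ := hNZ p hp
  obtain ⟨C, hC⟩ := hUP p hp M
  obtain ⟨C', hC'⟩ := hDDB p hp M
  set b : ℕ := z.den with hbdef
  have hb1 : 1 ≤ b := z.den_pos
  have hbz : ((b : ℤ) : ℚ) * z = (z.num : ℤ) := by
    have := Rat.mul_den_eq_num z
    rw [mul_comm] at this
    push_cast
    exact_mod_cast this
  obtain ⟨K, hK⟩ : ∃ K : ℕ, K = 225 + 25 * C + 2 * C' + 150 * b + 1 := ⟨_, rfl⟩
  have hK1 : 1 ≤ K := by omega
  obtain ⟨N, hN⟩ : ∃ N : ℕ, N = 3 * K := ⟨_, rfl⟩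
  have hpR : (2 : ℝ) ≤ |(p : ℝ)| := by exact_mod_cast hp
  have hp1 : (1 : ℝ) < |(p : ℝ)| := by linarith
  have hp0 : (p : ℝ) ≠ 0 := by
    intro h
    rw [h, abs_zero] at hpR
    linarith
  have hpZ : p ≠ 0 := by
    intro h
    rw [h] at hp
    simp at hp
  -- the real matrix is the image of the rational one
  have hA : A p M N = (AzM p z M N).map (algebraMap ℚ ℝ) := by
    ext k j
    simp only [A, AzM, Matrix.of_apply, Matrix.map_apply, Az, hCF p hp, ← hz]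
    simp
  have hdet : (A p M N).det = (((AzM p z M N).det : ℚ) : ℝ) := by
    rw [hA, ← RingHom.mapMatrix_apply, ← RingHom.map_det]
    simp
  obtain ⟨X, hX⟩ := hINT p hp z b z.num hbz M N
  have hXR : (X : ℝ) = (b : ℝ) ^ N * (A p M N).det * (DD p M N : ℝ) := by
    rw [hdet]
    have h := congrArg (fun x : ℚ => (x : ℝ)) hX
    simp only [Rat.cast_mul, Rat.cast_pow, Rat.cast_intCast] at h
    simpa only [Int.cast_natCast] using h
  have hX0 : X ≠ 0 := by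
    intro h
    rw [h] at hXR
    have h1 : (b : ℝ) ^ N * (A p M N).det * (DD p M N : ℝ) ≠ 0 := by
      refine mul_ne_zero (mul_ne_zero ?_ (hN ▸ hM K)) ?_
      · exact pow_ne_zero _ (by positivity)
      · exact_mod_cast DD_ne_zero p hp M N
    exact h1 (by rw [← hXR]; simp)
  -- divisibility
  have hdvd : p ^ Sg N ∣ X := by
    obtain ⟨n, m', hn, hm'⟩ := hCP p hp z b z.num hbz M N
    have hps : (p : ℚ) ^ Sg N ≠ 0 := pow_ne_zero _ (by exact_mod_cast hpZ)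
    have h1 : (n : ℚ) * (X : ℚ) = (p : ℚ) ^ Sg N * ((m' : ℚ) * (DD p M N : ℚ)) := by
      rw [hX, ← hm']
      field_simp
    have h2 : n * X = p ^ Sg N * (m' * DD p M N) := by exact_mod_cast h1
    have h3 : p ^ Sg N ∣ n * X := ⟨_, h2⟩
    exact (IsCoprime.pow_left hn.symm).dvd_of_dvd_mul_left h3
  have hlow : (|(p : ℝ)|) ^ Sg N ≤ |(X : ℝ)| := by
    have h1 : |p ^ Sg N| ≤ |X| := by
      obtain ⟨y, hy⟩ := hdvd
      have hy0 : y ≠ 0 := by
        rintro rfl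
        exact hX0 (by simpa using hy)
      rw [hy, abs_mul]
      exact le_mul_of_one_le_right (abs_nonneg _) (Int.one_le_abs hy0)
    rw [abs_pow] at h1
    exact_mod_cast h1
  -- the main inequality
  have hup := hC K hK1
  rw [← hN] at hup
  have hDb : |(DD p M N : ℝ)| ^ 25 ≤ |(p : ℝ)| ^ (288 * K ^ 3 + C' * K ^ 2) := by
    have h := hC' K hK1
    rw [← hN] at h
    exact_mod_cast h
  have hbb : (b : ℝ) ^ (50 * N) ≤ |(p : ℝ)| ^ (150 * b * K) := by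
    have h1 : (b : ℝ) ≤ |(p : ℝ)| ^ b := by
      have h2 : (b : ℝ) ≤ 2 ^ b := by
        exact_mod_cast (Nat.lt_two_pow_self (n := b)).le
      exact h2.trans (pow_le_pow_left₀ (by norm_num) hpR b)
    calc (b : ℝ) ^ (50 * N) ≤ (|(p : ℝ)| ^ b) ^ (50 * N) :=
          pow_le_pow_left₀ (by positivity) h1 _
      _ = |(p : ℝ)| ^ (150 * b * K) := by
          rw [← pow_mul, hN]; congr 1; ring
  have key : |(p : ℝ)| ^ (50 * Sg N + 375 * K ^ 3) ≤
      |(p : ℝ)| ^ (150 * b * K + 25 * (C * K ^ 2) + 2 * (288 * K ^ 3 + C' * K ^ 2)) := by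
    have e1 : |(p : ℝ)| ^ (50 * Sg N + 375 * K ^ 3) =
        (|(p : ℝ)| ^ Sg N) ^ 50 * |(p : ℝ)| ^ (375 * K ^ 3) := by
      rw [pow_add, ← pow_mul, mul_comm 50]
    have e2 : |(X : ℝ)| ^ 50 * |(p : ℝ)| ^ (375 * K ^ 3) =
        (b : ℝ) ^ (50 * N) * (|(A p M N).det| ^ 2 * |(p : ℝ)| ^ (15 * K ^ 3)) ^ 25 *
          (|(DD p M N : ℝ)| ^ 25) ^ 2 := by
      rw [hXR, abs_mul, abs_mul, abs_pow, Nat.abs_cast]
      ring
    rw [e1]
    calc (|(p : ℝ)| ^ Sg N) ^ 50 * |(p : ℝ)| ^ (375 * K ^ 3)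
        ≤ |(X : ℝ)| ^ 50 * |(p : ℝ)| ^ (375 * K ^ 3) := by
          gcongr
      _ = _ := e2
      _ ≤ |(p : ℝ)| ^ (150 * b * K) * (|(p : ℝ)| ^ (C * K ^ 2)) ^ 25 *
          (|(p : ℝ)| ^ (288 * K ^ 3 + C' * K ^ 2)) ^ 2 := by
          gcongr
      _ = _ := by
          rw [← pow_mul, ← pow_mul, ← pow_add, ← pow_add]
          congr 1; ring
  have key2 := (pow_le_pow_iff_right₀ hp1).mp key
  have hSg : (50 * (Sg N : ℤ)) ≥ 225 * (K : ℤ) ^ 3 - 225 * (K : ℤ) ^ 2 := by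
    have h := Sg_eq N
    have hNK : (N : ℤ) = 3 * (K : ℤ) := by rw [hN]; push_cast; ring
    rw [hNK] at h
    nlinarith [h, (by positivity : (0 : ℤ) ≤ (K : ℤ))]
  have key3 : (50 * (Sg N : ℤ)) + 375 * (K : ℤ) ^ 3 ≤
      150 * b * K + 25 * (C * (K : ℤ) ^ 2) + 2 * (288 * (K : ℤ) ^ 3 + C' * (K : ℤ) ^ 2) := by
    exact_mod_cast key2
  have hKZ : (K : ℤ) = 225 + 25 * C + 2 * C' + 150 * b + 1 := by
    rw [hK]; push_cast; ring
  have hKpos : (1 : ℤ) ≤ K := by exact_mod_cast hK1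
  have hbK : (b : ℤ) * K ≤ b * (K : ℤ) ^ 2 := by
    have : (0 : ℤ) ≤ b := by positivity
    nlinarith
  have key4 : 24 * (K : ℤ) ^ 3 ≤ (225 + 25 * C + 2 * C' + 150 * b) * (K : ℤ) ^ 2 := by
    nlinarith
  have key5 : (225 + 25 * C + 2 * C' + 150 * b : ℤ) = (K : ℤ) - 1 := by rw [hKZ]; ring
  rw [key5] at key4
  nlinarith [pow_pos (lt_of_lt_of_le one_pos hKpos) 3, pow_pos (lt_of_lt_of_le one_pos hKpos) 2]

end Pool.Agent.H475.QZ
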