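import Pool.Agent.H475.QZ.Stm

/-!
Proof of `S_HS` (helper115).
-/

set_option autoImplicit false

namespace Pool.Agent.H475.QZ

open Finset Polynomial

namespace P_HS

variable {p : ℤ}

theorem pow_sub_ne (hp : 2 ≤ |p|) {f : ℕ} (hf : 1 ≤ f) : p ^ f - 1 ≠ 0 := by
  intro h
  have h1 : p ^ f = 1 := sub_eq_zero.1 h
  have h2 : |p| ^ f = 1 := by rw [← abs_pow, h1, abs_one]
  have h3 : |p| ≤ |p| ^ f := le_self_pow₀ (by linarith) (by omega)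
  linarith

theorem cop {f : ℕ} (hf : 1 ≤ f) : IsCoprime (p ^ f - 1) p := by
  refine ⟨-1, p ^ (f - 1), ?_⟩
  have h : p ^ (f - 1) * p = p ^ f := by rw [← pow_succ, Nat.sub_add_cancel hf]
  linear_combination h

theorem inv_mem (hp : 2 ≤ |p|) {f : ℕ} (hf : 1 ≤ f) : ((p : ℚ) ^ f - 1)⁻¹ ∈ RpS p := by
  have h := inv_mem_RpS (cop hf) (pow_sub_ne hp hf)
  push_cast at h
  exact h

theorem p_mem : (p : ℚ) ∈ RpS p := int_mem_RpS p p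

theorem p_ne (hp : 2 ≤ |p|) : (p : ℚ) ≠ 0 := by
  have h : p ≠ 0 := by
    rintro rfl
    rw [abs_zero] at hp
    linarith
  exact_mod_cast h

theorem q_ne (hp : 2 ≤ |p|) {f : ℕ} (hf : 1 ≤ f) : (p : ℚ) ^ f - 1 ≠ 0 := by
  have h := pow_sub_ne hp hf
  exact_mod_cast h

/-- the polynomial `w` -/
def w (F : ℕ) (y : ℚ) : ℚ :=
  ((F : ℚ) + 1) ^ 2 - (2 * (F : ℚ) ^ 2 + 2 * F - 1) * y + (F : ℚ) ^ 2 * y ^ 2

theorem w_mem (F : ℕ) {y : ℚ} (hy : y ∈ RpS p) : w F y ∈ RpS p := by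
  have hF : (F : ℚ) ∈ RpS p := natCast_mem _ F
  have h1 : (1 : ℚ) ∈ RpS p := one_mem _
  have h2 : (2 : ℚ) ∈ RpS p := by
    have := natCast_mem (RpS p) 2
    exact_mod_cast this
  unfold w
  refine add_mem (sub_mem (pow_mem (add_mem hF h1) 2) (mul_mem ?_ hy))
    (mul_mem (pow_mem hF 2) (pow_mem hy 2))
  exact sub_mem (add_mem (mul_mem h2 (pow_mem hF 2)) (mul_mem h2 hF)) h1

theorem geo (F : ℕ) (y : ℚ) : (1 - y) ^ 3 * ∑ f ∈ Icc 1 F, (f : ℚ) ^ 2 * y ^ f =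
    y * (1 + y) - y ^ (F + 1) * w F y := by
  induction F with
  | zero =>
    rw [Icc_eq_empty (by norm_num), sum_empty]
    simp only [w, Nat.cast_zero]
    ring
  | succ F ih =>
    rw [sum_Icc_succ_top (by omega), mul_add, ih]
    simp only [w]
    push_cast
    ring

theorem term (hp : 2 ≤ |p|) {l : ℕ} (hl : 1 ≤ l) (F : ℕ) :
    (p : ℚ) ^ l * ((p : ℚ) ^ l + 1) / ((p : ℚ) ^ l - 1) ^ 3 =
      -(∑ f ∈ Icc 1 F, (f : ℚ) ^ 2 * ((p : ℚ) ^ l) ^ f) +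
        ((p : ℚ) ^ l) ^ (F + 1) * w F ((p : ℚ) ^ l) * (((p : ℚ) ^ l - 1)⁻¹) ^ 3 := by
  have h1 := geo F ((p : ℚ) ^ l)
  have h2 : (((p : ℚ) ^ l - 1)⁻¹) * ((p : ℚ) ^ l - 1) = 1 := inv_mul_cancel₀ (q_ne hp hl)
  rw [div_eq_mul_inv, ← inv_pow]
  generalize (p : ℚ) ^ l = y at h1 h2 ⊢
  generalize (y - 1)⁻¹ = u at h2 ⊢
  generalize ∑ f ∈ Icc 1 F, (f : ℚ) ^ 2 * y ^ f = g at h1 ⊢
  have h3 : (u * (y - 1)) ^ 3 = 1 := by rw [h2, one_pow]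
  linear_combination (-u ^ 3) * h1 - g * h3

theorem gs (hp : 2 ≤ |p|) {f : ℕ} (hf : 1 ≤ f) (k : ℕ) :
    ∑ l ∈ Icc 1 k, ((p : ℚ) ^ l) ^ f =
      (p : ℚ) ^ f * ((p : ℚ) ^ (k * f) - 1) * (((p : ℚ) ^ f - 1)⁻¹) := by
  have h2 : (((p : ℚ) ^ f - 1)⁻¹) * ((p : ℚ) ^ f - 1) = 1 := inv_mul_cancel₀ (q_ne hp hf)
  induction k with
  | zero =>
    rw [Icc_eq_empty (by norm_num), sum_empty, zero_mul, pow_zero, sub_self, mul_zero, zero_mul]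
  | succ k ih =>
    rw [sum_Icc_succ_top (by omega), ih]
    have h3 : ((p : ℚ) ^ (k + 1)) ^ f = (p : ℚ) ^ (k * f) * (p : ℚ) ^ f := by
      rw [← pow_mul, ← pow_add]
      congr 1
      ring
    have h4 : (p : ℚ) ^ ((k + 1) * f) = (p : ℚ) ^ (k * f) * (p : ℚ) ^ f := by
      rw [← pow_add]
      congr 1
      ring
    rw [h3, h4]
    linear_combination (-(p : ℚ) ^ (k * f) * (p : ℚ) ^ f) * h2

/-- the remainder -/
def Rm (p : ℤ) (F k : ℕ) : ℚ :=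
  ∑ l ∈ Icc 1 k, ((p : ℚ) ^ l) ^ (F + 1) * w F ((p : ℚ) ^ l) * (((p : ℚ) ^ l - 1)⁻¹) ^ 3

theorem hh_eq (hp : 2 ≤ |p|) (F k : ℕ) : hh p k =
    -(∑ f ∈ Icc 1 F, (f : ℚ) ^ 2 * ((p : ℚ) ^ f * ((p : ℚ) ^ (k * f) - 1) *
      (((p : ℚ) ^ f - 1)⁻¹))) + Rm p F k := by
  unfold hh
  have h1 : ∀ l ∈ Icc 1 k, (p : ℚ) ^ l * ((p : ℚ) ^ l + 1) / ((p : ℚ) ^ l - 1) ^ 3 =
      -(∑ f ∈ Icc 1 F, (f : ℚ) ^ 2 * ((p : ℚ) ^ l) ^ f) +
        ((p : ℚ) ^ l) ^ (F + 1) * w F ((p : ℚ) ^ l) * (((p : ℚ) ^ l - 1)⁻¹) ^ 3 := by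
    intro l hl
    exact term hp (mem_Icc.1 hl).1 F
  rw [sum_congr rfl h1, sum_add_distrib, sum_neg_distrib, sum_comm]
  congr 2
  refine sum_congr rfl fun f hf => ?_
  rw [← mul_sum, gs hp (mem_Icc.1 hf).1]

theorem pi_mem (hp : 2 ≤ |p|) {N k : ℕ} (hk : k < N) {E : ℕ} (hE : N * N ≤ E) :
    (p : ℚ) ^ E * (pik ℚ p N k)⁻¹ ∈ RpS p := by
  have h1 : ∀ l ∈ (range N).erase k, (p : ℚ) ^ N * ((p : ℚ) ^ l - (p : ℚ) ^ k)⁻¹ ∈ RpS p := by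
    intro l hl
    obtain ⟨hlk, hlN⟩ := mem_erase.1 hl
    rw [mem_range] at hlN
    have hp0 := p_ne hp
    rcases lt_or_gt_of_ne hlk with h | h
    · have e1 : (p : ℚ) ^ l - (p : ℚ) ^ k = -((p : ℚ) ^ l * ((p : ℚ) ^ (k - l) - 1)) := by
        have e2 : (p : ℚ) ^ k = (p : ℚ) ^ l * (p : ℚ) ^ (k - l) := by
          rw [← pow_add, Nat.add_sub_cancel' h.le]
        rw [e2]
        ring
      have e3 : (p : ℚ) ^ N = (p : ℚ) ^ l * (p : ℚ) ^ (N - l) := by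
        rw [← pow_add, Nat.add_sub_cancel' hlN.le]
      have e4 : (p : ℚ) ^ N * ((p : ℚ) ^ l - (p : ℚ) ^ k)⁻¹ =
          -((p : ℚ) ^ (N - l) * ((p : ℚ) ^ (k - l) - 1)⁻¹) := by
        rw [e1, e3, inv_neg, mul_inv]
        have e5 : (p : ℚ) ^ l * ((p : ℚ) ^ l)⁻¹ = 1 := mul_inv_cancel₀ (pow_ne_zero _ hp0)
        linear_combination (-(p : ℚ) ^ (N - l) * ((p : ℚ) ^ (k - l) - 1)⁻¹) * e5
      rw [e4]
      exact neg_mem (mul_mem (pow_mem p_mem _) (inv_mem hp (by omega)))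
    · have e1 : (p : ℚ) ^ l - (p : ℚ) ^ k = (p : ℚ) ^ k * ((p : ℚ) ^ (l - k) - 1) := by
        have e2 : (p : ℚ) ^ l = (p : ℚ) ^ k * (p : ℚ) ^ (l - k) := by
          rw [← pow_add, Nat.add_sub_cancel' h.le]
        rw [e2]
        ring
      have e3 : (p : ℚ) ^ N = (p : ℚ) ^ k * (p : ℚ) ^ (N - k) := by
        rw [← pow_add, Nat.add_sub_cancel' hk.le]
      have e4 : (p : ℚ) ^ N * ((p : ℚ) ^ l - (p : ℚ) ^ k)⁻¹ =
          (p : ℚ) ^ (N - k) * ((p : ℚ) ^ (l - k) - 1)⁻¹ := by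
        rw [e1, e3, mul_inv]
        have e5 : (p : ℚ) ^ k * ((p : ℚ) ^ k)⁻¹ = 1 := mul_inv_cancel₀ (pow_ne_zero _ hp0)
        linear_combination ((p : ℚ) ^ (N - k) * ((p : ℚ) ^ (l - k) - 1)⁻¹) * e5
      rw [e4]
      exact mul_mem (pow_mem p_mem _) (inv_mem hp (by omega))
  have h2 := prod_mem h1
  rw [prod_mul_distrib, prod_const, prod_inv_distrib] at h2
  have hcard : ((range N).erase k).card ≤ N := (card_erase_le).trans_eq (card_range N)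
  have h3 : N * ((range N).erase k).card ≤ E := (Nat.mul_le_mul_left N hcard).trans hE
  have h4 : (p : ℚ) ^ E = (p : ℚ) ^ (E - N * ((range N).erase k).card) *
      ((p : ℚ) ^ N) ^ ((range N).erase k).card := by
    rw [← pow_mul, ← pow_add, Nat.sub_add_cancel h3]
  rw [h4, mul_assoc]
  exact mul_mem (pow_mem p_mem _) h2

theorem Rm_mem (hp : 2 ≤ |p|) {N k : ℕ} (hk : k < N) (d : ℕ) :
    (p : ℚ) ^ (k * d) * Rm p (N * N) k * (pik ℚ p N k)⁻¹ ∈ RpS p := by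
  unfold Rm
  rw [mul_sum, sum_mul]
  refine sum_mem fun l hl => ?_
  have hl1 := (mem_Icc.1 hl).1
  have e1 : (p : ℚ) ^ (k * d) * (((p : ℚ) ^ l) ^ (N * N + 1) * w (N * N) ((p : ℚ) ^ l) *
      (((p : ℚ) ^ l - 1)⁻¹) ^ 3) * (pik ℚ p N k)⁻¹ =
      (p : ℚ) ^ (k * d) * ((p : ℚ) ^ (l - 1)) ^ (N * N + 1) * w (N * N) ((p : ℚ) ^ l) *
      (((p : ℚ) ^ l - 1)⁻¹) ^ 3 * ((p : ℚ) ^ (N * N + 1) * (pik ℚ p N k)⁻¹) := by
    have e2 : ((p : ℚ) ^ l) ^ (N * N + 1) =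
        ((p : ℚ) ^ (l - 1)) ^ (N * N + 1) * (p : ℚ) ^ (N * N + 1) := by
      rw [← mul_pow, ← pow_succ, Nat.sub_add_cancel hl1]
    rw [e2]
    ring
  rw [e1]
  refine mul_mem (mul_mem (mul_mem (mul_mem (pow_mem p_mem _) (pow_mem (pow_mem p_mem _) _))
    (w_mem _ (pow_mem p_mem _))) (pow_mem (inv_mem hp hl1) 3)) (pi_mem hp hk (by omega))

end P_HS

open P_HS in
theorem t_HS (hHR : S_HR) : S_HS := by
  intro p hp N d
  have hH : ∀ r, ∑ k ∈ range N, (p : ℚ) ^ (k * r) / pik ℚ p N k ∈ RpS p := by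
    intro r
    obtain ⟨n, hn⟩ := hHR p hp N r
    rw [hn]
    exact int_mem_RpS p n
  have e1 : ∀ k ∈ range N, (p : ℚ) ^ (k * d) * hh p k / pik ℚ p N k =
      -(∑ f ∈ Icc 1 (N * N), (f : ℚ) ^ 2 * (p : ℚ) ^ f * (((p : ℚ) ^ f - 1)⁻¹) *
        ((p : ℚ) ^ (k * (d + f)) / pik ℚ p N k - (p : ℚ) ^ (k * d) / pik ℚ p N k)) +
      (p : ℚ) ^ (k * d) * Rm p (N * N) k * (pik ℚ p N k)⁻¹ := by
    intro k _
    rw [hh_eq hp (N * N) k, div_eq_mul_inv, mul_add, add_mul]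
    congr 1
    rw [mul_neg, neg_mul, mul_sum, sum_mul]
    congr 1
    refine sum_congr rfl fun f _ => ?_
    rw [mul_add k d f, pow_add]
    ring
  rw [sum_congr rfl e1, sum_add_distrib, sum_neg_distrib, sum_comm]
  refine add_mem (neg_mem (sum_mem fun f hf => ?_)) (sum_mem fun k hk => ?_)
  · rw [← mul_sum, sum_sub_distrib]
    exact mul_mem (mul_mem (mul_mem (pow_mem (natCast_mem _ f) 2) (pow_mem p_mem _))
      (inv_mem hp (mem_Icc.1 hf).1)) (sub_mem (hH _) (hH _))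
  · exact Rm_mem hp (mem_range.1 hk) d

end Pool.Agent.H475.QZ
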