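import Pool.Agent.H475.QZ.Stm

/-!
Integrality of the determinant.
-/

namespace Pool.Agent.H475.QZ

open Finset Polynomial

namespace P_INT

/-- the integers as a subring of the rational numbers -/
def ZZ : Subring ℚ := (Int.castRingHom ℚ).range

theorem int_mem (n : ℤ) : (n : ℚ) ∈ ZZ := ⟨n, rfl⟩

theorem pow_mem' (p : ℤ) (n : ℕ) : (p : ℚ) ^ n ∈ ZZ := ZZ.pow_mem (int_mem p) n

theorem pow_sub_ne {p : ℤ} (hp : 2 ≤ |p|) {e : ℕ} (he : 1 ≤ e) : (p : ℚ) ^ e - 1 ≠ 0 := by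
  intro h
  have h1 : (p : ℚ) ^ e = 1 := sub_eq_zero.1 h
  have h2 : p ^ e = 1 := by exact_mod_cast h1
  have h3 : |p| ^ e = 1 := by rw [← abs_pow, h2, abs_one]
  have h4 : 1 < |p| ^ e := one_lt_pow₀ (by linarith) (by omega)
  linarith

theorem quot_mem {p : ℤ} (hp : 2 ≤ |p|) (hB1 : S_B1) {k e : ℕ} (he : 1 ≤ e) (hk : e ≤ k) :
    (D p k : ℚ) / ((p : ℚ) ^ e - 1) ∈ ZZ := by
  obtain ⟨n, hn⟩ := hB1 p k e he hk
  refine ⟨n, ?_⟩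
  have h1 : (D p k : ℚ) = ((p : ℚ) ^ e - 1) * n := by
    rw [hn]; push_cast; ring
  rw [h1, mul_div_cancel_left₀ _ (pow_sub_ne hp he)]
  rfl

theorem hh_mem {p : ℤ} (hp : 2 ≤ |p|) (hB1 : S_B1) (k : ℕ) :
    (D p k : ℚ) ^ 3 * hh p k ∈ ZZ := by
  unfold hh
  rw [Finset.mul_sum]
  refine ZZ.sum_mem fun l hl => ?_
  rw [Finset.mem_Icc] at hl
  have h1 : (D p k : ℚ) ^ 3 * ((p : ℚ) ^ l * ((p : ℚ) ^ l + 1) / ((p : ℚ) ^ l - 1) ^ 3) =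
      (p : ℚ) ^ l * ((p : ℚ) ^ l + 1) * ((D p k : ℚ) / ((p : ℚ) ^ l - 1)) ^ 3 := by
    rw [div_pow]; ring
  rw [h1]
  exact ZZ.mul_mem (ZZ.mul_mem (pow_mem' p l) (ZZ.add_mem (pow_mem' p l) ZZ.one_mem))
    (ZZ.pow_mem (quot_mem hp hB1 hl.1 hl.2) 3)

theorem c_mem {p : ℤ} (hp : 2 ≤ |p|) (hB1 : S_B1) {J e : ℕ} (he : 1 ≤ e) (hJ : e ≤ J) :
    (D p J : ℚ) * c p e ∈ ZZ := by
  unfold c
  have h1 : (D p J : ℚ) * ((e : ℚ) ^ 2 / ((p : ℚ) ^ e - 1)) =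
      (e : ℚ) ^ 2 * ((D p J : ℚ) / ((p : ℚ) ^ e - 1)) := by ring
  rw [h1]
  refine ZZ.mul_mem (ZZ.pow_mem ?_ 2) (quot_mem hp hB1 he hJ)
  exact_mod_cast int_mem (e : ℤ)

theorem entry_mem {p : ℤ} (hp : 2 ≤ |p|) (hB1 : S_B1) {z : ℚ} {b m : ℤ} (hz : (b : ℚ) * z = m)
    (k J : ℕ) : (b : ℚ) * (D p k : ℚ) ^ 3 * ((D p J : ℚ) * Az p z k J) ∈ ZZ := by
  have h1 : (b : ℚ) * (D p k : ℚ) ^ 3 * ((D p J : ℚ) * Az p z k J) =
      (D p k : ℚ) ^ 3 * (D p J : ℚ) * (p : ℚ) ^ (k * J) * m -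
        (b : ℚ) * (D p J : ℚ) * (p : ℚ) ^ (k * J) * ((D p k : ℚ) ^ 3 * hh p k) -
        (b : ℚ) * (D p k : ℚ) ^ 3 *
          ∑ e ∈ Icc 1 J, (p : ℚ) ^ (k * (J - e)) * ((D p J : ℚ) * c p e) := by
    unfold Az
    have h2 : ∑ e ∈ Icc 1 J, (p : ℚ) ^ (k * (J - e)) * ((D p J : ℚ) * c p e) =
        (D p J : ℚ) * ∑ e ∈ Icc 1 J, (p : ℚ) ^ (k * (J - e)) * c p e := by
      rw [Finset.mul_sum]
      exact Finset.sum_congr rfl fun e _ => by ring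
    rw [h2, ← hz]
    ring
  rw [h1]
  have hD : ∀ k, (D p k : ℚ) ∈ ZZ := fun k => int_mem _
  refine ZZ.sub_mem (ZZ.sub_mem ?_ ?_) ?_
  · exact ZZ.mul_mem (ZZ.mul_mem (ZZ.mul_mem (ZZ.pow_mem (hD k) 3) (hD J)) (pow_mem' p _))
      (int_mem m)
  · exact ZZ.mul_mem (ZZ.mul_mem (ZZ.mul_mem (int_mem b) (hD J)) (pow_mem' p _))
      (hh_mem hp hB1 k)
  · refine ZZ.mul_mem (ZZ.mul_mem (int_mem b) (ZZ.pow_mem (hD k) 3)) (ZZ.sum_mem fun e he => ?_)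
    rw [Finset.mem_Icc] at he
    exact ZZ.mul_mem (pow_mem' p _) (c_mem hp hB1 he.1 he.2)

end P_INT

open P_INT in
theorem t_INT (hB1 : S_B1) : S_INT := by
  intro p hp z b m hz M N
  choose Y hY using fun k J => entry_mem hp hB1 hz k J
  let YM : Matrix (Fin N) (Fin N) ℤ := Matrix.of fun k j => Y (k : ℕ) (M + (j : ℕ))
  refine ⟨YM.det, ?_⟩
  have h1 : ((YM.det : ℤ) : ℚ) = (YM.map (Int.castRingHom ℚ)).det := by
    have := RingHom.map_det (Int.castRingHom ℚ) YM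
    simpa using this
  have h2 : YM.map (Int.castRingHom ℚ) = Matrix.of fun (k j : Fin N) =>
      ((b : ℚ) * (D p (k : ℕ) : ℚ) ^ 3) * (Matrix.of fun (k j : Fin N) =>
        (D p (M + (j : ℕ)) : ℚ) * AzM p z M N k j) k j := by
    ext k j
    rw [Matrix.map_apply]
    exact hY (k : ℕ) (M + (j : ℕ))
  rw [h1, h2, Matrix.det_mul_column, Matrix.det_mul_row, Finset.prod_mul_distrib]
  unfold DD
  rw [Finset.prod_const, Finset.card_univ, Fintype.card_fin]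
  push_cast
  rw [Finset.prod_range, Finset.prod_range]
  ring

end Pool.Agent.H475.QZ
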