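import Pool.Agent.H475.QZ.Stm

/-!
# QZ, task MAIN: the main term (written by helper410)
-/

set_option autoImplicit false

namespace Pool.Agent.H475.QZ

open Finset Polynomial

namespace P_MAIN

theorem coeff_sq (A f : PowerSeries ℝ) (hf : PowerSeries.constantCoeff f = 0) :
    PowerSeries.coeff 2 (A * f ^ 2) =
      PowerSeries.constantCoeff A * (PowerSeries.coeff 1 f) ^ 2 := by
  obtain ⟨h, rfl⟩ := PowerSeries.X_dvd_iff.2 hf
  have h1 : A * (PowerSeries.X * h) ^ 2 = PowerSeries.X ^ 2 * (A * h ^ 2) := by ring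
  rw [h1, PowerSeries.coeff_X_pow_mul']
  rw [if_pos le_rfl, Nat.sub_self, PowerSeries.coeff_zero_eq_constantCoeff_apply, map_mul, map_pow,
    PowerSeries.coeff_succ_X_mul, PowerSeries.coeff_zero_eq_constantCoeff_apply]

theorem const_XX (p : ℤ) (t : ℕ) : PowerSeries.constantCoeff (XX p t) = xx p t := by
  unfold XX
  rw [map_mul, PowerSeries.constantCoeff_C, PowerSeries.constantCoeff_exp, mul_one]

theorem coeff1_XX (p : ℤ) (t : ℕ) : PowerSeries.coeff 1 (XX p t) = xx p t := by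
  unfold XX
  rw [PowerSeries.coeff_C_mul, PowerSeries.coeff_exp]
  simp

theorem const_aeval_EE (p : ℤ) (t a : ℕ) :
    PowerSeries.constantCoeff (Polynomial.aeval (XX p t) (EE p a)) =
      ∏ s ∈ Icc 1 a, (xx p t - xx p s) := by
  unfold EE
  rw [map_prod, map_prod]
  refine Finset.prod_congr rfl fun s _ => ?_
  rw [map_sub, Polynomial.aeval_X, Polynomial.aeval_C, map_sub, const_XX]
  congr 1

theorem const_QQ (p : ℤ) (N t : ℕ) :
    PowerSeries.constantCoeff (QQ p N t) = ∏ k ∈ range N, ((p : ℝ) ^ k - xx p t) := by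
  unfold QQ
  rw [map_prod]
  refine Finset.prod_congr rfl fun k _ => ?_
  rw [map_sub, const_XX, PowerSeries.constantCoeff_C]

theorem kap_eq (p : ℤ) (M N a c : ℕ) (hc : c ≤ 2) :
    kap p M N (a + 1) (FF p a c * FF p a (2 - c)) =
      2 * (xx p (a + 1) ^ (M + 1) * (∏ s ∈ Icc 1 a, (xx p (a + 1) - xx p s)) ^ 6 *
        (∏ k ∈ range N, ((p : ℝ) ^ k - xx p (a + 1)))⁻¹ * xx p (a + 1) ^ 2) := by
  have h1 : FF p a c * FF p a (2 - c) =
      EE p a ^ 6 * (Polynomial.X - Polynomial.C (xx p (a + 1))) ^ 2 := by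
    unfold FF
    have h2 : (Polynomial.X - Polynomial.C (xx p (a + 1)) : Polynomial ℝ) ^ 2 =
        (Polynomial.X - Polynomial.C (xx p (a + 1))) ^ c *
          (Polynomial.X - Polynomial.C (xx p (a + 1))) ^ (2 - c) := by
      rw [← pow_add]
      congr 1
      omega
    rw [h2]
    ring
  unfold kap
  rw [h1]
  have h3 : XX p (a + 1) ^ (M + 1) *
      (Polynomial.aeval (XX p (a + 1))) (EE p a ^ 6 *
        (Polynomial.X - Polynomial.C (xx p (a + 1))) ^ 2) * (QQ p N (a + 1))⁻¹ =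
      (XX p (a + 1) ^ (M + 1) * (Polynomial.aeval (XX p (a + 1)) (EE p a)) ^ 6 *
        (QQ p N (a + 1))⁻¹) * (XX p (a + 1) - PowerSeries.C (xx p (a + 1))) ^ 2 := by
    rw [map_mul, map_pow, map_pow, map_sub, Polynomial.aeval_X, Polynomial.aeval_C]
    have h4 : (algebraMap ℝ (PowerSeries ℝ)) (xx p (a + 1)) = PowerSeries.C (xx p (a + 1)) := rfl
    rw [h4]
    ring
  rw [h3, coeff_sq]
  · rw [map_mul, map_mul, map_pow, map_pow, const_XX, const_aeval_EE, PowerSeries.constantCoeff_inv,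
      const_QQ, map_sub, coeff1_XX, PowerSeries.coeff_C]
    simp
  · rw [map_sub, const_XX, PowerSeries.constantCoeff_C, sub_self]

theorem abs_p_ge {p : ℤ} (hp : 2 ≤ |p|) : (2 : ℝ) ≤ |(p : ℝ)| := by
  have h1 : ((2 : ℤ) : ℝ) ≤ ((|p| : ℤ) : ℝ) := by exact_mod_cast hp
  rw [Int.cast_abs] at h1
  exact_mod_cast h1

theorem abs_xx (p : ℤ) (t : ℕ) : |xx p t| = (|(p : ℝ)| ^ t)⁻¹ := by
  unfold xx
  rw [abs_inv, abs_pow]

theorem prod_xx (p : ℤ) (a : ℕ) : ∏ s ∈ Icc 1 a, |xx p s| = ea p a := by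
  induction a with
  | zero => simp [ea]
  | succ a ih =>
    rw [Finset.prod_Icc_succ_top (by omega), ih, abs_xx]
    unfold ea
    rw [← mul_inv, ← pow_add]
    congr 2
    have h1 : (a + 1) * (a + 1 + 1) = a * (a + 1) + (a + 1) * 2 := by ring
    rw [h1, Nat.add_mul_div_right _ _ (by norm_num : 0 < 2)]

theorem prod_half (a : ℕ) (ha : 1 ≤ a) :
    (1 : ℝ) / 4 + (1 / 2) ^ (a + 1) ≤ ∏ u ∈ Icc 1 a, (1 - (1 / 2 : ℝ) ^ u) := by
  induction a, ha using Nat.le_induction with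
  | base => norm_num
  | succ a ha ih =>
    rw [Finset.prod_Icc_succ_top (by omega)]
    have h1 : (0 : ℝ) ≤ 1 - (1 / 2) ^ (a + 1) := by
      have : (1 / 2 : ℝ) ^ (a + 1) ≤ 1 := pow_le_one₀ (by norm_num) (by norm_num)
      linarith
    have h2 := mul_le_mul_of_nonneg_right ih h1
    refine le_trans ?_ h2
    have h3 : (1 / 2 : ℝ) ^ (a + 1 + 1) = (1 / 2) ^ (a + 1) * (1 / 2) := by rw [pow_succ]
    rw [h3]
    have h4 : (0 : ℝ) < (1 / 2) ^ (a + 1) := by positivity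
    have h5 : (1 / 2 : ℝ) ^ (a + 1) ≤ (1 / 2) ^ 2 :=
      pow_le_pow_of_le_one (by norm_num) (by norm_num) (by omega)
    nlinarith

theorem prod_half' (a : ℕ) : (1 : ℝ) / 4 ≤ ∏ s ∈ Icc 1 a, (1 - (1 / 2 : ℝ) ^ (a + 1 - s)) := by
  have h0 : ∏ s ∈ Icc 1 a, (1 - (1 / 2 : ℝ) ^ (a + 1 - s)) =
      ∏ u ∈ Icc 1 a, (1 - (1 / 2 : ℝ) ^ u) := by
    refine Finset.prod_nbij' (fun s => a + 1 - s) (fun s => a + 1 - s) ?_ ?_ ?_ ?_ ?_
    · intro s hs
      rw [mem_Icc] at hs ⊢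
      omega
    · intro s hs
      rw [mem_Icc] at hs ⊢
      omega
    · intro s hs
      rw [mem_Icc] at hs
      show a + 1 - (a + 1 - s) = s
      omega
    · intro s hs
      rw [mem_Icc] at hs
      show a + 1 - (a + 1 - s) = s
      omega
    · intro s _
      rfl
  rw [h0]
  rcases Nat.eq_zero_or_pos a with h | h
  · subst h
    norm_num
  · have := prod_half a h
    have h4 : (0 : ℝ) < (1 / 2) ^ (a + 1) := by positivity
    linarith

theorem low_E {p : ℤ} (hp : 2 ≤ |p|) (a : ℕ) :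
    ea p a / 4 ≤ ∏ s ∈ Icc 1 a, |xx p (a + 1) - xx p s| := by
  have hp2 := abs_p_ge hp
  have hp0 : (0 : ℝ) < |(p : ℝ)| := by linarith
  have hpne : (p : ℝ) ≠ 0 := abs_pos.1 hp0
  have h1 : ∀ s ∈ Icc 1 a, |xx p s| * (1 - (1 / 2 : ℝ) ^ (a + 1 - s)) ≤
      |xx p (a + 1) - xx p s| := by
    intro s hs
    rw [mem_Icc] at hs
    have h2 : xx p (a + 1) = xx p s * ((p : ℝ) ^ (a + 1 - s))⁻¹ := by
      unfold xx
      rw [← mul_inv, ← pow_add]
      congr 2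
      omega
    have h3 : xx p (a + 1) - xx p s = -(xx p s * (1 - ((p : ℝ) ^ (a + 1 - s))⁻¹)) := by
      rw [h2]; ring
    rw [h3, abs_neg, abs_mul]
    refine mul_le_mul_of_nonneg_left ?_ (abs_nonneg _)
    have h4 : |((p : ℝ) ^ (a + 1 - s))⁻¹| ≤ (1 / 2) ^ (a + 1 - s) := by
      rw [abs_inv, abs_pow, one_div, inv_pow]
      exact inv_anti₀ (by positivity) (pow_le_pow_left₀ (by norm_num) hp2 _)
    have h5 := abs_sub_abs_le_abs_sub (1 : ℝ) (((p : ℝ) ^ (a + 1 - s))⁻¹)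
    rw [abs_one] at h5
    linarith
  calc ea p a / 4 = ea p a * (1 / 4) := by ring
    _ ≤ ea p a * ∏ s ∈ Icc 1 a, (1 - (1 / 2 : ℝ) ^ (a + 1 - s)) := by
        refine mul_le_mul_of_nonneg_left (prod_half' a) ?_
        rw [← prod_xx]
        exact Finset.prod_nonneg fun _ _ => abs_nonneg _
    _ = ∏ s ∈ Icc 1 a, (|xx p s| * (1 - (1 / 2 : ℝ) ^ (a + 1 - s))) := by
        rw [Finset.prod_mul_distrib, prod_xx]
    _ ≤ _ := by
        refine Finset.prod_le_prod (fun s _ => ?_) h1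
        refine mul_nonneg (abs_nonneg _) ?_
        have : (1 / 2 : ℝ) ^ (a + 1 - s) ≤ 1 := pow_le_one₀ (by norm_num) (by norm_num)
        linarith

theorem sum_half (N : ℕ) : ∑ k ∈ range N, (1 / 2 : ℝ) ^ (k + 1) ≤ 1 := by
  have h : ∀ N : ℕ, ∑ k ∈ range N, (1 / 2 : ℝ) ^ (k + 1) = 1 - (1 / 2) ^ N := by
    intro N
    induction N with
    | zero => simp
    | succ N ih => rw [Finset.sum_range_succ, ih, pow_succ]; ring
  rw [h]
  have : (0 : ℝ) < (1 / 2) ^ N := by positivity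
  linarith

theorem up_Q {p : ℤ} (hp : 2 ≤ |p|) (N a : ℕ) :
    ∏ k ∈ range N, |(p : ℝ) ^ k - xx p (a + 1)| ≤ 4 * (ww p N)⁻¹ := by
  have hp2 := abs_p_ge hp
  have hp0 : (0 : ℝ) < |(p : ℝ)| := by linarith
  have hx : |xx p (a + 1)| ≤ 1 / 2 := by
    rw [abs_xx]
    have h1 : (2 : ℝ) ≤ |(p : ℝ)| ^ (a + 1) := by
      calc (2 : ℝ) ≤ |(p : ℝ)| ^ 1 := by rw [pow_one]; exact hp2
        _ ≤ |(p : ℝ)| ^ (a + 1) := pow_le_pow_right₀ (by linarith) (by omega)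
    rw [one_div]
    exact inv_anti₀ (by norm_num) h1
  have h1 : ∀ k ∈ range N, |(p : ℝ) ^ k - xx p (a + 1)| ≤
      |(p : ℝ)| ^ k * (1 + (1 / 2 : ℝ) ^ (k + 1)) := by
    intro k _
    have h2 : |(p : ℝ) ^ k - xx p (a + 1)| ≤ |(p : ℝ)| ^ k + |xx p (a + 1)| := by
      have := abs_sub ((p : ℝ) ^ k) (xx p (a + 1))
      rwa [abs_pow] at this
    have h3 : (1 : ℝ) ≤ |(p : ℝ)| ^ k * (1 / 2) ^ k := by
      rw [← mul_pow]
      exact one_le_pow₀ (by linarith)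
    calc _ ≤ |(p : ℝ)| ^ k + |xx p (a + 1)| := h2
      _ ≤ |(p : ℝ)| ^ k + 1 / 2 := by linarith
      _ ≤ |(p : ℝ)| ^ k + (|(p : ℝ)| ^ k * (1 / 2) ^ k) * (1 / 2) := by linarith
      _ = _ := by rw [pow_succ]; ring
  have h4 : ∏ k ∈ range N, (1 + (1 / 2 : ℝ) ^ (k + 1)) ≤ 4 := by
    calc ∏ k ∈ range N, (1 + (1 / 2 : ℝ) ^ (k + 1)) ≤
          ∏ k ∈ range N, Real.exp ((1 / 2 : ℝ) ^ (k + 1)) := by
          refine Finset.prod_le_prod (fun _ _ => by positivity) fun k _ => ?_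
          have := Real.add_one_le_exp ((1 / 2 : ℝ) ^ (k + 1))
          linarith
      _ = Real.exp (∑ k ∈ range N, (1 / 2 : ℝ) ^ (k + 1)) := (Real.exp_sum _ _).symm
      _ ≤ Real.exp 1 := Real.exp_le_exp.2 (sum_half N)
      _ ≤ 4 := by
          have := Real.exp_one_lt_d9
          linarith
  have h5 : ∏ k ∈ range N, |(p : ℝ)| ^ k = (ww p N)⁻¹ := by
    unfold ww
    rw [inv_inv, Finset.prod_pow_eq_pow_sum, Finset.sum_range_id]
  calc ∏ k ∈ range N, |(p : ℝ) ^ k - xx p (a + 1)| ≤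
        ∏ k ∈ range N, (|(p : ℝ)| ^ k * (1 + (1 / 2 : ℝ) ^ (k + 1))) :=
        Finset.prod_le_prod (fun _ _ => abs_nonneg _) h1
    _ = (ww p N)⁻¹ * ∏ k ∈ range N, (1 + (1 / 2 : ℝ) ^ (k + 1)) := by
        rw [Finset.prod_mul_distrib, h5]
    _ ≤ (ww p N)⁻¹ * 4 := by
        refine mul_le_mul_of_nonneg_left h4 ?_
        rw [← h5]
        exact Finset.prod_nonneg fun _ _ => by positivity
    _ = _ := by ring

theorem pos_Q {p : ℤ} (hp : 2 ≤ |p|) (N a : ℕ) :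
    0 < ∏ k ∈ range N, |(p : ℝ) ^ k - xx p (a + 1)| := by
  have hp2 := abs_p_ge hp
  have hx : |xx p (a + 1)| ≤ 1 / 2 := by
    rw [abs_xx]
    have h1 : (2 : ℝ) ≤ |(p : ℝ)| ^ (a + 1) := by
      calc (2 : ℝ) ≤ |(p : ℝ)| ^ 1 := by rw [pow_one]; exact hp2
        _ ≤ |(p : ℝ)| ^ (a + 1) := pow_le_pow_right₀ (by linarith) (by omega)
    rw [one_div]
    exact inv_anti₀ (by norm_num) h1
  refine Finset.prod_pos fun k _ => ?_
  have h1 := abs_sub_abs_le_abs_sub ((p : ℝ) ^ k) (xx p (a + 1))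
  rw [abs_pow] at h1
  have h2 : (1 : ℝ) ≤ |(p : ℝ)| ^ k := one_le_pow₀ (by linarith)
  linarith

end P_MAIN

open P_MAIN in
theorem t_MAIN : S_MAIN := by
  intro p hp M N a c hc
  rw [kap_eq p M N a c hc]
  have hp2 := abs_p_ge hp
  have hp0 : (0 : ℝ) < |(p : ℝ)| := by linarith
  rw [abs_mul, abs_mul, abs_mul, abs_mul, abs_pow, abs_pow, abs_inv, abs_pow, Finset.abs_prod,
    Finset.abs_prod]
  set x := |xx p (a + 1)| with hx
  set P := ∏ s ∈ Icc 1 a, |xx p (a + 1) - xx p s| with hP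
  set Q := ∏ k ∈ range N, |(p : ℝ) ^ k - xx p (a + 1)| with hQ
  have hE : ea p a / 4 ≤ P := low_E hp a
  have hQ1 : Q ≤ 4 * (ww p N)⁻¹ := up_Q hp N a
  have hQ0 : 0 < Q := pos_Q hp N a
  have he0 : 0 ≤ ea p a := by unfold ea; positivity
  have hw0 : 0 < ww p N := by unfold ww; positivity
  have hx0 : 0 ≤ x := abs_nonneg _
  have h2 : ww p N / 4 ≤ Q⁻¹ := by
    have h3 : (4 * (ww p N)⁻¹)⁻¹ ≤ Q⁻¹ := inv_anti₀ hQ0 hQ1
    have h4 : (4 * (ww p N)⁻¹)⁻¹ = ww p N / 4 := by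
      rw [mul_inv, inv_inv]; ring
    rwa [h4] at h3
  have h5 : (ea p a / 4) ^ 6 ≤ P ^ 6 := pow_le_pow_left₀ (by positivity) hE 6
  have h6 : (ea p a / 4) ^ 6 * (ww p N / 4) ≤ P ^ 6 * Q⁻¹ :=
    mul_le_mul h5 h2 (by positivity) (by positivity)
  have h7 : |(2 : ℝ)| = 2 := abs_of_pos (by norm_num)
  rw [h7]
  calc (1 / 2) ^ 13 * x ^ (M + 3) * ea p a ^ 6 * ww p N =
        2 * x ^ (M + 3) * ((ea p a / 4) ^ 6 * (ww p N / 4)) := by ring
    _ ≤ 2 * x ^ (M + 3) * (P ^ 6 * Q⁻¹) := mul_le_mul_of_nonneg_left h6 (by positivity)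
    _ = 2 * (x ^ (M + 1) * P ^ 6 * Q⁻¹ * x ^ 2) := by ring

end Pool.Agent.H475.QZ
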