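import Pool.Agent.H475.QZ.Stm

/-! PAR: existence of the parameters (by helper894, for helper475). -/

set_option autoImplicit false

namespace Pool.Agent.H475.QZ

theorem t_PAR : S_PAR := by
  intro C δ hC hδ
  obtain ⟨L, hL1, hL2⟩ : ∃ L : ℝ, 1 ≤ L ∧ 16 * C / δ ≤ L :=
    ⟨max 1 (16 * C / δ), le_max_left _ _, le_max_right _ _⟩
  have hL0 : 0 < L := by linarith
  have h1 := tendsto_pow_const_mul_const_pow_of_abs_lt_one 6 (r := (1 / 2 : ℝ))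
    (by rw [abs_of_pos (by norm_num)]; norm_num)
  have h2 : ∀ᶠ m : ℕ in Filter.atTop,
      (m : ℝ) ^ 6 * (1 / 2) ^ m < δ / 2 / (30 * C * L ^ 2 * 729) :=
    h1.eventually_lt_const (by positivity)
  obtain ⟨m, hm, hm1⟩ := (h2.and (Filter.eventually_ge_atTop 1)).exists
  have hmR : (1 : ℝ) ≤ m := by exact_mod_cast hm1
  have hk1 : (1 : ℝ) ≤ (2 * (m : ℝ) + 1) ^ 2 := one_le_pow₀ (by linarith)
  obtain ⟨k, hk⟩ : ∃ k : ℝ, k = (2 * (m : ℝ) + 1) ^ 2 := ⟨_, rfl⟩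
  rw [← hk] at hk1
  refine ⟨m, L * k, hm1, by nlinarith, fun r hr0 hr => ?_⟩
  rw [← hk]
  have hk0 : 0 < k := by linarith
  have hr1 : r ≤ 1 := hr.trans (pow_le_one₀ (by norm_num) (by norm_num))
  have hk9 : k ≤ 9 * (m : ℝ) ^ 2 := by rw [hk]; nlinarith
  -- the middle term
  have e1 : 2 * C * k * (2 / (L * k)) ≤ δ / 4 := by
    have e2 : 2 * C * k * (2 / (L * k)) = 4 * C / L := by
      field_simp
      ring
    rw [e2, div_le_iff₀ hL0]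
    rw [div_le_iff₀ hδ] at hL2
    linarith
  -- the other terms
  have e3 : r ^ 2 ≤ r := by nlinarith
  have e4 : 1 ≤ (L * k) ^ 2 := one_le_pow₀ (by nlinarith)
  have e5 : 2 * C * k * (12 * (L * k) ^ 2 * r + 2 * (L * k) ^ 2 * r ^ 2) + 2 * C * k * r ^ 2 ≤
      30 * C * L ^ 2 * (k ^ 3 * r) := by
    have f1 : 2 * (L * k) ^ 2 * r ^ 2 ≤ 2 * (L * k) ^ 2 * r :=
      mul_le_mul_of_nonneg_left e3 (by positivity)
    have f2 : r ^ 2 ≤ (L * k) ^ 2 * r := by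
      calc r ^ 2 ≤ r := e3
        _ = 1 * r := (one_mul r).symm
        _ ≤ (L * k) ^ 2 * r := mul_le_mul_of_nonneg_right e4 hr0.le
    calc 2 * C * k * (12 * (L * k) ^ 2 * r + 2 * (L * k) ^ 2 * r ^ 2) + 2 * C * k * r ^ 2
        ≤ 2 * C * k * (12 * (L * k) ^ 2 * r + 2 * (L * k) ^ 2 * r) +
          2 * C * k * ((L * k) ^ 2 * r) := by gcongr
      _ = 30 * C * L ^ 2 * (k ^ 3 * r) := by ring
  have e6 : k ^ 3 * r ≤ 729 * ((m : ℝ) ^ 6 * (1 / 2) ^ m) := by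
    calc k ^ 3 * r ≤ (9 * (m : ℝ) ^ 2) ^ 3 * (1 / 2) ^ m := by gcongr
      _ = 729 * ((m : ℝ) ^ 6 * (1 / 2) ^ m) := by ring
  have e7 : 30 * C * L ^ 2 * (k ^ 3 * r) < δ / 2 := by
    rw [lt_div_iff₀ (by positivity)] at hm
    calc 30 * C * L ^ 2 * (k ^ 3 * r) ≤ 30 * C * L ^ 2 * (729 * ((m : ℝ) ^ 6 * (1 / 2) ^ m)) :=
          mul_le_mul_of_nonneg_left e6 (by positivity)
      _ = (m : ℝ) ^ 6 * (1 / 2) ^ m * (30 * C * L ^ 2 * 729) := by ring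
      _ < δ / 2 := hm
  have e8 : 2 * C * k * (12 * (L * k) ^ 2 * r + 2 / (L * k) + 2 * (L * k) ^ 2 * r ^ 2) +
      2 * C * k * r ^ 2 = 2 * C * k * (2 / (L * k)) +
      (2 * C * k * (12 * (L * k) ^ 2 * r + 2 * (L * k) ^ 2 * r ^ 2) + 2 * C * k * r ^ 2) := by ring
  rw [e8]
  linarith

end Pool.Agent.H475.QZ
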