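import Pool.Agent.H475.QZ.Stm

set_option autoImplicit false

namespace Pool.Agent.H475.QZ

open Finset

namespace P_NZ2

theorem sum_div3 (u : ℕ → ℝ) (K : ℕ) :
    ∑ j : Fin (3 * K), u ((j : ℕ) / 3) = 3 * ∑ a ∈ range K, u a := by
  rw [Fin.sum_univ_eq_sum_range (fun j => u (j / 3)) (3 * K)]
  induction K with
  | zero => simp
  | succ K ih =>
    rw [show 3 * (K + 1) = 3 * K + 1 + 1 + 1 by ring, Finset.sum_range_succ,
      Finset.sum_range_succ, Finset.sum_range_succ, ih, Finset.sum_range_succ,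
      show 3 * K / 3 = K by omega, show (3 * K + 1) / 3 = K by omega,
      show (3 * K + 1 + 1) / 3 = K by omega]
    ring

theorem geomA {r : ℝ} (h0 : 0 < r) (h1 : r ≤ 1 / 2) (a : ℕ) :
    ∑ x ∈ range a, r ^ (a - x) ≤ 2 * r := by
  induction a with
  | zero => simp; linarith
  | succ a ih =>
    rw [Finset.sum_range_succ]
    have h2 : ∑ x ∈ range a, r ^ (a + 1 - x) = r * ∑ x ∈ range a, r ^ (a - x) := by
      rw [Finset.mul_sum]
      refine Finset.sum_congr rfl fun x hx => ?_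
      have hx' := Finset.mem_range.mp hx
      rw [show a + 1 - x = (a - x) + 1 by omega, pow_succ]
      ring
    rw [h2, show a + 1 - a = 1 by omega, pow_one]
    nlinarith

theorem geomB {r : ℝ} (h0 : 0 < r) (h1 : r ≤ 1 / 2) (m : ℕ) :
    ∑ x ∈ range m, r ^ (x + 1) ≤ 2 * r := by
  induction m with
  | zero => simp; linarith
  | succ m ih =>
    rw [Finset.sum_range_succ']
    have h2 : ∑ x ∈ range m, r ^ (x + 1 + 1) = r * ∑ x ∈ range m, r ^ (x + 1) := by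
      rw [Finset.mul_sum]
      refine Finset.sum_congr rfl fun x _ => ?_
      rw [pow_succ]
      ring
    rw [h2, zero_add, pow_one]
    nlinarith

theorem sum_ne {r : ℝ} (h0 : 0 < r) (h1 : r ≤ 1 / 2) (K a : ℕ) (ha : a < K) :
    ∑ x ∈ range K, (if x = a then (0 : ℝ) else r ^ (((a : ℤ) - (x : ℤ)).natAbs)) ≤ 4 * r := by
  obtain ⟨m, rfl⟩ : ∃ m, K = a + (m + 1) := ⟨K - a - 1, by omega⟩
  rw [Finset.sum_range_add, Finset.sum_range_succ']
  have e1 : ∑ x ∈ range a, (if x = a then (0 : ℝ) else r ^ (((a : ℤ) - (x : ℤ)).natAbs)) =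
      ∑ x ∈ range a, r ^ (a - x) := by
    refine Finset.sum_congr rfl fun x hx => ?_
    have hx' := Finset.mem_range.mp hx
    rw [if_neg (by omega), show ((a : ℤ) - (x : ℤ)).natAbs = a - x by omega]
  have e2 : ∑ x ∈ range m, (if a + (x + 1) = a then (0 : ℝ)
      else r ^ (((a : ℤ) - ((a + (x + 1) : ℕ) : ℤ)).natAbs)) = ∑ x ∈ range m, r ^ (x + 1) := by
    refine Finset.sum_congr rfl fun x _ => ?_
    rw [if_neg (by omega), show ((a : ℤ) - ((a + (x + 1) : ℕ) : ℤ)).natAbs = x + 1 by omega]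
  rw [e1, e2, if_pos (by omega)]
  have := geomA h0 h1 a
  have := geomB h0 h1 m
  linarith

end P_NZ2

open P_NZ2

theorem t_NZ2 : S_NZ2 := by
  intro K T R R' B r δ Λ hR hR' hB hr0 hr1 hΛ hT1 hT2 hT3 hlt hdet
  have hΛ0 : 0 < Λ := lt_of_lt_of_le one_pos hΛ
  -- scaling
  let x : Fin (3 * K) → ℝ := fun i => Λ ^ ((i : ℕ) % 3) / R ((i : ℕ) / 3) ((i : ℕ) % 3)
  let y : Fin (3 * K) → ℝ := fun j => (Λ ^ ((j : ℕ) % 3))⁻¹ / R' ((j : ℕ) / 3) ((j : ℕ) % 3)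
  have hx : ∀ i, 0 < x i := fun i => div_pos (pow_pos hΛ0 _) (hR _ _)
  have hy : ∀ i, 0 < y i := fun i => div_pos (inv_pos.mpr (pow_pos hΛ0 _)) (hR' _ _)
  let T' : Matrix (Fin (3 * K)) (Fin (3 * K)) ℝ := Matrix.of fun i j => x i * (y j * T i j)
  have hdet' : T'.det = 0 := by
    have e1 : T' = Matrix.of fun i j => x i * (Matrix.of fun i j => y j * T i j) i j := rfl
    rw [e1, Matrix.det_mul_column, Matrix.det_mul_row, hdet, mul_zero, mul_zero]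
  refine det_ne_zero_of_sum_row_lt_diag (A := T') (fun i => ?_) hdet'
  -- the bound for one entry off the diagonal
  let a : ℕ := (i : ℕ) / 3
  let u : ℕ → ℝ := fun b => if b = a then B / Λ + B * Λ ^ 2 * r ^ 2
    else B * Λ ^ 2 * r ^ (((a : ℤ) - (b : ℤ)).natAbs)
  have hxy : ∀ i j : Fin (3 * K), x i * y j *
      (R ((i : ℕ) / 3) ((i : ℕ) % 3) * R' ((j : ℕ) / 3) ((j : ℕ) % 3)) =
      Λ ^ ((i : ℕ) % 3) * (Λ ^ ((j : ℕ) % 3))⁻¹ := by
    intro i j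
    have h1 := (hR ((i : ℕ) / 3) ((i : ℕ) % 3)).ne'
    have h2 := (hR' ((j : ℕ) / 3) ((j : ℕ) % 3)).ne'
    simp only [x, y]
    field_simp
  have hpow2 : ∀ c c' : ℕ, c < 3 → Λ ^ c * (Λ ^ c')⁻¹ ≤ Λ ^ 2 := by
    intro c c' hc
    have h1 : Λ ^ c ≤ Λ ^ 2 := pow_le_pow_right₀ hΛ (by omega)
    have h2 : (Λ ^ c')⁻¹ ≤ 1 := inv_le_one_of_one_le₀ (one_le_pow₀ hΛ)
    have h3 : 0 < Λ ^ c := pow_pos hΛ0 _
    calc Λ ^ c * (Λ ^ c')⁻¹ ≤ Λ ^ c * 1 := mul_le_mul_of_nonneg_left h2 h3.le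
      _ = Λ ^ c := mul_one _
      _ ≤ _ := h1
  have hpow1 : ∀ c c' : ℕ, c < c' → Λ ^ c * (Λ ^ c')⁻¹ ≤ Λ⁻¹ := by
    intro c c' hc
    obtain ⟨d, rfl⟩ : ∃ d, c' = c + 1 + d := ⟨c' - c - 1, by omega⟩
    have h2 : (Λ ^ d)⁻¹ ≤ 1 := inv_le_one_of_one_le₀ (one_le_pow₀ hΛ)
    have h3 : Λ ^ c * (Λ ^ (c + 1 + d))⁻¹ = Λ⁻¹ * (Λ ^ d)⁻¹ := by
      rw [pow_add, pow_add, pow_one]
      have := hΛ0.ne'
      field_simp
    rw [h3]
    calc Λ⁻¹ * (Λ ^ d)⁻¹ ≤ Λ⁻¹ * 1 := mul_le_mul_of_nonneg_left h2 (inv_pos.mpr hΛ0).le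
      _ = _ := mul_one _
  have hentry : ∀ j, j ≠ i → ‖T' i j‖ ≤ u ((j : ℕ) / 3) := by
    intro j hj
    have hji : (j : ℕ) ≠ (i : ℕ) := fun h => hj (Fin.ext h)
    have e1 : ‖T' i j‖ = x i * y j * |T i j| := by
      show ‖x i * (y j * T i j)‖ = _
      rw [Real.norm_eq_abs, abs_mul, abs_mul, abs_of_pos (hx i), abs_of_pos (hy j)]
      ring
    rw [e1]
    have hxy0 : 0 < x i * y j := mul_pos (hx i) (hy j)
    by_cases hab : (i : ℕ) / 3 = (j : ℕ) / 3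
    · have hu : u ((j : ℕ) / 3) = B / Λ + B * Λ ^ 2 * r ^ 2 := if_pos hab.symm
      rw [hu]
      have hn1 : 0 ≤ B / Λ := by positivity
      have hn2 : 0 ≤ B * Λ ^ 2 * r ^ 2 := by positivity
      rcases lt_trichotomy ((i : ℕ) % 3) ((j : ℕ) % 3) with hc | hc | hc
      · have h1 := hT1 i j
        have e2 : (((((i : ℕ) / 3 : ℕ) : ℤ) - (((j : ℕ) / 3 : ℕ) : ℤ)).natAbs) = 0 := by
          rw [hab]; simp
        rw [e2, pow_zero, mul_one] at h1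
        have h2 : x i * y j * |T i j| ≤ B * Λ⁻¹ := by
          calc x i * y j * |T i j| ≤ x i * y j * (B * R ((i : ℕ) / 3) ((i : ℕ) % 3) *
                R' ((j : ℕ) / 3) ((j : ℕ) % 3)) := mul_le_mul_of_nonneg_left h1 hxy0.le
            _ = B * (x i * y j * (R ((i : ℕ) / 3) ((i : ℕ) % 3) *
                R' ((j : ℕ) / 3) ((j : ℕ) % 3))) := by ring
            _ = B * (Λ ^ ((i : ℕ) % 3) * (Λ ^ ((j : ℕ) % 3))⁻¹) := by rw [hxy]
            _ ≤ B * Λ⁻¹ := mul_le_mul_of_nonneg_left (hpow1 _ _ hc) hB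
        rw [← div_eq_mul_inv] at h2
        linarith
      · exfalso
        omega
      · have h1 := hT2 i j hab hc
        have h2 : x i * y j * |T i j| ≤ B * Λ ^ 2 * r ^ 2 := by
          calc x i * y j * |T i j| ≤ x i * y j * (B * r ^ 2 * R ((i : ℕ) / 3) ((i : ℕ) % 3) *
                R' ((j : ℕ) / 3) ((j : ℕ) % 3)) := mul_le_mul_of_nonneg_left h1 hxy0.le
            _ = B * r ^ 2 * (x i * y j * (R ((i : ℕ) / 3) ((i : ℕ) % 3) *
                R' ((j : ℕ) / 3) ((j : ℕ) % 3))) := by ring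
            _ = B * r ^ 2 * (Λ ^ ((i : ℕ) % 3) * (Λ ^ ((j : ℕ) % 3))⁻¹) := by rw [hxy]
            _ ≤ B * r ^ 2 * Λ ^ 2 := mul_le_mul_of_nonneg_left (hpow2 _ _ (Nat.mod_lt _ (by norm_num)))
                (by positivity)
            _ = _ := by ring
        linarith
    · have hu : u ((j : ℕ) / 3) = B * Λ ^ 2 * r ^ (((a : ℤ) - (((j : ℕ) / 3 : ℕ) : ℤ)).natAbs) :=
        if_neg (fun h => hab h.symm)
      rw [hu]
      have h1 := hT1 i j
      have hrp : 0 ≤ B * r ^ (((((i : ℕ) / 3 : ℕ) : ℤ) - (((j : ℕ) / 3 : ℕ) : ℤ)).natAbs) := by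
        positivity
      calc x i * y j * |T i j| ≤ x i * y j * (B *
              r ^ (((((i : ℕ) / 3 : ℕ) : ℤ) - (((j : ℕ) / 3 : ℕ) : ℤ)).natAbs) *
              R ((i : ℕ) / 3) ((i : ℕ) % 3) *
              R' ((j : ℕ) / 3) ((j : ℕ) % 3)) := mul_le_mul_of_nonneg_left h1 hxy0.le
        _ = B * r ^ (((((i : ℕ) / 3 : ℕ) : ℤ) - (((j : ℕ) / 3 : ℕ) : ℤ)).natAbs) *
              (x i * y j * (R ((i : ℕ) / 3) ((i : ℕ) % 3) *
              R' ((j : ℕ) / 3) ((j : ℕ) % 3))) := by ring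
        _ = B * r ^ (((((i : ℕ) / 3 : ℕ) : ℤ) - (((j : ℕ) / 3 : ℕ) : ℤ)).natAbs) *
              (Λ ^ ((i : ℕ) % 3) * (Λ ^ ((j : ℕ) % 3))⁻¹) := by rw [hxy]
        _ ≤ B * r ^ (((((i : ℕ) / 3 : ℕ) : ℤ) - (((j : ℕ) / 3 : ℕ) : ℤ)).natAbs) * Λ ^ 2 :=
              mul_le_mul_of_nonneg_left (hpow2 _ _ (Nat.mod_lt _ (by norm_num))) hrp
        _ = _ := by ring
  -- the diagonal entry
  have hdiag : δ - B * r ^ 2 ≤ ‖T' i i‖ := by
    have e1 : ‖T' i i‖ = x i * y i * |T i i| := by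
      show ‖x i * (y i * T i i)‖ = _
      rw [Real.norm_eq_abs, abs_mul, abs_mul, abs_of_pos (hx i), abs_of_pos (hy i)]
      ring
    rw [e1]
    have hxy0 : 0 < x i * y i := mul_pos (hx i) (hy i)
    have h1 := hT3 i
    have h2 := hxy i i
    have h3 : Λ ^ ((i : ℕ) % 3) * (Λ ^ ((i : ℕ) % 3))⁻¹ = 1 :=
      mul_inv_cancel₀ (pow_pos hΛ0 _).ne'
    calc δ - B * r ^ 2 = (δ - B * r ^ 2) * (x i * y i *
          (R ((i : ℕ) / 3) ((i : ℕ) % 3) * R' ((i : ℕ) / 3) ((i : ℕ) % 3))) := by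
            rw [h2, h3, mul_one]
      _ = x i * y i * ((δ - B * r ^ 2) * R ((i : ℕ) / 3) ((i : ℕ) % 3) *
            R' ((i : ℕ) / 3) ((i : ℕ) % 3)) := by ring
      _ ≤ _ := mul_le_mul_of_nonneg_left h1 hxy0.le
  -- sum of the bounds
  have haK : a < K := by
    have := i.isLt
    show (i : ℕ) / 3 < K
    omega
  have hsum1 : ∑ j ∈ univ.erase i, ‖T' i j‖ ≤ ∑ j ∈ univ.erase i, u ((j : ℕ) / 3) :=
    Finset.sum_le_sum fun j hj => hentry j (Finset.ne_of_mem_erase hj)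
  have hsum2 : ∑ j ∈ univ.erase i, u ((j : ℕ) / 3) = 3 * ∑ b ∈ range K, u b - u a := by
    rw [← sum_div3, ← Finset.add_sum_erase univ (fun j : Fin (3 * K) => u ((j : ℕ) / 3))
      (Finset.mem_univ i)]
    show _ = u a + _ - u a
    ring
  have hsum3 : ∑ b ∈ range K, u b ≤ (B / Λ + B * Λ ^ 2 * r ^ 2) + B * Λ ^ 2 * (4 * r) := by
    have e1 : ∑ b ∈ range K, u b = ∑ b ∈ range K, ((if b = a then B / Λ + B * Λ ^ 2 * r ^ 2 else 0) +
        B * Λ ^ 2 * (if b = a then (0 : ℝ) else r ^ (((a : ℤ) - (b : ℤ)).natAbs))) := by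
      refine Finset.sum_congr rfl fun b _ => ?_
      show (if b = a then _ else _) = _
      split_ifs
      · ring
      · ring
    rw [e1, Finset.sum_add_distrib, ← Finset.mul_sum, Finset.sum_ite_eq' (range K) a,
      if_pos (Finset.mem_range.mpr haK)]
    have h2 := sum_ne hr0 hr1 K a haK
    have h3 : 0 ≤ B * Λ ^ 2 := by positivity
    have h4 := mul_le_mul_of_nonneg_left h2 h3
    linarith
  have hua : u a = B / Λ + B * Λ ^ 2 * r ^ 2 := if_pos rfl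
  have hfin : B * (12 * Λ ^ 2 * r + 2 / Λ + 2 * Λ ^ 2 * r ^ 2) =
      2 * (B / Λ + B * Λ ^ 2 * r ^ 2) + 3 * (B * Λ ^ 2 * (4 * r)) := by
    have := hΛ0.ne'
    field_simp
    ring
  rw [hsum2] at hsum1
  linarith

end Pool.Agent.H475.QZ
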