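import Pool.Agent.H475.QZ.Stm

/-!
# Bound for the product of all denominators
-/

set_option autoImplicit false

namespace Pool.Agent.H475.QZ

open Finset

namespace P_DDB

/-- the exponent in the bound for `D_k` -/
def ex (k : ℕ) : ℕ := 50 * k + 8 * (k + 30) * (k + 60)

theorem sum_le (M N : ℕ) : 3 * (∑ k ∈ range N, ex k * 3 + ∑ j ∈ range N, ex (M + j)) ≤
    32 * N ^ 3 + (172800 + 2310 * M + 24 * M ^ 2) * N ^ 2 := by
  induction N with
  | zero => simp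
  | succ N ih =>
    rw [sum_range_succ, sum_range_succ]
    have h : 3 * (ex N * 3 + ex (M + N)) + 32 * N ^ 3 +
        (172800 + 2310 * M + 24 * M ^ 2) * N ^ 2 ≤
        32 * (N + 1) ^ 3 + (172800 + 2310 * M + 24 * M ^ 2) * (N + 1) ^ 2 := by
      unfold ex
      nlinarith [Nat.zero_le (M * N), Nat.zero_le (M ^ 2 * N), Nat.zero_le N, Nat.zero_le M]
    omega

theorem prod_le (p : ℤ) (s : Finset ℕ) (f : ℕ → ℤ) (g : ℕ → ℕ) (h : ∀ i ∈ s, |f i| ^ 25 ≤ |p| ^ g i) :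
    |∏ i ∈ s, f i| ^ 25 ≤ |p| ^ (∑ i ∈ s, g i) := by
  rw [abs_prod, ← prod_pow, ← prod_pow_eq_pow_sum]
  exact prod_le_prod (fun i _ => by positivity) h

end P_DDB

open P_DDB

theorem t_DDB (hDK : S_DK) : S_DDB := by
  intro p hp M
  refine ⟨3 * (172800 + 2310 * M + 24 * M ^ 2), fun K _ => ?_⟩
  have hp1 : 1 ≤ |p| := by linarith
  have hp0 : 0 ≤ |p| := abs_nonneg p
  have h1 : |∏ k ∈ range (3 * K), D p k ^ 3| ^ 25 ≤ |p| ^ (∑ k ∈ range (3 * K), ex k * 3) := by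
    refine prod_le p _ _ _ fun k _ => ?_
    rw [abs_pow, ← pow_mul, mul_comm 3 25, pow_mul, pow_mul]
    exact pow_le_pow_left₀ (by positivity) (hDK p hp k) 3
  have h2 : |∏ j ∈ range (3 * K), D p (M + j)| ^ 25 ≤ |p| ^ (∑ j ∈ range (3 * K), ex (M + j)) :=
    prod_le p _ _ _ fun j _ => hDK p hp (M + j)
  have h3 : |DD p M (3 * K)| ^ 25 ≤
      |p| ^ (∑ k ∈ range (3 * K), ex k * 3 + ∑ j ∈ range (3 * K), ex (M + j)) := by
    unfold DD
    rw [abs_mul, mul_pow, pow_add]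
    exact mul_le_mul h1 h2 (by positivity) (by positivity)
  refine h3.trans (pow_le_pow_right₀ hp1 ?_)
  have h4 := sum_le M (3 * K)
  have h5 : 32 * (3 * K) ^ 3 + (172800 + 2310 * M + 24 * M ^ 2) * (3 * K) ^ 2 =
      3 * (288 * K ^ 3 + 3 * (172800 + 2310 * M + 24 * M ^ 2) * K ^ 2) := by ring
  rw [h5] at h4
  exact Nat.le_of_mul_le_mul_left h4 (by norm_num)

end Pool.Agent.H475.QZ
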