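import Pool.Agent.H475.QZ.Stm

/-! Task QZ KB (helper657). -/

namespace Pool.Agent.H475.QZ

open Finset Polynomial

namespace P_KB

theorem nuF (hNU : S_NU) (hNUX : S_NUX) (hNUE : S_NUE) {p : ℤ} (hp : 2 ≤ |p|) {a c t : ℕ}
    (ha : a < t) (hc : c ≤ 2) :
    nu (Polynomial.aeval (XX p t) (FF p a c)) ≤
      13 ^ 3 * (7 / 2) ^ 2 * ea p a ^ 3 * |xx p (a + 1)| ^ c := by
  obtain ⟨n0, n1, nm, n2, np, npow, nC⟩ := hNU
  have e0 : (0 : ℝ) ≤ ea p a := by unfold ea; positivity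
  have hF : Polynomial.aeval (XX p t) (FF p a c) =
      (Polynomial.aeval (XX p t) (EE p a)) ^ 3 *
        (XX p t - PowerSeries.C (xx p (a + 1))) ^ c := by
    unfold FF
    rw [map_mul, map_pow, map_pow, map_sub, Polynomial.aeval_X, Polynomial.aeval_C]
    rfl
  have h1 : nu ((Polynomial.aeval (XX p t) (EE p a)) ^ 3) ≤ (13 * ea p a) ^ 3 :=
    (npow _ 3).trans (pow_le_pow_left₀ (n0 _) (hNUE p hp a t ha) 3)
  have h2 : nu (XX p t - PowerSeries.C (xx p (a + 1))) ≤ |xx p (a + 1)| * (7 / 2) := by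
    refine ((hNUX p hp).1 (a + 1) t (by omega)).trans ?_
    refine mul_le_mul_of_nonneg_left ?_ (abs_nonneg _)
    have : ((1 : ℝ) / 2) ^ (t - (a + 1)) ≤ 1 := pow_le_one₀ (by norm_num) (by norm_num)
    linarith
  have h3 : nu ((XX p t - PowerSeries.C (xx p (a + 1))) ^ c) ≤
      (|xx p (a + 1)| * (7 / 2)) ^ c :=
    (npow _ c).trans (pow_le_pow_left₀ (n0 _) h2 c)
  have h4 : ((7 : ℝ) / 2) ^ c ≤ (7 / 2) ^ 2 := pow_le_pow_right₀ (by norm_num) hc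
  rw [hF]
  calc nu ((Polynomial.aeval (XX p t) (EE p a)) ^ 3 *
        (XX p t - PowerSeries.C (xx p (a + 1))) ^ c)
      ≤ nu ((Polynomial.aeval (XX p t) (EE p a)) ^ 3) *
        nu ((XX p t - PowerSeries.C (xx p (a + 1))) ^ c) := nm _ _
    _ ≤ (13 * ea p a) ^ 3 * (|xx p (a + 1)| * (7 / 2)) ^ c :=
        mul_le_mul h1 h3 (n0 _) (by positivity)
    _ = 13 ^ 3 * ea p a ^ 3 * |xx p (a + 1)| ^ c * (7 / 2) ^ c := by ring
    _ ≤ 13 ^ 3 * ea p a ^ 3 * |xx p (a + 1)| ^ c * (7 / 2) ^ 2 :=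
        mul_le_mul_of_nonneg_left h4 (by positivity)
    _ = _ := by ring

end P_KB

theorem t_KB (hNU : S_NU) (hNUX : S_NUX) (hNUQ : S_NUQ) (hNUE : S_NUE) : S_KB := by
  intro p hp M N t a a' c c' ha ha' hc hc'
  have hNU' := hNU
  obtain ⟨n0, n1, nm, n2, np, npow, nC⟩ := hNU'
  have e0 : (0 : ℝ) ≤ ea p a := by unfold ea; positivity
  have e0' : (0 : ℝ) ≤ ea p a' := by unfold ea; positivity
  have w0 : (0 : ℝ) ≤ ww p N := by unfold ww; positivity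
  have f1 := P_KB.nuF hNU hNUX hNUE hp ha hc
  have f2 := P_KB.nuF hNU hNUX hNUE hp ha' hc'
  have x1 : nu (XX p t ^ (M + 1)) ≤ |xx p t| ^ (M + 1) * ((M : ℝ) + 2) ^ 2 := by
    have := (hNUX p hp).2 t (M + 1)
    have e : ((M + 1 : ℕ) : ℝ) + 1 = (M : ℝ) + 2 := by push_cast; ring
    rwa [e] at this
  have q1 := hNUQ p hp N t (by omega)
  unfold kap
  rw [abs_mul, abs_two]
  have hmain : nu (XX p t ^ (M + 1) * Polynomial.aeval (XX p t) (FF p a c * FF p a' c') *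
      (QQ p N t)⁻¹) ≤ (|xx p t| ^ (M + 1) * ((M : ℝ) + 2) ^ 2) *
        ((13 ^ 3 * (7 / 2) ^ 2 * ea p a ^ 3 * |xx p (a + 1)| ^ c) *
        (13 ^ 3 * (7 / 2) ^ 2 * ea p a' ^ 3 * |xx p (a' + 1)| ^ c')) * (3 ^ 12 * ww p N) := by
    rw [map_mul]
    refine (nm _ _).trans (mul_le_mul ?_ q1 (n0 _) (by positivity))
    refine (nm _ _).trans (mul_le_mul x1 ?_ (n0 _) (by positivity))
    exact (nm _ _).trans (mul_le_mul f1 f2 (n0 _) (by positivity))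
  calc 2 * |PowerSeries.coeff 2 (XX p t ^ (M + 1) *
        Polynomial.aeval (XX p t) (FF p a c * FF p a' c') * (QQ p N t)⁻¹)|
      ≤ 2 * ((|xx p t| ^ (M + 1) * ((M : ℝ) + 2) ^ 2) *
        ((13 ^ 3 * (7 / 2) ^ 2 * ea p a ^ 3 * |xx p (a + 1)| ^ c) *
        (13 ^ 3 * (7 / 2) ^ 2 * ea p a' ^ 3 * |xx p (a' + 1)| ^ c')) * (3 ^ 12 * ww p N)) :=
        mul_le_mul_of_nonneg_left ((n2 _).trans hmain) (by norm_num)
    _ = _ := by unfold C3; ring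

end Pool.Agent.H475.QZ
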