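import Pool.Agent.H475.QZ.Stm

/-! QZ KER (by helper734): the kernel identity. -/

set_option autoImplicit false

namespace Pool.Agent.H475.QZ

open Finset Polynomial

namespace P_KER

theorem coeff2_mul (f g : PowerSeries ℝ) : PowerSeries.coeff 2 (f * g) =
    PowerSeries.coeff 0 f * PowerSeries.coeff 2 g + PowerSeries.coeff 1 f * PowerSeries.coeff 1 g +
      PowerSeries.coeff 2 f * PowerSeries.coeff 0 g := by
  rw [PowerSeries.coeff_mul, Finset.Nat.sum_antidiagonal_eq_sum_range_succ_mk,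
    Finset.sum_range_succ, Finset.sum_range_succ, Finset.sum_range_one]

theorem coeff1_mul (f g : PowerSeries ℝ) : PowerSeries.coeff 1 (f * g) =
    PowerSeries.coeff 0 f * PowerSeries.coeff 1 g +
      PowerSeries.coeff 1 f * PowerSeries.coeff 0 g := by
  rw [PowerSeries.coeff_mul, Finset.Nat.sum_antidiagonal_eq_sum_range_succ_mk,
    Finset.sum_range_succ, Finset.sum_range_one]

theorem coeff0_mul (f g : PowerSeries ℝ) : PowerSeries.coeff 0 (f * g) =
    PowerSeries.coeff 0 f * PowerSeries.coeff 0 g := by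
  rw [PowerSeries.coeff_mul, Finset.Nat.sum_antidiagonal_eq_sum_range_succ_mk,
    Finset.sum_range_one]

theorem coeff_exp_pow (m n : ℕ) : PowerSeries.coeff n (PowerSeries.exp ℝ ^ m) =
    (m : ℝ) ^ n / (n.factorial : ℝ) := by
  rw [PowerSeries.exp_pow_eq_rescale_exp, PowerSeries.coeff_rescale, PowerSeries.coeff_exp]
  simp [div_eq_mul_inv]

theorem coeff_exp' (n : ℕ) : PowerSeries.coeff n (PowerSeries.exp ℝ) =
    1 / (n.factorial : ℝ) := by
  have := coeff_exp_pow 1 n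
  rw [pow_one] at this
  rw [this]
  simp

/-- the first coefficients of the inverse -/
theorem inv_coeffs {x P : ℝ} (h : P - x ≠ 0) :
    PowerSeries.coeff 0 (PowerSeries.C P - PowerSeries.C x * PowerSeries.exp ℝ)⁻¹ = 1 / (P - x) ∧
    PowerSeries.coeff 1 (PowerSeries.C P - PowerSeries.C x * PowerSeries.exp ℝ)⁻¹ =
      x / (P - x) ^ 2 ∧
    PowerSeries.coeff 2 (PowerSeries.C P - PowerSeries.C x * PowerSeries.exp ℝ)⁻¹ =
      x ^ 2 / (P - x) ^ 3 + x / 2 / (P - x) ^ 2 := by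
  set f : PowerSeries ℝ := PowerSeries.C P - PowerSeries.C x * PowerSeries.exp ℝ with hf
  have c0 : PowerSeries.coeff 0 f = P - x := by
    rw [hf, map_sub, PowerSeries.coeff_C_mul, coeff_exp', PowerSeries.coeff_C]
    simp
  have c1 : PowerSeries.coeff 1 f = -x := by
    rw [hf, map_sub, PowerSeries.coeff_C_mul, coeff_exp', PowerSeries.coeff_C]
    simp
  have c2 : PowerSeries.coeff 2 f = -(x / 2) := by
    rw [hf, map_sub, PowerSeries.coeff_C_mul, coeff_exp', PowerSeries.coeff_C]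
    simp [Nat.factorial]
    ring
  have hinv : f * f⁻¹ = 1 := by
    apply PowerSeries.mul_inv_cancel
    rw [← PowerSeries.coeff_zero_eq_constantCoeff_apply, c0]
    exact h
  set g : PowerSeries ℝ := f⁻¹ with hg
  have e0 : (P - x) * PowerSeries.coeff 0 g = 1 := by
    rw [← c0, ← coeff0_mul, hinv]
    simp
  have e1 : (P - x) * PowerSeries.coeff 1 g + -x * PowerSeries.coeff 0 g = 0 := by
    rw [← c0, ← c1, ← coeff1_mul, hinv]
    simp [PowerSeries.coeff_one]
  have e2 : (P - x) * PowerSeries.coeff 2 g + -x * PowerSeries.coeff 1 g +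
      -(x / 2) * PowerSeries.coeff 0 g = 0 := by
    rw [← c0, ← c1, ← c2, ← coeff2_mul, hinv]
    simp [PowerSeries.coeff_one]
  have g0 : PowerSeries.coeff 0 g = 1 / (P - x) := by
    rw [eq_div_iff h]
    linarith
  have g1 : PowerSeries.coeff 1 g = x / (P - x) ^ 2 := by
    rw [g0] at e1
    field_simp at e1 ⊢
    linarith
  have g2 : PowerSeries.coeff 2 g = x ^ 2 / (P - x) ^ 3 + x / 2 / (P - x) ^ 2 := by
    rw [g0, g1] at e2
    field_simp at e2 ⊢
    linarith
  exact ⟨g0, g1, g2⟩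

/-- `∑ n² yⁿ` -/
theorem sq_geom {y : ℝ} (hy : |y| < 1) :
    HasSum (fun n : ℕ => (n : ℝ) ^ 2 * y ^ n) (y * (1 + y) / (1 - y) ^ 3) := by
  have hy' : ‖y‖ < 1 := hy
  have h0 := hasSum_geometric_of_norm_lt_one hy'
  have h1 := hasSum_coe_mul_geometric_of_norm_lt_one hy'
  have h2 := hasSum_choose_mul_geometric_of_norm_lt_one 2 hy'
  have h3 := ((h2.mul_left 2).sub (h1.mul_left 3)).sub (h0.mul_left 2)
  have hne : (1 - y) ≠ 0 := by
    have := (abs_lt.1 hy).2
    linarith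
  have e1 : (fun n : ℕ => (2 * (((n + 2).choose 2 : ℕ) * y ^ n) - 3 * ((n : ℝ) * y ^ n)) -
      2 * y ^ n) = fun n : ℕ => (n : ℝ) ^ 2 * y ^ n := by
    funext n
    have h4 : (((n + 2).choose 2 : ℕ) : ℝ) = ((n : ℝ) + 2) * ((n : ℝ) + 1) / 2 := by
      rw [Nat.cast_choose_two]
      push_cast
      ring
    rw [h4]
    ring
  have e2 : 2 * (1 / (1 - y) ^ (2 + 1)) - 3 * (y / (1 - y) ^ 2) - 2 * (1 - y)⁻¹ =
      y * (1 + y) / (1 - y) ^ 3 := by
    field_simp
    ring
  rw [e1, e2] at h3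
  exact h3

end P_KER

open P_KER in
theorem t_KER : S_KER := by
  intro x P hx hP J
  have hP0 : P ≠ 0 := by
    intro h
    rw [h, abs_zero] at hP
    linarith
  have hPa : 0 < |P| := by linarith
  have hy : |x / P| < 1 := by
    rw [abs_div, div_lt_one hPa]
    linarith
  have hne : P - x ≠ 0 := by
    intro h
    have h1 : P = x := by linarith
    rw [h1] at hP
    linarith
  obtain ⟨g0, g1, g2⟩ := inv_coeffs (x := x) (P := P) hne
  -- the left side
  have hC : ∀ n : ℕ, PowerSeries.coeff n ((PowerSeries.C x * PowerSeries.exp ℝ) ^ (J + 1)) =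
      x ^ (J + 1) * (((J + 1 : ℕ) : ℝ) ^ n / (n.factorial : ℝ)) := by
    intro n
    rw [mul_pow, ← map_pow, PowerSeries.coeff_C_mul, coeff_exp_pow]
  have hL : 2 * PowerSeries.coeff 2 ((PowerSeries.C x * PowerSeries.exp ℝ) ^ (J + 1) *
      (PowerSeries.C P - PowerSeries.C x * PowerSeries.exp ℝ)⁻¹) =
      x ^ (J + 1) * (2 * x ^ 2 / (P - x) ^ 3 + x / (P - x) ^ 2 +
        2 * ((J : ℝ) + 1) * (x / (P - x) ^ 2) + ((J : ℝ) + 1) ^ 2 / (P - x)) := by
    rw [coeff2_mul, hC, hC, hC, g0, g1, g2]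
    simp only [pow_zero, pow_one, Nat.factorial]
    push_cast
    field_simp
  rw [hL]
  -- the right side
  have h1y : (1 - x / P) ≠ 0 := by
    have := (abs_lt.1 hy).2
    linarith
  have hy' : ‖x / P‖ < 1 := hy
  have s0 := hasSum_geometric_of_norm_lt_one hy'
  have s1 := hasSum_coe_mul_geometric_of_norm_lt_one hy'
  have s2 := sq_geom hy
  have s3 := ((s2.add (s1.mul_left (2 * ((J : ℝ) + 1)))).add
    (s0.mul_left (((J : ℝ) + 1) ^ 2))).mul_left (x ^ (J + 1) / P)
  have e1 : (fun n : ℕ => x ^ (J + 1) / P * ((n : ℝ) ^ 2 * (x / P) ^ n +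
      2 * ((J : ℝ) + 1) * ((n : ℝ) * (x / P) ^ n) + ((J : ℝ) + 1) ^ 2 * (x / P) ^ n)) =
      fun e : ℕ => (P ^ (e + 1))⁻¹ * ((e + 1 + J : ℕ) : ℝ) ^ 2 * x ^ (e + 1 + J) := by
    funext e
    push_cast
    rw [div_pow, pow_succ P e, show e + 1 + J = e + (J + 1) by ring, pow_add x e (J + 1)]
    field_simp
    ring
  rw [e1] at s3
  rw [s3.tsum_eq]
  have hPx : (1 - x / P) = (P - x) / P := by field_simp
  rw [hPx]
  field_simp
  ring

end Pool.Agent.H475.QZ
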