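import Pool.Agent.H475.QZ.Stm

/-!
# Nonvanishing (project QZ of helper475, written by helper539)
-/

set_option autoImplicit false

namespace Pool.Agent.H475.QZ

open Finset Polynomial

namespace P_NZ

theorem abs_cast {p : ℤ} (hp : 2 ≤ |p|) : (2 : ℝ) ≤ |(p : ℝ)| := by
  exact_mod_cast hp

/-- `|x_t| = Q^t`. -/
theorem abs_xx (p : ℤ) (t : ℕ) : |xx p t| = (|(p : ℝ)|⁻¹) ^ t := by
  unfold xx
  rw [abs_inv, abs_pow, inv_pow]

theorem Q_pos {p : ℤ} (hp : 2 ≤ |p|) : 0 < |(p : ℝ)|⁻¹ :=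
  inv_pos.2 (lt_of_lt_of_le two_pos (abs_cast hp))

theorem Q_le {p : ℤ} (hp : 2 ≤ |p|) : |(p : ℝ)|⁻¹ ≤ 1 / 2 := by
  rw [one_div]
  exact inv_anti₀ two_pos (abs_cast hp)

theorem ea_pos {p : ℤ} (hp : 2 ≤ |p|) (a : ℕ) : 0 < ea p a :=
  inv_pos.2 (pow_pos (lt_of_lt_of_le two_pos (abs_cast hp)) _)

theorem ww_pos {p : ℤ} (hp : 2 ≤ |p|) (N : ℕ) : 0 < ww p N :=
  inv_pos.2 (pow_pos (lt_of_lt_of_le two_pos (abs_cast hp)) _)

theorem C3_pos : 0 < C3 := by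
  unfold C3
  positivity

/-- The Vandermonde product does not vanish. -/
theorem VV_ne {p : ℤ} (hp : 2 ≤ |p|) (N : ℕ) : VV ℝ p N ≠ 0 := by
  unfold VV
  refine prod_ne_zero_iff.2 fun l _ => prod_ne_zero_iff.2 fun i hi => ?_
  intro h
  have h1 : (p : ℝ) ^ l = (p : ℝ) ^ i := sub_eq_zero.1 h
  have h2 : |(p : ℝ)| ^ l = |(p : ℝ)| ^ i := by rw [← abs_pow, h1, abs_pow]
  have h3 : |(p : ℝ)| ^ i < |(p : ℝ)| ^ l :=
    pow_lt_pow_right₀ (lt_of_lt_of_le one_lt_two (abs_cast hp)) (mem_range.1 hi)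
  exact absurd h2 h3.ne'

/-- The column `3a+c` goes to the column `3a+2-c`. -/
def fl (K : ℕ) (j : Fin (3 * K)) : Fin (3 * K) :=
  ⟨3 * ((j : ℕ) / 3) + (2 - (j : ℕ) % 3), by have := j.2; omega⟩

theorem fl_fl (K : ℕ) (j : Fin (3 * K)) : fl K (fl K j) = j := by
  apply Fin.ext
  unfold fl
  simp only
  omega

def flp (K : ℕ) : Equiv.Perm (Fin (3 * K)) where
  toFun := fl K
  invFun := fl K
  left_inv := fl_fl K
  right_inv := fl_fl K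

theorem fl_div (K : ℕ) (j : Fin (3 * K)) : ((fl K j : Fin (3 * K)) : ℕ) / 3 = (j : ℕ) / 3 := by
  unfold fl
  simp only
  omega

theorem fl_mod (K : ℕ) (j : Fin (3 * K)) :
    ((fl K j : Fin (3 * K)) : ℕ) % 3 = 2 - (j : ℕ) % 3 := by
  unfold fl
  simp only
  omega

/-- The matrix in the determinant identity. -/
theorem det_A {p : ℤ} (hp : 2 ≤ |p|) (hDET : S_DET) (hDEG : S_DEG) (M K : ℕ)
    (h : (Matrix.of fun i j : Fin (3 * K) =>
      LL p M (3 * K) (FF p ((i : ℕ) / 3) ((i : ℕ) % 3))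
        (FF p ((j : ℕ) / 3) (2 - (j : ℕ) % 3))).det ≠ 0) :
    (A p M (3 * K)).det ≠ 0 := by
  set L : Matrix (Fin (3 * K)) (Fin (3 * K)) ℝ := Matrix.of fun i j : Fin (3 * K) =>
      LL p M (3 * K) (FF p ((i : ℕ) / 3) ((i : ℕ) % 3))
        (FF p ((j : ℕ) / 3) ((j : ℕ) % 3)) with hL
  have hT : (Matrix.of fun i j : Fin (3 * K) =>
      LL p M (3 * K) (FF p ((i : ℕ) / 3) ((i : ℕ) % 3))
        (FF p ((j : ℕ) / 3) (2 - (j : ℕ) % 3))) = L.submatrix id (flp K) := by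
    ext i j
    rw [Matrix.submatrix_apply, hL, Matrix.of_apply, Matrix.of_apply]
    have h1 : ((flp K j : Fin (3 * K)) : ℕ) / 3 = (j : ℕ) / 3 := fl_div K j
    have h2 : ((flp K j : Fin (3 * K)) : ℕ) % 3 = 2 - (j : ℕ) % 3 := fl_mod K j
    rw [h1, h2, id]
  rw [hT, Matrix.det_permute'] at h
  have hLd : L.det ≠ 0 := right_ne_zero_of_mul h
  have h1 := hDET ℝ p hp (3 * K) (A p M (3 * K))
    (fun i : Fin (3 * K) => FF p ((i : ℕ) / 3) ((i : ℕ) % 3))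
    (fun i : Fin (3 * K) => FF p ((i : ℕ) / 3) ((i : ℕ) % 3))
    (fun i => ⟨(hDEG p _ _).1, by rw [(hDEG p _ _).2]; omega⟩)
    (fun i => ⟨(hDEG p _ _).1, by rw [(hDEG p _ _).2]; omega⟩)
  have h2 : (Matrix.of fun i j : Fin (3 * K) => ∑ k : Fin (3 * K), ∑ l : Fin (3 * K),
      (FF p ((i : ℕ) / 3) ((i : ℕ) % 3)).eval ((p : ℝ) ^ (k : ℕ)) / pik ℝ p (3 * K) k *
        (A p M (3 * K)) k l * (FF p ((j : ℕ) / 3) ((j : ℕ) % 3)).coeff l) = L := by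
    ext i j
    rw [hL, Matrix.of_apply, Matrix.of_apply]
    unfold LL
    rw [Finset.sum_range]
    refine Finset.sum_congr rfl fun k _ => ?_
    rw [Finset.sum_range]
    rfl
  rw [h2] at h1
  intro h3
  rw [h3, abs_zero] at h1
  exact mul_ne_zero (abs_ne_zero.2 (VV_ne hp _)) (abs_ne_zero.2 hLd) h1.symm

end P_NZ

open P_NZ

/-- **Nonvanishing.** -/
theorem t_NZ (hNZ1 : S_NZ1) (hNZ2 : S_NZ2) (hPAR : S_PAR) (hDET : S_DET) (hDEG : S_DEG) :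
    S_NZ := by
  intro p hp
  obtain ⟨m, Λ, hm, hΛ, hpar⟩ := hPAR C3 ((1 / 2) ^ 13) C3_pos (by positivity)
  refine ⟨2 * m - 1, fun K => det_A hp hDET hDEG (2 * m - 1) K ?_⟩
  set Q : ℝ := |(p : ℝ)|⁻¹ with hQ
  have hQ0 : 0 < Q := Q_pos hp
  have hQ2 : Q ≤ 1 / 2 := Q_le hp
  have hQn : Q ≠ 0 := hQ0.ne'
  have hM1 : 2 * m - 1 + 1 = 2 * m := by omega
  have hM3 : 2 * m - 1 + 3 = 2 * m + 2 := by omega
  have hMc : ((2 * m - 1 : ℕ) : ℝ) + 2 = 2 * (m : ℝ) + 1 := by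
    rw [Nat.cast_sub (by omega)]
    push_cast
    ring
  obtain ⟨hA, hB, hC⟩ := hNZ1 p hp (2 * m - 1) (3 * K)
  have hw := ww_pos hp (3 * K)
  set B : ℝ := 2 * C3 * (2 * (m : ℝ) + 1) ^ 2 with hBdef
  have hB0 : 0 ≤ B := by
    have := C3_pos
    positivity
  have hr0 : 0 < Q ^ m := pow_pos hQ0 m
  have hr1 : Q ^ m ≤ (1 / 2) ^ m := pow_le_pow_left₀ hQ0.le hQ2 m
  have hr2 : Q ^ m ≤ 1 / 2 := by
    refine hr1.trans ?_
    calc (1 / 2 : ℝ) ^ m ≤ (1 / 2) ^ 1 := pow_le_pow_of_le_one (by norm_num) (by norm_num) hm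
      _ = 1 / 2 := pow_one _
  have hlt : ∀ i : Fin (3 * K), 3 * ((i : ℕ) / 3) + 2 < 3 * K := fun i => by
    have := i.2
    omega
  have hlt' : ∀ i : Fin (3 * K), 3 * ((i : ℕ) / 3) + (i : ℕ) % 3 < 3 * K := fun i => by
    have := i.2
    omega
  have hle : ∀ i : Fin (3 * K), (i : ℕ) % 3 ≤ 2 := fun i => by omega
  refine hNZ2 K _ (fun a c => (Q ^ (a + 1)) ^ m * ea p a ^ 3 * (Q ^ (a + 1)) ^ c)
    (fun a c => ww p (3 * K) * (Q ^ (a + 1)) ^ m * ea p a ^ 3 * (Q ^ (a + 1)) ^ (2 - c))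
    B (Q ^ m) ((1 / 2) ^ 13) Λ ?_ ?_ hB0 hr0 hr2 hΛ ?_ ?_ ?_ ?_
  · intro a c
    have := ea_pos hp a
    positivity
  · intro a c
    have := ea_pos hp a
    positivity
  · intro i j
    have h1 := hA ((i : ℕ) / 3) ((j : ℕ) / 3) ((i : ℕ) % 3) ((j : ℕ) % 3) (hle i) (hle j)
      (hlt' i) (hlt j)
    rw [Matrix.of_apply]
    refine h1.trans (le_of_eq ?_)
    rw [abs_xx, abs_xx, abs_xx, ← hQ, hM1, hMc, hBdef]
    set a := (i : ℕ) / 3
    set a' := (j : ℕ) / 3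
    have h2 : (Q ^ (max a a' + 1)) ^ (2 * m) =
        (Q ^ m) ^ ((a : ℤ) - (a' : ℤ)).natAbs * (Q ^ (a + 1)) ^ m * (Q ^ (a' + 1)) ^ m := by
      rw [← pow_mul, ← pow_mul, ← pow_mul, ← pow_mul, ← pow_add, ← pow_add]
      congr 1
      rcases le_total a a' with h | h
      · rw [max_eq_right h]
        obtain ⟨d, hd⟩ := Nat.exists_eq_add_of_le h
        have h3 : ((a : ℤ) - (a' : ℤ)).natAbs = d := by omega
        rw [h3, hd]
        ring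
      · rw [max_eq_left h]
        obtain ⟨d, hd⟩ := Nat.exists_eq_add_of_le h
        have h3 : ((a : ℤ) - (a' : ℤ)).natAbs = d := by omega
        rw [h3, hd]
        ring
    rw [h2]
    ring
  · intro i j hij hc
    have h1 := hB ((i : ℕ) / 3) ((i : ℕ) % 3) ((j : ℕ) % 3) (hle i) hc (hlt i)
    rw [Matrix.of_apply, ← hij]
    refine h1.trans (le_of_eq ?_)
    rw [abs_xx, abs_xx, ← hQ, hM1, hMc, hBdef]
    set a := (i : ℕ) / 3
    have h2 : (Q ^ (a + 2)) ^ (2 * m) =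
        (Q ^ m) ^ 2 * (Q ^ (a + 1)) ^ m * (Q ^ (a + 1)) ^ m := by
      rw [← pow_mul, ← pow_mul, ← pow_mul, ← pow_add, ← pow_add]
      congr 1
      ring
    rw [h2, pow_add]
    ring
  · intro i
    have h1 := hC ((i : ℕ) / 3) ((i : ℕ) % 3) (hle i) (hlt i)
    rw [Matrix.of_apply]
    refine le_trans (le_of_eq ?_) h1
    rw [abs_xx, abs_xx, ← hQ, hM1, hM3, hMc, hBdef]
    set a := (i : ℕ) / 3
    have h2 : (Q ^ (a + 2)) ^ (2 * m) =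
        (Q ^ m) ^ 2 * (Q ^ (a + 1)) ^ m * (Q ^ (a + 1)) ^ m := by
      rw [← pow_mul, ← pow_mul, ← pow_mul, ← pow_add, ← pow_add]
      congr 1
      ring
    have h3 : (Q ^ (a + 1)) ^ (2 * m + 2) =
        (Q ^ (a + 1)) ^ m * (Q ^ (a + 1)) ^ m * (Q ^ (a + 1)) ^ 2 := by
      rw [← pow_add, ← pow_add]
      congr 1
      ring
    have h4 : (Q ^ (a + 1)) ^ ((i : ℕ) % 3) * (Q ^ (a + 1)) ^ (2 - (i : ℕ) % 3) =
        (Q ^ (a + 1)) ^ 2 := by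
      rw [← pow_add]
      congr 1
      have := hle i
      omega
    rw [h2, h3, ← h4]
    ring
  · exact hpar (Q ^ m) hr0 hr1

end Pool.Agent.H475.QZ
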