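import Pool.Agent.H475.QZ.Stm

/-!
`ζ = ∑ σ_2(n)/p^n`.
-/

namespace Pool.Agent.H475.QZ

open Finset

namespace P_SIG

theorem tsum_pnat {f : ℕ → ℝ} (hf : f 0 = 0) : ∑' n : ℕ+, f (n : ℕ) = ∑' n : ℕ, f n := by
  refine Function.Injective.tsum_eq (g := fun n : ℕ+ => (n : ℕ)) PNat.coe_injective ?_
  intro n hn
  rw [Function.mem_support] at hn
  have h0 : 0 < n := by
    rcases Nat.eq_zero_or_pos n with h | h
    · exact absurd (h ▸ hf) hn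
    · exact h
  exact ⟨⟨n, h0⟩, rfl⟩

end P_SIG

theorem t_SIG : S_SIG := by
  intro p hp
  have hp' : (2 : ℝ) ≤ |(p : ℝ)| := by exact_mod_cast hp
  have hp0 : (p : ℝ) ≠ 0 := by
    intro h
    rw [h, abs_zero] at hp'
    norm_num at hp'
  have hr : ‖((p : ℝ))⁻¹‖ < 1 := by
    rw [norm_inv, Real.norm_eq_abs]
    exact inv_lt_one_of_one_lt₀ (by linarith)
  have h := tsum_pow_div_one_sub_eq_tsum_sigma hr 2
  have h1 : ∑' n : ℕ+, (((n : ℕ) : ℝ) ^ 2 * ((p : ℝ)⁻¹) ^ (n : ℕ) / (1 - ((p : ℝ)⁻¹) ^ (n : ℕ))) =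
      zeta p := by
    rw [zeta, ← P_SIG.tsum_pnat (f := cR p) (by simp [cR])]
    refine tsum_congr fun n => ?_
    rw [cR, inv_pow]
    have hn : (p : ℝ) ^ (n : ℕ) ≠ 0 := pow_ne_zero _ hp0
    have hn1 : (p : ℝ) ^ (n : ℕ) - 1 ≠ 0 := by
      intro h0
      have h2 : |(p : ℝ) ^ (n : ℕ)| = 1 := by
        rw [sub_eq_zero.1 h0, abs_one]
      rw [abs_pow] at h2
      have h3 : 1 < |(p : ℝ)| ^ (n : ℕ) := one_lt_pow₀ (by linarith) n.ne_zero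
      linarith
    have hn2 : 1 - ((p : ℝ) ^ (n : ℕ))⁻¹ ≠ 0 := by
      intro h0
      apply hn1
      have h2 : ((p : ℝ) ^ (n : ℕ))⁻¹ = 1 := by linarith
      rw [inv_eq_one.1 h2, sub_self]
    rw [div_eq_div_iff hn2 hn1]
    field_simp
  have h2 : ∑' n : ℕ+, ((ArithmeticFunction.sigma 2 (n : ℕ) : ℕ) : ℝ) * ((p : ℝ)⁻¹) ^ (n : ℕ) =
      ∑' n : ℕ, (ArithmeticFunction.sigma 2 n : ℝ) / (p : ℝ) ^ n := by
    rw [← P_SIG.tsum_pnat (f := fun n => (ArithmeticFunction.sigma 2 n : ℝ) / (p : ℝ) ^ n)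
      (by simp)]
    refine tsum_congr fun n => ?_
    rw [inv_pow, div_eq_mul_inv]
  rw [← h1, ← h2]
  exact h

end Pool.Agent.H475.QZ
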