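import Pool.Agent.H475.QZ.Stm

/-! Summability. -/

set_option autoImplicit false

namespace Pool.Agent.H475.QZ.P_SUM

theorem bd (p : ℤ) (hp : 2 ≤ |p|) (n : ℕ) : ‖cR p n‖ ≤ 2 * ((n : ℝ) ^ 2 * (1 / 2 : ℝ) ^ n) := by
  have hp' : (2 : ℝ) ≤ |(p : ℝ)| := by exact_mod_cast hp
  rcases Nat.eq_zero_or_pos n with rfl | hn
  · simp [cR]
  · have h1 : (2 : ℝ) ^ n ≤ |(p : ℝ)| ^ n := pow_le_pow_left₀ (by norm_num) hp' n
    have h2 : (2 : ℝ) ≤ 2 ^ n := by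
      calc (2 : ℝ) = 2 ^ 1 := by norm_num
        _ ≤ 2 ^ n := pow_le_pow_right₀ (by norm_num) hn
    have h3 : |(p : ℝ)| ^ n - 1 ≤ |(p : ℝ) ^ n - 1| := by
      rw [← abs_pow]
      have := abs_sub_abs_le_abs_sub ((p : ℝ) ^ n) 1
      rwa [abs_one] at this
    have h4 : (2 : ℝ) ^ n / 2 ≤ |(p : ℝ) ^ n - 1| := by linarith
    have h5 : (0 : ℝ) < 2 ^ n / 2 := by positivity
    rw [cR, Real.norm_eq_abs, abs_div, abs_of_nonneg (by positivity : (0 : ℝ) ≤ (n : ℝ) ^ 2)]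
    calc (n : ℝ) ^ 2 / |(p : ℝ) ^ n - 1| ≤ (n : ℝ) ^ 2 / (2 ^ n / 2) :=
          div_le_div_of_nonneg_left (by positivity) h5 h4
      _ = 2 * ((n : ℝ) ^ 2 * (1 / 2 : ℝ) ^ n) := by
          rw [one_div, inv_pow]
          field_simp

theorem sm : Summable fun n : ℕ => 2 * ((n : ℝ) ^ 2 * (1 / 2 : ℝ) ^ n) := by
  apply Summable.mul_left
  apply summable_pow_mul_geometric_of_norm_lt_one
  rw [Real.norm_eq_abs, abs_of_pos (by norm_num)]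
  norm_num

end Pool.Agent.H475.QZ.P_SUM

namespace Pool.Agent.H475.QZ

open P_SUM in
theorem t_SUM : S_SUM := by
  intro p hp
  have hp' : (2 : ℝ) ≤ |(p : ℝ)| := by exact_mod_cast hp
  refine ⟨fun k J => ?_, Summable.of_norm_bounded sm (bd p hp)⟩
  have h1 : Summable fun e : ℕ =>
      2 * (((e + (1 + J) : ℕ) : ℝ) ^ 2 * (1 / 2 : ℝ) ^ (e + (1 + J))) :=
    (summable_nat_add_iff (f := fun n : ℕ => 2 * ((n : ℝ) ^ 2 * (1 / 2 : ℝ) ^ n)) (1 + J)).2 sm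
  refine Summable.of_norm_bounded h1 fun e => ?_
  have h2 := bd p hp (e + 1 + J)
  rw [add_assoc] at h2
  have h3 : ‖((p : ℝ) ^ (k * (e + 1)))⁻¹‖ ≤ 1 := by
    rw [norm_inv, norm_pow, Real.norm_eq_abs]
    exact inv_le_one_of_one_le₀ (one_le_pow₀ (by linarith))
  rw [norm_mul, add_assoc]
  calc _ ≤ 1 * ‖cR p (e + (1 + J))‖ := mul_le_mul_of_nonneg_right h3 (norm_nonneg _)
    _ ≤ _ := by rw [one_mul]; exact h2

end Pool.Agent.H475.QZ
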