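import Pool.Agent.H475.QZ.Stm

set_option autoImplicit false

namespace Pool.Agent.H475.QZ

open Finset Polynomial

namespace P_UP

theorem LL_eq (p : ℤ) (M N : ℕ) (F G : Polynomial ℝ) :
    ∑ k : Fin N, ∑ l : Fin N, F.eval ((p : ℝ) ^ (k : ℕ)) / pik ℝ p N k * A p M N k l * G.coeff l =
      LL p M N F G := by
  unfold LL
  rw [← Fin.sum_univ_eq_sum_range (fun k => ∑ j ∈ range N,
    F.eval ((p : ℝ) ^ k) / pik ℝ p N k * a p k (M + j) * G.coeff j) N]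
  refine Finset.sum_congr rfl fun k _ => ?_
  rw [← Fin.sum_univ_eq_sum_range (fun j =>
    F.eval ((p : ℝ) ^ (k : ℕ)) / pik ℝ p N k * a p k (M + j) * G.coeff j) N]
  rfl

theorem ww_pow (p : ℤ) (hp : 2 ≤ |p|) (K : ℕ) :
    ww p (3 * K) ^ (2 * (3 * K)) * |(p : ℝ)| ^ (27 * K ^ 3) = |(p : ℝ)| ^ (9 * K ^ 2) := by
  have hP0 : (0 : ℝ) < |(p : ℝ)| := by
    rw [abs_pos]
    intro h
    have h' : p = 0 := by exact_mod_cast h
    rw [h'] at hp; norm_num at hp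
  unfold ww
  rw [inv_pow, ← pow_mul]
  have h1 : 3 * K * (3 * K - 1) / 2 * (2 * (3 * K)) + 9 * K ^ 2 = 27 * K ^ 3 := by
    have hev : 2 ∣ 3 * K * (3 * K - 1) := by
      rcases Nat.eq_zero_or_pos K with h0 | h0
      · rw [h0]; simp
      · have := (Nat.even_mul_pred_self (3 * K)).two_dvd
        exact this
    obtain ⟨m, hm⟩ := hev
    rw [hm, Nat.mul_div_cancel_left _ (by norm_num)]
    have h2 : 2 * m * (3 * K) + 9 * K ^ 2 = 27 * K ^ 3 := by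
      rw [← hm]
      rcases Nat.eq_zero_or_pos K with h0 | h0
      · rw [h0]; simp
      · obtain ⟨k, hk⟩ : ∃ k, 3 * K - 1 = k := ⟨_, rfl⟩
        have hk' : 3 * K = k + 1 := by omega
        rw [hk]
        have e : 27 * K ^ 3 = (3 * K) ^ 3 := by ring
        have e' : 9 * K ^ 2 = (3 * K) ^ 2 := by ring
        rw [e, e', hk']
        ring
    calc m * (2 * (3 * K)) + 9 * K ^ 2 = 2 * m * (3 * K) + 9 * K ^ 2 := by ring
      _ = 27 * K ^ 3 := h2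
  rw [← h1, pow_add, ← mul_assoc, inv_mul_cancel₀ (pow_pos hP0 _).ne', one_mul]

theorem fac_le (P : ℝ) (hP : 2 ≤ P) (K : ℕ) : ((3 * K).factorial : ℝ) ≤ P ^ (9 * K ^ 2) := by
  have h1 : ((3 * K).factorial : ℝ) ≤ ((3 * K : ℕ) : ℝ) ^ (3 * K) := by
    exact_mod_cast Nat.factorial_le_pow (3 * K)
  have h2 : ((3 * K : ℕ) : ℝ) ≤ P ^ (3 * K) := by
    have h3 : ((3 * K : ℕ) : ℝ) ≤ 2 ^ (3 * K) := by exact_mod_cast (Nat.lt_two_pow_self).le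
    exact h3.trans (pow_le_pow_left₀ (by norm_num) hP _)
  calc ((3 * K).factorial : ℝ) ≤ ((3 * K : ℕ) : ℝ) ^ (3 * K) := h1
    _ ≤ (P ^ (3 * K)) ^ (3 * K) := pow_le_pow_left₀ (Nat.cast_nonneg _) h2 _
    _ = P ^ (9 * K ^ 2) := by rw [← pow_mul]; congr 1; ring

end P_UP

open P_UP in
theorem t_UP (hDET : S_DET) (hDEG : S_DEG) (hUP1 : S_UP1) (hDU : S_DU) (hVB : S_VB) : S_UP := by
  intro p hp M
  have hPR : (2 : ℝ) ≤ |(p : ℝ)| := by exact_mod_cast hp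
  obtain ⟨P, hP⟩ : ∃ P : ℝ, P = |(p : ℝ)| := ⟨_, rfl⟩
  have hP2 : 2 ≤ P := by rw [hP]; exact hPR
  have hP0 : 0 < P := by linarith
  have hP1 : 1 ≤ P := by linarith
  obtain ⟨B0, hB0⟩ : ∃ B0 : ℝ, B0 = C3 * ((M : ℝ) + 2) ^ 2 := ⟨_, rfl⟩
  have hB00 : 0 ≤ B0 := by rw [hB0]; unfold C3; positivity
  obtain ⟨C', hC'⟩ := pow_unbounded_of_one_lt B0 (by norm_num : (1 : ℝ) < 2)
  refine ⟨33 + 6 * C', fun K hK => ?_⟩
  obtain ⟨hV1, hV2⟩ := hVB p hp K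
  obtain ⟨r, hr⟩ : ∃ r : Fin (3 * K) → ℝ, r = fun i : Fin (3 * K) => ea p ((i : ℕ) / 3) ^ 3 := ⟨_, rfl⟩
  have hea : ∀ a, 0 ≤ ea p a := fun a => by unfold ea; positivity
  have hww : 0 ≤ ww p (3 * K) := by unfold ww; positivity
  have hr0 : ∀ i, 0 ≤ r i := fun i => by rw [hr]; exact pow_nonneg (hea _) _
  have hF : ∀ i : Fin (3 * K), (FF p ((i : ℕ) / 3) ((i : ℕ) % 3)).Monic ∧
      (FF p ((i : ℕ) / 3) ((i : ℕ) % 3)).natDegree = i := by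
    intro i
    obtain ⟨h1, h2⟩ := hDEG p ((i : ℕ) / 3) ((i : ℕ) % 3)
    refine ⟨h1, ?_⟩
    rw [h2]
    exact Nat.div_add_mod _ _
  have hdet := hDET ℝ p hp (3 * K) (A p M (3 * K)) _ _ hF hF
  obtain ⟨T, hT⟩ : ∃ T : Matrix (Fin (3 * K)) (Fin (3 * K)) ℝ, T = Matrix.of fun i j : Fin (3 * K) =>
      ∑ k : Fin (3 * K), ∑ l : Fin (3 * K),
      (FF p ((i : ℕ) / 3) ((i : ℕ) % 3)).eval ((p : ℝ) ^ (k : ℕ)) / pik ℝ p (3 * K) k * A p M (3 * K) k l *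
        (FF p ((j : ℕ) / 3) ((j : ℕ) % 3)).coeff l := ⟨_, rfl⟩
  rw [← hT] at hdet
  have hTb : ∀ i j, |T i j| ≤ (B0 * ww p (3 * K)) * r i * r j := by
    intro i j
    have e : T i j = LL p M (3 * K) (FF p ((i : ℕ) / 3) ((i : ℕ) % 3)) (FF p ((j : ℕ) / 3) ((j : ℕ) % 3)) := by
      rw [hT]; exact LL_eq p M (3 * K) _ _
    have h1 := hUP1 p hp M (3 * K) ((i : ℕ) / 3) ((j : ℕ) / 3) ((i : ℕ) % 3) ((j : ℕ) % 3)
      (by omega) (by omega) (by rw [Nat.div_add_mod]; exact i.2) (by rw [Nat.div_add_mod]; exact j.2)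
    rw [e]
    refine h1.trans_eq ?_
    rw [hB0, hr]
    ring
  have hdu := hDU (3 * K) T (B0 * ww p (3 * K)) r (mul_nonneg hB00 hww) hr0 hTb
  obtain ⟨R, hR⟩ : ∃ R : ℝ, R = ∏ i, r i ^ 2 := ⟨_, rfl⟩
  have hR0 : 0 ≤ R := by rw [hR]; exact Finset.prod_nonneg fun i _ => sq_nonneg _
  have hV2' : R * P ^ (3 * K ^ 3) = P ^ (3 * K) := by
    rw [hR, hP, ← hV2, hr]
  have hww2 := ww_pow p hp K
  rw [← hP] at hww2 hV1 ⊢
  rw [← hR] at hdu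
  have hfac := fac_le P hP2 K
  have hBN : B0 ^ (2 * (3 * K)) ≤ P ^ (6 * C' * K) := by
    calc B0 ^ (2 * (3 * K)) ≤ (2 ^ C') ^ (2 * (3 * K)) := pow_le_pow_left₀ hB00 hC'.le _
      _ = 2 ^ (6 * C' * K) := by rw [← pow_mul]; congr 1; ring
      _ ≤ P ^ (6 * C' * K) := pow_le_pow_left₀ (by norm_num) hP2 _
  obtain ⟨f, hf⟩ : ∃ f : ℝ, f = ((3 * K).factorial : ℝ) := ⟨_, rfl⟩
  have hf0 : 0 ≤ f := by rw [hf]; positivity
  rw [← hf] at hdu hfac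
  obtain ⟨w, hw⟩ : ∃ w, w = ww p (3 * K) := ⟨_, rfl⟩
  rw [← hw] at hdu hww2 hww
  have hA : |(A p M (3 * K)).det| ≤ P ^ (9 * K ^ 3) * (f * (B0 * w) ^ (3 * K) * R) := by
    rw [hdet]
    exact mul_le_mul hV1 hdu (abs_nonneg _) (by positivity)
  have hwnn : 0 ≤ w := hww
  calc |(A p M (3 * K)).det| ^ 2 * P ^ (15 * K ^ 3)
      ≤ (P ^ (9 * K ^ 3) * (f * (B0 * w) ^ (3 * K) * R)) ^ 2 * P ^ (15 * K ^ 3) := by
        refine mul_le_mul_of_nonneg_right (pow_le_pow_left₀ (abs_nonneg _) hA 2) (by positivity)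
    _ = f ^ 2 * B0 ^ (2 * (3 * K)) * (w ^ (2 * (3 * K)) * P ^ (27 * K ^ 3)) * (R * P ^ (3 * K ^ 3)) ^ 2 := by
        have e1 : w ^ (2 * (3 * K)) = (w ^ (3 * K)) ^ 2 := by rw [← pow_mul]; congr 1; ring
        have e2 : B0 ^ (2 * (3 * K)) = (B0 ^ (3 * K)) ^ 2 := by rw [← pow_mul]; congr 1; ring
        have e3 : (P ^ (9 * K ^ 3)) ^ 2 * P ^ (15 * K ^ 3) = P ^ (27 * K ^ 3) * (P ^ (3 * K ^ 3)) ^ 2 := by
          rw [← pow_mul, ← pow_mul, ← pow_add, ← pow_add]; congr 1; ring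
        rw [e1, e2, mul_pow B0 w]
        linear_combination (f ^ 2 * (B0 ^ (3 * K)) ^ 2 * (w ^ (3 * K)) ^ 2 * R ^ 2) * e3
    _ = f ^ 2 * B0 ^ (2 * (3 * K)) * P ^ (9 * K ^ 2) * (P ^ (3 * K)) ^ 2 := by rw [hww2, hV2']
    _ ≤ (P ^ (9 * K ^ 2)) ^ 2 * P ^ (6 * C' * K) * P ^ (9 * K ^ 2) * (P ^ (3 * K)) ^ 2 := by
        refine mul_le_mul_of_nonneg_right (mul_le_mul_of_nonneg_right ?_ (by positivity)) (by positivity)
        exact mul_le_mul (pow_le_pow_left₀ hf0 hfac 2) hBN (by positivity) (by positivity)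
    _ = P ^ (27 * K ^ 2 + 6 * C' * K + 6 * K) := by
        rw [← pow_mul, ← pow_mul, ← pow_add, ← pow_add, ← pow_add]; congr 1; ring
    _ ≤ P ^ ((33 + 6 * C') * K ^ 2) := by
        refine pow_le_pow_right₀ hP1 ?_
        have hKK : K ≤ K ^ 2 := by nlinarith
        nlinarith [Nat.mul_le_mul_left (6 * C') hKK]

end Pool.Agent.H475.QZ

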