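import Pool.Agent.H475.QZ.Stm

/-! Task QZ UP1 (helper657). -/

namespace Pool.Agent.H475.QZ

open Finset Polynomial

namespace P_UP1

theorem xx_abs {p : ℤ} (hp : 2 ≤ |p|) (t : ℕ) : |xx p t| ≤ (1 / 2) ^ t := by
  unfold xx
  rw [abs_inv, abs_pow, one_div, inv_pow]
  have h2 : (2 : ℝ) ≤ |(p : ℝ)| := by exact_mod_cast hp
  exact inv_anti₀ (by positivity) (pow_le_pow_left₀ (by norm_num) h2 t)

theorem xx_le_one {p : ℤ} (hp : 2 ≤ |p|) (t : ℕ) : |xx p t| ≤ 1 :=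
  (xx_abs hp t).trans (pow_le_one₀ (by norm_num) (by norm_num))

theorem van (hVAN : S_VAN) (hDVD : S_DVD) (p : ℤ) (M N a a' c c' t : ℕ) (ht : 1 ≤ t)
    (h : t ≤ a ∨ t ≤ a') : kap p M N t (FF p a c * FF p a' c') = 0 := by
  apply hVAN
  rcases h with h | h
  · exact (hDVD p a c t ht h).mul_right _
  · exact (hDVD p a' c' t ht h).mul_left _

end P_UP1

theorem t_UP1 (hHLL : S_HLL) (hVAN : S_VAN) (hKB : S_KB) (hDEG : S_DEG) (hDVD : S_DVD) :
    S_UP1 := by
  intro p hp M N a a' c c' hc hc' h1 h2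
  have e0 : (0 : ℝ) ≤ ea p a := by unfold ea; positivity
  have e0' : (0 : ℝ) ≤ ea p a' := by unfold ea; positivity
  have w0 : (0 : ℝ) ≤ ww p N := by unfold ww; positivity
  have C0 : (0 : ℝ) ≤ C3 := by unfold C3; positivity
  set K : ℝ := C3 * ((M : ℝ) + 2) ^ 2 * ea p a ^ 3 * ea p a' ^ 3 * ww p N with hK
  have K0 : 0 ≤ K := by rw [hK]; positivity
  have hs := hHLL p hp M N (FF p a c) (FF p a' c') (by rw [(hDEG p a c).2]; exact h1)
    (by rw [(hDEG p a' c').2]; exact h2)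
  have hg : HasSum (fun t : ℕ => K / 2 * (1 / 2 : ℝ) ^ t) (K / 2 * 2) :=
    hasSum_geometric_two.mul_left _
  have hb : ∀ t : ℕ, ‖kap p M N (t + 1) (FF p a c * FF p a' c')‖ ≤ K / 2 * (1 / 2 : ℝ) ^ t := by
    intro t
    by_cases ht : t + 1 ≤ a ∨ t + 1 ≤ a'
    · rw [P_UP1.van hVAN hDVD p M N a a' c c' (t + 1) (by omega) ht, norm_zero]
      positivity
    · rw [Real.norm_eq_abs]
      push Not at ht
      refine (hKB p hp M N (t + 1) a a' c c' ht.1 ht.2 hc hc').trans ?_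
      have b1 : |xx p (t + 1)| ^ (M + 1) ≤ (1 / 2) ^ (t + 1) := by
        calc |xx p (t + 1)| ^ (M + 1) = |xx p (t + 1)| ^ M * |xx p (t + 1)| := pow_succ _ _
          _ ≤ 1 * (1 / 2) ^ (t + 1) :=
              mul_le_mul (pow_le_one₀ (abs_nonneg _) (P_UP1.xx_le_one hp _))
                (P_UP1.xx_abs hp _) (abs_nonneg _) (by norm_num)
          _ = _ := one_mul _
      have b2 : |xx p (a + 1)| ^ c ≤ 1 := pow_le_one₀ (abs_nonneg _) (P_UP1.xx_le_one hp _)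
      have b3 : |xx p (a' + 1)| ^ c' ≤ 1 := pow_le_one₀ (abs_nonneg _) (P_UP1.xx_le_one hp _)
      calc C3 * ((M : ℝ) + 2) ^ 2 * |xx p (t + 1)| ^ (M + 1) * ea p a ^ 3 * ea p a' ^ 3 *
            |xx p (a + 1)| ^ c * |xx p (a' + 1)| ^ c' * ww p N
          = K * (|xx p (t + 1)| ^ (M + 1) * (|xx p (a + 1)| ^ c * |xx p (a' + 1)| ^ c')) := by
            rw [hK]; ring
        _ ≤ K * ((1 / 2) ^ (t + 1) * (1 * 1)) := by
            refine mul_le_mul_of_nonneg_left ?_ K0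
            refine mul_le_mul b1 ?_ (by positivity) (by positivity)
            exact mul_le_mul b2 b3 (by positivity) (by norm_num)
        _ = K / 2 * (1 / 2 : ℝ) ^ t := by rw [pow_succ]; ring
  have := hs.norm_le_of_bounded hg hb
  rw [Real.norm_eq_abs] at this
  calc |LL p M N (FF p a c) (FF p a' c')| ≤ K / 2 * 2 := this
    _ = K := by ring
end Pool.Agent.H475.QZ
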