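import Pool.Agent.H475.QZ.P_ASER
import Pool.Agent.H475.QZ.P_B1
import Pool.Agent.H475.QZ.P_CF
import Pool.Agent.H475.QZ.P_CP
import Pool.Agent.H475.QZ.P_DDB
import Pool.Agent.H475.QZ.P_DEG
import Pool.Agent.H475.QZ.P_DET
import Pool.Agent.H475.QZ.P_DK
import Pool.Agent.H475.QZ.P_DU
import Pool.Agent.H475.QZ.P_DVD
import Pool.Agent.H475.QZ.P_FIN
import Pool.Agent.H475.QZ.P_HLL
import Pool.Agent.H475.QZ.P_HR
import Pool.Agent.H475.QZ.P_HS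
import Pool.Agent.H475.QZ.P_INT
import Pool.Agent.H475.QZ.P_KB
import Pool.Agent.H475.QZ.P_KER
import Pool.Agent.H475.QZ.P_LAG
import Pool.Agent.H475.QZ.P_MAIN
import Pool.Agent.H475.QZ.P_NU
import Pool.Agent.H475.QZ.P_NUE
import Pool.Agent.H475.QZ.P_NUQ
import Pool.Agent.H475.QZ.P_NUX
import Pool.Agent.H475.QZ.P_NZ
import Pool.Agent.H475.QZ.P_NZ1
import Pool.Agent.H475.QZ.P_NZ2
import Pool.Agent.H475.QZ.P_PAR
import Pool.Agent.H475.QZ.P_PHI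
import Pool.Agent.H475.QZ.P_SIG
import Pool.Agent.H475.QZ.P_SUM
import Pool.Agent.H475.QZ.P_TOT
import Pool.Agent.H475.QZ.P_UP
import Pool.Agent.H475.QZ.P_UP1
import Pool.Agent.H475.QZ.P_VAN
import Pool.Agent.H475.QZ.P_VB

/-!
Assembly: `∑ σ_2(n)/p^n` is irrational for every integer `p`, `|p| ≥ 2`.
-/

namespace Pool.Agent.H475.QZ

theorem zeta_irrational (p : ℤ) (hp : 2 ≤ |p|) : Irrational (zeta p) := by
  have hCF : S_CF := t_CF t_SUM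
  have hINT : S_INT := t_INT t_B1
  have hCP : S_CP := t_CP t_DET t_HR (t_HS t_HR)
  have hDDB : S_DDB := t_DDB (t_DK t_PHI t_TOT)
  have hNUX : S_NUX := t_NUX t_NU
  have hKB : S_KB := t_KB t_NU hNUX (t_NUQ t_NU) (t_NUE t_NU hNUX)
  have hHLL : S_HLL := t_HLL (t_ASER t_KER) t_LAG
  have hUP1 : S_UP1 := t_UP1 hHLL t_VAN hKB t_DEG t_DVD
  have hUP : S_UP := t_UP t_DET t_DEG hUP1 t_DU t_VB
  have hNZ1 : S_NZ1 := t_NZ1 hHLL t_VAN hKB t_DEG t_DVD t_MAIN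
  have hNZ : S_NZ := t_NZ hNZ1 t_NZ2 t_PAR t_DET t_DEG
  exact t_FIN hCF hINT hCP hDDB hUP hNZ p hp

theorem sigma_irrational (p : ℤ) (hp : 2 ≤ |p|) :
    Irrational (∑' n : ℕ, (ArithmeticFunction.sigma 2 n : ℝ) / (p : ℝ) ^ n) := by
  rw [← t_SIG p hp]
  exact zeta_irrational p hp

end Pool.Agent.H475.QZ
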