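import Pool.Agent.H475.QZ.Stm

/-!
Series for `a(k,J)`.
-/

namespace Pool.Agent.H475.QZ

open Finset

namespace P_ASER

/-- The double sequence. -/
noncomputable def f (p : ℤ) (k J e t : ℕ) : ℝ :=
  (((p : ℝ) ^ k) ^ (e + 1))⁻¹ * ((e + 1 + J : ℕ) : ℝ) ^ 2 * (xx p (t + 1)) ^ (e + 1 + J)

theorem abs_p {p : ℤ} (hp : 2 ≤ |p|) : (2:ℝ) ≤ |(p:ℝ)| := by
  have h : ((2:ℤ):ℝ) ≤ ((|p| : ℤ) : ℝ) := by exact_mod_cast hp
  rw [Int.cast_abs] at h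
  simpa using h

theorem abs_xx {p : ℤ} (hp : 2 ≤ |p|) (t : ℕ) : |xx p t| ≤ (1 / 2) ^ t := by
  have h := abs_p hp
  unfold xx
  rw [abs_inv, abs_pow, one_div, inv_pow]
  exact inv_anti₀ (by positivity) (pow_le_pow_left₀ (by norm_num) h t)

theorem abs_f {p : ℤ} (hp : 2 ≤ |p|) (k J e t : ℕ) :
    |f p k J e t| ≤ (((e + (1 + J) : ℕ) : ℝ) ^ 2 * (1 / 2) ^ (e + (1 + J))) * (1 / 2) ^ t := by
  have h := abs_p hp
  have h1 : |(((p : ℝ) ^ k) ^ (e + 1))⁻¹| ≤ 1 := by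
    rw [abs_inv, abs_pow, abs_pow]
    apply inv_le_one_of_one_le₀
    exact one_le_pow₀ (one_le_pow₀ (by linarith))
  have h2 : |(xx p (t + 1)) ^ (e + 1 + J)| ≤ (1 / 2) ^ (e + (1 + J)) * (1 / 2) ^ t := by
    rw [abs_pow]
    calc |xx p (t + 1)| ^ (e + 1 + J) ≤ ((1 / 2 : ℝ) ^ (t + 1)) ^ (e + 1 + J) :=
          pow_le_pow_left₀ (abs_nonneg _) (abs_xx hp _) _
      _ = (1 / 2 : ℝ) ^ ((t + 1) * (e + 1 + J)) := by rw [← pow_mul]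
      _ ≤ (1 / 2 : ℝ) ^ ((e + (1 + J)) + t) := by
          apply pow_le_pow_of_le_one (by norm_num) (by norm_num)
          nlinarith [Nat.zero_le (t * e), Nat.zero_le (t * J)]
      _ = _ := by rw [pow_add]
  unfold f
  rw [abs_mul, abs_mul]
  have h3 : |((e + 1 + J : ℕ) : ℝ) ^ 2| = ((e + (1 + J) : ℕ) : ℝ) ^ 2 := by
    rw [abs_of_nonneg (by positivity), add_assoc]
  rw [h3]
  calc |(((p : ℝ) ^ k) ^ (e + 1))⁻¹| * ((e + (1 + J) : ℕ) : ℝ) ^ 2 *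
        |(xx p (t + 1)) ^ (e + 1 + J)| ≤ 1 * ((e + (1 + J) : ℕ) : ℝ) ^ 2 *
        ((1 / 2) ^ (e + (1 + J)) * (1 / 2) ^ t) := by gcongr
    _ = _ := by ring

theorem summable_f {p : ℤ} (hp : 2 ≤ |p|) (k J : ℕ) :
    Summable (fun z : ℕ × ℕ => f p k J z.1 z.2) := by
  have h1 : Summable (fun n : ℕ => ((n : ℕ) : ℝ) ^ 2 * (1 / 2 : ℝ) ^ n) :=
    summable_pow_mul_geometric_of_norm_lt_one 2 (by rw [Real.norm_eq_abs]; norm_num)
  have h2 : Summable (fun e : ℕ => ((e + (1 + J) : ℕ) : ℝ) ^ 2 * (1 / 2 : ℝ) ^ (e + (1 + J))) :=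
    (summable_nat_add_iff (f := fun n : ℕ => ((n : ℕ) : ℝ) ^ 2 * (1 / 2 : ℝ) ^ n) (1 + J)).2 h1
  have h3 : Summable (fun t : ℕ => (1 / 2 : ℝ) ^ t) :=
    summable_geometric_of_lt_one (by norm_num) (by norm_num)
  have h4 : Summable (fun z : ℕ × ℕ => (((z.1 + (1 + J) : ℕ) : ℝ) ^ 2 *
      (1 / 2 : ℝ) ^ (z.1 + (1 + J))) * (1 / 2 : ℝ) ^ z.2) :=
    Summable.mul_of_nonneg h2 h3 (fun e => by positivity) (fun t => by positivity)
  refine Summable.of_norm_bounded h4 ?_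
  rintro ⟨e, t⟩
  rw [Real.norm_eq_abs]
  exact abs_f hp k J e t

theorem hasSum_t {p : ℤ} (hp : 2 ≤ |p|) (k J e : ℕ) :
    HasSum (fun t : ℕ => f p k J e t) (((p : ℝ) ^ (k * (e + 1)))⁻¹ * cR p (e + 1 + J)) := by
  have h := abs_p hp
  have hn1 : 1 ≤ e + 1 + J := by omega
  have hpn : (2:ℝ) ≤ |(p:ℝ) ^ (e + 1 + J)| := by
    rw [abs_pow]
    calc (2:ℝ) = 2 ^ 1 := by norm_num
      _ ≤ 2 ^ (e + 1 + J) := pow_le_pow_right₀ (by norm_num) hn1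
      _ ≤ _ := pow_le_pow_left₀ (by norm_num) h _
  have hf : ∀ t, f p k J e t = (((p : ℝ) ^ k) ^ (e + 1))⁻¹ * ((e + 1 + J : ℕ) : ℝ) ^ 2 *
      ((p:ℝ) ^ (e + 1 + J))⁻¹ * (((p:ℝ) ^ (e + 1 + J))⁻¹) ^ t := by
    intro t
    unfold f xx
    have e5 : ((p:ℝ) ^ (t + 1)) ^ (e + 1 + J) = (p:ℝ) ^ (e + 1 + J) * ((p:ℝ) ^ (e + 1 + J)) ^ t := by
      ring
    rw [inv_pow, inv_pow, e5, mul_inv]
    ring
  have hc : ((p : ℝ) ^ (k * (e + 1)))⁻¹ * cR p (e + 1 + J) =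
      (((p : ℝ) ^ k) ^ (e + 1))⁻¹ * ((e + 1 + J : ℕ) : ℝ) ^ 2 *
      ((p:ℝ) ^ (e + 1 + J))⁻¹ * (1 - ((p:ℝ) ^ (e + 1 + J))⁻¹)⁻¹ := by
    unfold cR
    rw [← pow_mul]
    generalize (p:ℝ) ^ (e + 1 + J) = y at hpn
    have hy0 : y ≠ 0 := by
      intro h0
      rw [h0, abs_zero] at hpn
      linarith
    have hy1 : y - 1 ≠ 0 := by
      intro h0
      have h00 : y = 1 := by linarith
      rw [h00, abs_one] at hpn
      linarith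
    have e2 : (1 - y⁻¹)⁻¹ = y / (y - 1) := by
      have e4 : (1 - y⁻¹) = (y - 1) / y := by
        rw [sub_div, div_self hy0, one_div]
      rw [e4, inv_div]
    have e3 : y⁻¹ * (y / (y - 1)) = 1 / (y - 1) := by
      rw [← mul_div_assoc, inv_mul_cancel₀ hy0]
    rw [e2, mul_assoc _ y⁻¹, e3]
    ring
  rw [hc, funext hf]
  have hq : |((p:ℝ) ^ (e + 1 + J))⁻¹| < 1 := by
    rw [abs_inv]
    exact inv_lt_one_of_one_lt₀ (by linarith)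
  exact (hasSum_geometric_of_abs_lt_one hq).mul_left _

end P_ASER

open P_ASER in
/-- **Series for `a(k,J)`.** -/
theorem t_ASER (hKER : S_KER) : S_ASER := by
  intro p hp k J
  have hs := summable_f hp k J
  have h1 : HasSum (fun e : ℕ => ((p : ℝ) ^ (k * (e + 1)))⁻¹ * cR p (e + 1 + J))
      (∑' z : ℕ × ℕ, f p k J z.1 z.2) :=
    hs.hasSum.prod_fiberwise fun e => hasSum_t hp k J e
  have h2 : a p k J = ∑' z : ℕ × ℕ, f p k J z.1 z.2 := h1.tsum_eq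
  have h3 : HasSum (fun z : ℕ × ℕ => f p k J z.2 z.1) (∑' z : ℕ × ℕ, f p k J z.1 z.2) :=
    (Equiv.prodComm ℕ ℕ).hasSum_iff.2 hs.hasSum
  have h4 : HasSum (fun t : ℕ => ∑' e : ℕ, f p k J e t) (∑' z : ℕ × ℕ, f p k J z.1 z.2) :=
    h3.prod_fiberwise fun t => (h3.summable.prod_factor t).hasSum
  rw [← h2] at h4
  have h5 : (fun t : ℕ => ∑' e : ℕ, f p k J e t) = fun t : ℕ =>
      2 * PowerSeries.coeff 2 (XX p (t + 1) ^ (J + 1) *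
        (PowerSeries.C ((p : ℝ) ^ k) - XX p (t + 1))⁻¹) := by
    funext t
    have hx : |xx p (t + 1)| ≤ 1 / 2 := by
      refine (abs_xx hp (t + 1)).trans ?_
      calc ((1:ℝ) / 2) ^ (t + 1) ≤ (1 / 2) ^ 1 :=
            pow_le_pow_of_le_one (by norm_num) (by norm_num) (by omega)
        _ = 1 / 2 := by norm_num
    have hP : 1 ≤ |(p:ℝ) ^ k| := by
      rw [abs_pow]
      exact one_le_pow₀ (by linarith [abs_p hp])
    have h6 := hKER (xx p (t + 1)) ((p:ℝ) ^ k) hx hP J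
    unfold XX
    rw [h6]
    rfl
  rw [h5] at h4
  exact h4

end Pool.Agent.H475.QZ
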